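import Pool.Agent.Lib.MP_2a1a00_nt.D.Fin

/-! A check: the statement of the earlier hand-in on the third power is the case `L = 1`. -/

namespace Pool.Agent.Lib.MP_2a1a00_nt

theorem zs_zero_sq (t : ℝ) : (zs 0).sq t = 1 := by
  have h : (1 / 2 + t * Complex.I : ℂ) ≠ 1 := fun h => by
    have := congrArg Complex.re h
    norm_num at this
  rw [Sel.sq, zs_L 0 h]
  simp

theorem zs_zero_qp : (zs 0).QP := by
  refine ⟨1, 2, 0, one_pos, fun n _ hn => ?_⟩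
  have h1 : n + 1 ≠ 1 := by omega
  have h2 : n ≠ 1 := by omega
  simp [zs, ArithmeticFunction.one_apply_ne h1, ArithmeticFunction.one_apply_ne h2]

theorem zs_zero_msq : (zs 0).Msq 1 1 := by
  refine ⟨1, fun T hT => ?_⟩
  simp [zs_zero_sq]

theorem mo_zero (E : ℝ → ℂ) : Mo E 0 ((0 : ℕ) / 4) 1 := by
  refine ⟨1, one_pos, fun ε hε => ⟨1, fun T hT => ?_⟩⟩
  have h : (1 : ℝ) ≤ T ^ ε := Real.one_le_rpow hT hε.le
  simpa using h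

theorem cube_of_twist : 0 < c3 ∧ ∀ (F : Sel) (a : ℕ) (M : ℂ), F.deg = 2 →
    ((a = 0 ∧ M = 1) ∨ (a = 1 ∧ M = 0) ∨ (a = 2 ∧ ∃ δ : ℝ, 0 < δ ∧ ∀ ε : ℝ, 0 < ε →
      ∃ C : ℝ, ∀ T : ℝ, 1 ≤ T → ‖(∫ x in (1 : ℝ)..T, F.E x ^ 2) - M * (T ^ (3 / 2 : ℝ) : ℝ)‖ ≤
        C * T ^ (3 / 2 - δ + ε))) →
    (∀ T : ℝ, 1 ≤ T →
      IntervalIntegrable (fun x => F.E x ^ a * Del 3 x ^ 3) MeasureTheory.volume 1 T) ∧
    ∃ δ : ℝ, 0 < δ ∧ ∃ C : ℝ, ∀ T : ℝ, 1 ≤ T →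
      ‖(∫ x in (1 : ℝ)..T, F.E x ^ a * Del 3 x ^ 3) -
        2 * (4 + a) / (8 + a) * M * c3 * (T ^ (2 + (a : ℝ) / 4) : ℝ)‖ ≤
        C * T ^ (2 + (a : ℝ) / 4 - δ) := by
  refine ⟨c3_pos, fun F a M hF hM => ?_⟩
  have ha : a ≤ 2 := by rcases hM with h | h | h <;> omega
  have key := main_tw (F := F) (L := zs 0) (R := 1) (η := 1) (a := a) (b := 3)
    (c := (1 + a / 4) * (1 + (3 : ℕ) / 3) * M * c3) hF (by rw [zs_deg]; norm_num) zs_zero_qp one_pos zs_zero_msq (by norm_num) le_rfl (by omega) (by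
      rcases hM with ⟨rfl, rfl⟩ | ⟨rfl, rfl⟩ | ⟨rfl, δ, hδ, h⟩
      · exact Or.inr ⟨1, c3, mo_zero _, Or.inr ⟨rfl, rfl⟩, rfl⟩
      · exact Or.inl ⟨Or.inl rfl, by simp⟩
      · refine Or.inr ⟨M, c3, ⟨δ, hδ, fun ε hε => ?_⟩, Or.inr ⟨rfl, rfl⟩, rfl⟩
        have e : (1 + ((2 : ℕ) : ℝ) / 4) = 3 / 2 := by norm_num
        rw [e]
        exact h ε hε)
  obtain ⟨k1, Q, q1, q2, δ, hδ, K, k2⟩ := key
  have e : (1 + (a : ℝ) / 4 + ((3 : ℕ) : ℝ) / 3) = 2 + a / 4 := by push_cast; ring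
  rw [e] at q2 k2
  simp only [zs_zero_sq, Complex.ofReal_one, mul_one] at k1 k2
  refine ⟨k1, δ, hδ, K, fun T hT => ?_⟩
  have q3 := Polynomial.eq_C_of_degree_eq_zero (q1.trans Polynomial.degree_one)
  rw [q3] at q2 k2
  have q4 : (2 + (a : ℝ) / 4) * Q.coeff 0 = 1 := by
    have := congrArg (fun p => Polynomial.coeff p 0) q2
    simpa using this
  have hp : (0 : ℝ) < 8 + a := by positivity
  have q5 : Q.coeff 0 = 4 / (8 + a) := by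
    rw [eq_div_iff hp.ne']
    linarith
  have := k2 T hT
  rw [Polynomial.eval_C, q5] at this
  have hc : (8 + a : ℂ) ≠ 0 := by exact_mod_cast hp.ne'
  have e2 : (1 + (a : ℂ) / 4) * (1 + ((3 : ℕ) : ℂ) / 3) * M * c3 *
      ((T ^ (2 + (a : ℝ) / 4) * (4 / (8 + a)) : ℝ) : ℂ) =
      2 * (4 + a) / (8 + a) * M * c3 * (T ^ (2 + (a : ℝ) / 4) : ℝ) := by
    push_cast
    field_simp
    ring
  rwa [e2] at this

end Pool.Agent.Lib.MP_2a1a00_nt
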