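import Pool.Agent.Lib.MP_2a1a00_nt.C.Stmt4
import Pool.Agent.Lib.MP_2a1a00_nt.S.Stmt4

/-! The definition used in the statement on twisted moments with the error term of order three. -/

namespace Pool.Agent.Lib.MP_2a1a00_nt

/-- The moment formula with the constant `C` and a power saving. -/
def Mo (E : ℝ → ℂ) (l : ℕ) (e : ℝ) (C : ℂ) : Prop :=
  ∃ δ : ℝ, 0 < δ ∧ ∀ ε : ℝ, 0 < ε → ∃ K : ℝ, ∀ T : ℝ, 1 ≤ T →
    ‖(∫ x in (1 : ℝ)..T, E x ^ l) - C * (T ^ (1 + e) : ℝ)‖ ≤ K * T ^ (1 + e - δ + ε)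

end Pool.Agent.Lib.MP_2a1a00_nt
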