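import Pool.Agent.Lib.MP_2a1a00_nt.D.Red
import Pool.Agent.Lib.MP_2a1a00_nt.D.Stmt5

/-! The main terms and the asymptotic formula with the twist. -/

namespace Pool.Agent.Lib.MP_2a1a00_nt

open Complex MeasureTheory Set

variable {F L : Sel} {P : Vo} {a b : ℕ}

theorem fn_diff5 (h : F.deg = 2) (hP : F.Vor P) (ha : a ≤ 5) :
    Bd (fun T => ∫ x in T..2 * T, ‖F.E x ^ a - F.Hs P (1 / 100) T x ^ a‖)
      (1 + a / 4 - 1 / 500) := by
  have m1 := low0 (n := 7) (m := 8) (x := 1 / 4) (f := fun _ => F.E) (by omega)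
    (fun _ hT => F.bm_E hT) ((bd_nat 3 fun _ hε => F.E_eight h hP hε).mono (by norm_num))
  have m2 := low0 (n := 7) (m := 8) (x := 1 / 4) (f := fun T => F.Hs P (1 / 100) T) (by omega)
    (fun _ hT => F.bm_Hs P _ hT) ((Sel.p2_H8 h hP le_rfl).mono (by norm_num))
  simp only [← mo_one] at m1 m2
  have d := diff_bd (e := fun _ => F.E) (h := fun T => F.Hs P (1 / 100) T) ha
    (fun T hT => F.bm_E hT) (fun T hT => F.bm_Hs P _ hT) continuous_const (fun _ => zero_le_one)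
    bd_one (m1.mono (by norm_num)) (m2.mono (by norm_num))
    ((Sel.p2_l2 h hP le_rfl).mono (by norm_num))
  simpa only [mo, pow_one, mul_one] using d

theorem fn_pb5 (h : F.deg = 2) (hP : F.Vor P) (ha : a ≤ 5) {M : ℂ} {δ : ℝ} (hδ : δ ≤ 1 / 500)
    (hM : ∀ ε : ℝ, 0 < ε → ∃ C : ℝ, ∀ T : ℝ, 1 ≤ T → ‖(∫ x in (1 : ℝ)..T, F.E x ^ a) -
      M * (T ^ (1 + (a : ℝ) / 4) : ℝ)‖ ≤ C * T ^ (1 + (a : ℝ) / 4 - δ + ε)) :
    Pb (fun T x => F.Hs P (1 / 100) T x ^ a - M * ((1 + (a : ℝ) / 4 : ℝ) * px ((a : ℝ) / 4 : ℝ) x))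
      (1 + a / 4 - δ) := by
  have hσ : (0 : ℝ) ≤ a / 4 := by positivity
  have hv : ContinuousOn (fun x => M * ((1 + (a : ℝ) / 4 : ℝ) * px ((a : ℝ) / 4 : ℝ) x)) (Ioi 0) :=
    continuousOn_const.mul (continuousOn_const.mul (px_cont _))
  have p1 := pb_of (u := fun x => F.E x ^ a) (U := fun x => M * (x ^ (1 + (a : ℝ) / 4) : ℝ))
    (by linarith) (fun _ _ h1 h2 => (hy_int F F F a a h1 h2).2) hv (fun _ _ h1 h2 => by
      rw [intervalIntegral.integral_const_mul, px_int hσ h1 h2, mul_sub]) hM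
  have p2 : Pb (fun T x => F.E x ^ a - F.Hs P (1 / 100) T x ^ a) (1 + a / 4 - δ) :=
    ⟨_, (fn_diff5 h hP ha).mono (by linarith), fun T hT y hy =>
      (intervalIntegral.norm_integral_le_integral_norm hy.1).trans
        (intervalIntegral.integral_mono_interval le_rfl hy.1 hy.2
          (Filter.Eventually.of_forall fun _ => norm_nonneg _)
          ((fna_bm F P a hT).int ⟨by linarith, le_rfl⟩).norm)⟩
  refine (p1.add p2.neg (fun T hT => ((F.bm_E hT).pow a).sub (bm_of hT hv)) fun T hT => ?_).congr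
    fun T x _ _ => by ring
  simpa only [neg_sub] using ((F.bm_Hs P (1 / 100) hT).pow a).sub ((F.bm_E hT).pow a)

theorem fn_sq (h : F.deg = 2) (hP : F.Vor P) (ha : a ≤ 5) {M N : ℂ} {δ : ℝ} (d0 : 0 ≤ δ)
    (hδ : δ ≤ 1 / 6000)
    (hM : ∀ ε : ℝ, 0 < ε → ∃ C : ℝ, ∀ T : ℝ, 1 ≤ T → ‖(∫ x in (1 : ℝ)..T, F.E x ^ a) -
      M * (T ^ (1 + (a : ℝ) / 4) : ℝ)‖ ≤ C * T ^ (1 + (a : ℝ) / 4 - δ + ε))
    (hN : ∀ ε : ℝ, 0 < ε → ∃ C : ℝ, ∀ T : ℝ, 1 ≤ T → ‖(∫ x in (1 : ℝ)..T, (zs 3).E x ^ 2) -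
      N * (T ^ (1 + 2 / 3 : ℝ) : ℝ)‖ ≤ C * T ^ (1 + 2 / 3 - δ + ε)) :
    Pb (fun T x => F.Hs P (1 / 100) T x ^ a * (zs 3).Hs P3 (1 / 1000) T x ^ 2 -
      N * (1 + 2 / 3 : ℝ) * (M * (1 + (a : ℝ) / 4 : ℝ)) * px (2 / 3 + (a : ℝ) / 4 : ℝ) x)
      (1 + 2 / 3 + a / 4 - δ) := by
  obtain ⟨K, k1, k⟩ := (zs 3).H_sq3 zs_deg3 vor3.1
  choose D O d1 o1 e1 using k
  have ex : 2 * P3.ex 3 = ((2 / 3 : ℝ) : ℂ) := by
    simp [Vo.ex, P3, al_three]
    norm_num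
  rw [ex] at o1 e1
  obtain ⟨K₁, m1, m2⟩ := Sel.trig1 h hP.1 (1 / 100)
  have a0 : (0 : ℝ) ≤ a := Nat.cast_nonneg a
  have a2 : (a : ℝ) ≤ 5 := by exact_mod_cast ha
  have n2 := ((bd_floor (1 / 1000)).pow (fun _ _ => Nat.cast_nonneg _) 2).const_mul (K := K)
    (by linarith)
  have s2 : Pb (fun T => O ⌊T ^ (1 / 1000 : ℝ)⌋₊) _ := trig_bd vor3.1 (by rw [ofReal_re]; norm_num)
    n2 (bd_floor _) (fun T hT => Sel.q2_floor (by norm_num) hT)
    fun T _ => Or.inl ((o1 _).mono le_rfl fun _ _ h => h.2)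
  rw [ofReal_re] at s2
  obtain ⟨B, u1, u2⟩ := pb_diag (c := 1 + 2 / 3 - δ) (γ := 1 / 6000) (σ := 2 / 3) (by norm_num)
    (by norm_num) (by linarith) (fun T : ℝ => (zs 3).H_cont P3 0 ⌊T ^ (1 / 1000 : ℝ)⌋₊)
    (fun T => (o1 _).cont) (fun T => e1 _) ((Sel.p3_E0 zs_deg3 vor3).mono (by norm_num))
    ((Sel.p3_l2 zs_deg3 vor3 (Sel.ms43 zs_split) (by norm_num)).mono (by norm_num))
    (s2.mono (by push_cast; linarith)) hN (by linarith) le_rfl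
  have d2 : Bd (fun T => ‖D ⌊T ^ (1 / 1000 : ℝ)⌋₊ - N * (1 + 2 / 3 : ℝ)‖) (-δ) :=
    (((u1.const_mul (K := 1 + 2 / 3) (by norm_num)).div_rpow (1 + 2 / 3)).mono
      (by linarith)).of_le fun T hT => by
      have T0 : 0 < T := by linarith
      have b1 := u2 T hT (2 * T) ⟨by linarith, le_rfl⟩
      have b2 := px_int (σ := 2 / 3) (by norm_num) T0 (by linarith : 0 < 2 * T)
      simp only [← mul_assoc, ← sub_mul] at b1
      rw [intervalIntegral.integral_const_mul] at b1 b2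
      have b3 := congrArg norm b2
      rw [norm_mul, ← ofReal_sub, norm_real, norm_real, Real.norm_of_nonneg (by norm_num),
        Real.mul_rpow zero_le_two T0.le] at b3
      have b4 : (2 : ℝ) ≤ 2 ^ (1 + 2 / 3 : ℝ) := by
        simpa using Real.rpow_le_rpow_of_exponent_le one_le_two (show (1 : ℝ) ≤ 1 + 2 / 3 by norm_num)
      have b5 := Real.rpow_pos_of_pos T0 (1 + 2 / 3)
      have b6 : T ^ (1 + 2 / 3 : ℝ) ≤ (1 + 2 / 3) * ‖∫ x in T..2 * T, px (2 / 3 : ℝ) x‖ := by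
        rw [b3]
        exact le_trans (by nlinarith) (Real.le_norm_self _)
      rw [norm_mul] at b1
      rw [le_div_iff₀ b5]
      nlinarith [mul_le_mul_of_nonneg_left b6
        (norm_nonneg (D ⌊T ^ (1 / 1000 : ℝ)⌋₊ - N * (1 + 2 / 3 : ℝ)))]
  have d0 : Bd (fun T => ‖D ⌊T ^ (1 / 1000 : ℝ)⌋₊‖) 0 :=
    ((d2.mono (by linarith)).add (bd_const ‖N * (1 + 2 / 3 : ℝ)‖)).of_le fun T _ =>
      norm_le_norm_sub_add _ _
  have c1 := fun T : ℝ => (F.H_cont P 0 ⌊T ^ (1 / 100 : ℝ)⌋₊).pow a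
  have cp := fun (D β : ℂ) => (continuousOn_const (c := D)).mul (px_cont β)
  have w1 := fun T : ℝ => (c1 T).sub ((continuousOn_const (c := M)).mul
    (cp (1 + (a : ℝ) / 4 : ℝ) ((a : ℝ) / 4 : ℝ)))
  have sub := fun (T : ℝ) (hT : 1 ≤ T) x (hx : x ∈ Icc T (2 * T)) => p1_pos hT hx
  have v1 := (fn_pb5 h hP ha (hδ.trans (by norm_num)) hM).px (fun T hT => (w1 T).mono (sub T hT)) d0
    (β := (2 / 3 : ℝ)) (by rw [ofReal_re]; norm_num)
  have u3 : Pb (fun _ _ => M * (1 + (a : ℝ) / 4 : ℝ)) 1 :=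
    ⟨_, bd_id.const_mul (norm_nonneg (M * (1 + (a : ℝ) / 4 : ℝ))), fun T _ y hy => by
      rw [intervalIntegral.integral_const, norm_smul, mul_comm,
        Real.norm_of_nonneg (sub_nonneg.2 hy.1)]
      exact mul_le_mul_of_nonneg_left (by linarith [hy.2]) (norm_nonneg _)⟩
  have v2 := u3.px (fun _ _ => continuousOn_const) d2 (β := (2 / 3 + (a : ℝ) / 4 : ℝ))
    (by rw [ofReal_re]; positivity)
  have t1 := fun T => ((m2 T).mono (ok₂ := fun _ B => B = 0) le_rfl fun _ _ h => h.1).pow rfl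
    (fun _ _ _ _ h h' => by rw [h, h', add_zero]) a
  have r3 : ((a : ℂ) * P.ex 2 + (2 / 3 : ℝ)).re = a / 4 + 2 / 3 := by
    rw [add_re, ofReal_re]
    simp [Vo.ex_re, al_two]
    ring
  have v3 : Pb (fun T x => F.Hs P (1 / 100) T x ^ a * O ⌊T ^ (1 / 1000 : ℝ)⌋₊ x) _ :=
    trig_bd vor3.1 (by rw [r3]; positivity)
      ((m1.pow (fun T _ => (m2 T).nonneg) a).mul n2 fun T hT => (o1 _).nonneg) (bd_floor (1 / 1000))
      (fun T hT => Sel.q2_floor (by norm_num) hT)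
      fun T hT => Or.inl ((t1 T).mul (o1 _) fun _ _ _ _ h h' => by rw [h, zero_add]; exact h'.2)
  rw [r3] at v3
  rw [ofReal_re] at v1 v2
  have b1 := fun (T : ℝ) (hT : 1 ≤ T) =>
    bm_of hT ((cp (D ⌊T ^ (1 / 1000 : ℝ)⌋₊) (2 / 3 : ℝ)).mul (w1 T))
  have b2 := fun (T : ℝ) (hT : 1 ≤ T) => bm_of hT ((cp (D ⌊T ^ (1 / 1000 : ℝ)⌋₊ -
    N * (1 + 2 / 3 : ℝ)) (2 / 3 + (a : ℝ) / 4 : ℝ)).mul
    (continuousOn_const (c := M * (1 + (a : ℝ) / 4 : ℝ))))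
  have b3 := fun (T : ℝ) (hT : 1 ≤ T) => bm_of hT ((c1 T).mul (o1 ⌊T ^ (1 / 1000 : ℝ)⌋₊).cont)
  refine (((v1.mono (by linarith)).add (v2.mono (by linarith)) b1 b2).add
    (v3.mono (by push_cast; linarith)) (fun T hT => (b1 T hT).add (b2 T hT)) b3).congr
    fun T x hT hx => ?_
  have e3 : px (2 / 3 + (a : ℝ) / 4 : ℝ) x = px (2 / 3 : ℝ) x * px ((a : ℝ) / 4 : ℝ) x := by
    rw [← px_add, ofReal_add]
  have e4 : (zs 3).Hs P3 (1 / 1000) T x ^ 2 =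
      D ⌊T ^ (1 / 1000 : ℝ)⌋₊ * px (2 / 3 : ℝ) x + O ⌊T ^ (1 / 1000 : ℝ)⌋₊ x := e1 _ x hx
  rw [e3, e4]
  ring

theorem fin_sm (h : F.deg = 2) (hL : L.deg ≤ 1) (h3 : b ≤ 3) (ha : a ≤ 5) {c : ℂ} {δ : ℝ}
    (hδ : δ ≤ 1 / 10)
    (p : Pb (fun T x => F.Hs P (1 / 100) T x ^ a * (zs 3).Hs P3 (1 / 1000) T x ^ b -
      c * px ((a : ℝ) / 4 + b / 3 : ℝ) x) (1 + a / 4 + b / 3 - δ)) :
    Bd (fun T => ‖∫ x in T..2 * T, (F.Hs P (1 / 100) T x ^ a *
      (zs 3).Hs P3 (1 / 1000) T x ^ b - c * px ((a : ℝ) / 4 + b / 3 : ℝ) x) * L.w x‖)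
      (1 + a / 4 + b / 3 - δ) := by
  obtain ⟨B, s1, s2⟩ := p
  have a5 : (a : ℝ) ≤ 5 := by exact_mod_cast ha
  have b3 : (b : ℝ) ≤ 3 := by exact_mod_cast h3
  obtain ⟨K₁, k1, k2⟩ := Sel.Hs_pow h.ge P (1 / 100) a
  obtain ⟨K₂, k3, k4⟩ := Sel.Hs_pow (F := zs 3) (by rw [zs_deg3]; norm_num) P3 (1 / 1000) b
  rw [h, al_two] at k1
  rw [zs_deg3, al_three] at k3
  have k5 := ((bd_two (((a : ℝ) / 4 + b / 3 : ℝ) : ℂ).re).const_mul
    (K := 1 + ‖(((a : ℝ) / 4 + b / 3 : ℝ) : ℂ)‖) (by positivity)).const_mul (norm_nonneg c)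
  exact L.smooth_bd (p := a / 4 + b / 3 + 1 / 10) hL (m := 1 / 2) (by norm_num)
    (by norm_num) (fun T hT => ((k2 T hT).mul (k4 T hT) (rpow_nn hT _)).sub
      ((sm_px (by linarith) c (β := ((a : ℝ) / 4 + b / 3 : ℝ))
        (by rw [ofReal_re]; positivity)).mono le_rfl (by positivity) (by
          rw [one_div, ← Real.rpow_neg_one]
          exact Real.rpow_le_rpow_of_exponent_le hT (by norm_num))))
    ((((k1.mul k3 fun T hT => (k4 T hT).nonneg hT).const_mul zero_le_two).mono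
      (by linarith)).add (k5.mono (by rw [ofReal_re]; linarith))) s1 s2 (by linarith)

theorem fin_tw (h : F.deg = 2) (hP : F.Vor P) (hL : L.deg ≤ 1) (hq : L.QP) (h1 : 1 ≤ b)
    (h3 : b ≤ 3) (hab : 3 * a + 5 * b ≤ 21) {R : Polynomial ℝ} {η δ : ℝ} {c : ℂ}
    (hR : L.Msq R η) (e0 : 0 < δ) (e1 : δ ≤ 1 / 900000) (e2 : δ ≤ η)
    (m : Bd (fun T => ‖∫ x in T..2 * T, (F.Hs P (1 / 100) T x ^ a *
      (zs 3).Hs P3 (1 / 1000) T x ^ b - c * px ((a : ℝ) / 4 + b / 3 : ℝ) x) * L.w x‖)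
      (1 + a / 4 + b / 3 - δ)) :
    Asy (fun x => F.E x ^ a * Del 3 x ^ b * L.sq x) (1 + a / 4 + b / 3) c R := by
  obtain ⟨K, a3⟩ := hR
  have σ0 : (0 : ℝ) ≤ a / 4 + b / 3 := by positivity
  obtain ⟨Q, hd, hQ⟩ := poly_Q (c := 1 + a / 4 + b / 3) (by linarith) R
  have eh : (fun x => F.E x ^ a * Del 3 x ^ b * L.sq x) = hy F (zs 3) L a b := by
    funext x
    rw [Del_eq]
    rfl
  rw [eh]
  refine ⟨fun T hT => (hy_int F (zs 3) L a b le_rfl hT).1, Q, hd, hQ, ?_⟩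
  have hg : ContinuousOn (fun x => c * px ((a : ℝ) / 4 + b / 3 : ℝ) x) (Ioi 0) :=
    continuousOn_const.mul (px_cont _)
  have s4 := red h hP hL hq h1 h3 hab hg (by linarith) m
  have cw : Continuous fun x => (L.w x : ℂ) := continuous_ofReal.comp L.continuous_w
  have cR := poly_cont (R + Polynomial.derivative R)
  have s5 := pb_of (c := 1 - δ) (u := fun x => (L.w x : ℂ))
    (U := fun x => ((x * R.eval (Real.log x) : ℝ) : ℂ)) (by linarith)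
    (fun a b _ _ => cw.intervalIntegrable a b) cR (fun a b ha hb => by
      have := poly_int (c := 1) ha hb R
      simp only [sub_self, Real.rpow_zero, one_mul, Real.rpow_one, map_one] at this
      rw [intervalIntegral.integral_ofReal, this, ofReal_sub]) (asy_mono (c := 1 - η)
      (by linarith) fun ε hε => ⟨|K|, fun T hT => by
        rw [intervalIntegral.integral_ofReal, ← ofReal_sub, norm_real]
        exact (a3 T hT).trans (mul_le_mul (le_abs_self K) (Real.rpow_le_rpow_of_exponent_le hT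
          (by linarith)) (rpow_nn hT _) (abs_nonneg K))⟩)
  obtain ⟨B', s6, s7⟩ := s5.px (fun T hT => (cw.continuousOn.sub cR).mono fun _ hx => p1_pos hT hx)
    (D := fun _ => c) (bd_const _) (β := ((a : ℝ) / 4 + b / 3 : ℝ)) (by rwa [ofReal_re])
  rw [ofReal_re] at s6
  have s8 := bd_split (k := fun _ x => hy F (zs 3) L a b x - c * px ((a : ℝ) / 4 + b / 3 : ℝ) x *
    ((R + Polynomial.derivative R).eval (Real.log x) : ℝ)) (fun T hT =>
      ((((F.bm_E hT).pow a).mul (((zs 3).bm_E hT).pow b)).sub (bm_of hT hg)).mul (L.bm_w T))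
    (fun T hT => bm_of hT (hg.mul (cw.continuousOn.sub cR))) s4
    ((s6.mono (by linarith)).of_le fun T hT => s7 T hT _ ⟨by linarith, le_rfl⟩) fun T x => by
      rw [hy, ← Sel.w]
      simp only [Pi.mul_apply, Pi.sub_apply]
      ring
  have hi : ∀ x y : ℝ, 1 ≤ x → 1 ≤ y → IntervalIntegrable (fun x => c *
      px ((a : ℝ) / 4 + b / 3 : ℝ) x * ((R + Polynomial.derivative R).eval (Real.log x) : ℝ))
      volume x y := fun x y hx hy => ((hg.mul cR).mono fun t ht =>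
      lt_of_lt_of_le one_pos ((le_min hx hy).trans ht.1)).intervalIntegrable
  obtain ⟨C, hC⟩ := bd_dsum (d := 1 + a / 4 + b / 3 - δ / 2) (fun x y hx hy =>
    (hy_int F (zs 3) L a b hx hy).1.sub (hi x y hx hy)) (by linarith) (by linarith) s8
  refine ⟨δ / 2, half_pos e0, C + ‖c * (Q.eval 0 : ℝ)‖, fun T hT => ?_⟩
  have t1 := hC T hT
  have t2 : ∫ x in (1 : ℝ)..T, c * px ((a : ℝ) / 4 + b / 3 : ℝ) x *
      ((R + Polynomial.derivative R).eval (Real.log x) : ℝ) =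
      c * (T ^ (1 + (a : ℝ) / 4 + b / 3) * Q.eval (Real.log T) : ℝ) - c * (Q.eval 0 : ℝ) := by
    have := poly_int (c := 1 + (a : ℝ) / 4 + b / 3) one_pos (lt_of_lt_of_le one_pos hT) Q
    rw [hQ, Real.one_rpow, one_mul, Real.log_one,
      show 1 + (a : ℝ) / 4 + b / 3 - 1 = a / 4 + b / 3 by ring] at this
    rw [← mul_sub, ← ofReal_sub, ← this, ← intervalIntegral.integral_ofReal,
      ← intervalIntegral.integral_const_mul]
    refine intervalIntegral.integral_congr fun x hx => ?_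
    have h0 : 0 < x := lt_of_lt_of_le one_pos ((le_min le_rfl hT).trans hx.1)
    simp only [px_real _ h0, ofReal_mul, mul_assoc]
  rw [intervalIntegral.integral_sub (hy_int F (zs 3) L a b le_rfl hT).1 (hi 1 T le_rfl hT), t2,
    ← sub_add] at t1
  have t3 := norm_sub_le ((∫ x in (1 : ℝ)..T, hy F (zs 3) L a b x) - c *
    (T ^ (1 + (a : ℝ) / 4 + b / 3) * Q.eval (Real.log T) : ℝ) + c * (Q.eval 0 : ℝ))
    (c * (Q.eval 0 : ℝ))
  rw [add_sub_cancel_right] at t3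
  have t4 := le_mul_of_one_le_right (norm_nonneg (c * (Q.eval 0 : ℝ)))
    (Real.one_le_rpow hT (show 0 ≤ 1 + (a : ℝ) / 4 + b / 3 - δ / 2 by linarith))
  rw [add_mul]
  linarith

theorem main_tw (h : F.deg = 2) (hL : L.deg ≤ 1) (hq : L.QP) {R : Polynomial ℝ} {η : ℝ} {c : ℂ}
    (hη : 0 < η) (hR : L.Msq R η) (h1 : 1 ≤ b) (h3 : b ≤ 3) (hab : 3 * a + 5 * b ≤ 21)
    (hc : ((a = 1 ∨ b = 1) ∧ c = 0) ∨ ∃ M N : ℂ, Mo F.E a (a / 4) M ∧
      ((b = 2 ∧ Mo (Del 3) 2 (2 / 3) N) ∨ (b = 3 ∧ N = c3)) ∧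
        c = (1 + a / 4) * (1 + b / 3) * M * N) :
    Asy (fun x => F.E x ^ a * Del 3 x ^ b * L.sq x) (1 + a / 4 + b / 3) c R := by
  obtain ⟨P, hP⟩ := F.vor h.ge
  have ha : a ≤ 5 := by omega
  have a5 : (a : ℝ) ≤ 5 := by exact_mod_cast ha
  have b3 : (b : ℝ) ≤ 3 := by exact_mod_cast h3
  have sm : ∀ x y : ℝ, 0 < x → 0 < y → ∃ δ : ℝ, 0 < δ ∧ δ ≤ 1 / 900000 ∧ δ ≤ η ∧ δ ≤ x ∧ δ ≤ y :=
    fun x y hx hy => ⟨min (min (1 / 900000) η) (min x y), by positivity,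
      (min_le_left _ _).trans (min_le_left _ _), (min_le_left _ _).trans (min_le_right _ _),
      (min_le_right _ _).trans (min_le_left _ _), (min_le_right _ _).trans (min_le_right _ _)⟩
  rcases hc with ⟨hc, rfl⟩ | ⟨M, N, ⟨δ₁, d1, hM⟩, ⟨rfl, δ₂, d2, hN⟩ | ⟨rfl, rfl⟩, rfl⟩
  · obtain ⟨δ, e0, e1, e2, -⟩ := sm 1 1 one_pos one_pos
    refine fin_tw h hP hL hq h1 h3 hab hR e0 e1 e2 ?_
    simp only [zero_mul, sub_zero]
    exact (Sel.q_osc hL h zs_deg3 hP.1 vor3.1 hc).mono (by linarith)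
  · obtain ⟨δ, e0, e1, e2, e3, e4⟩ := sm δ₁ δ₂ d1 d2
    simp only [Del_eq] at hN
    refine fin_tw h hP hL hq h1 h3 hab hR e0 e1 e2 (fin_sm h hL h3 ha (by linarith) ?_)
    refine ((fn_sq h hP ha e0.le (by linarith) (asy_mono (by linarith) hM)
      (asy_mono (by linarith) hN)).mono (by push_cast; linarith)).congr fun T x _ _ => ?_
    rw [add_comm (2 / 3 : ℝ)]
    push_cast
    ring
  · obtain ⟨δ, e0, e1, e2, e3, -⟩ := sm δ₁ 1 d1 one_pos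
    refine fin_tw h hP hL hq h1 h3 hab hR e0 e1 e2 (fin_sm h hL h3 ha (by linarith) ?_)
    refine ((fn_two (δ := δ) h hP (by omega) (by linarith) (asy_mono (by linarith) hM)).mono
      (by push_cast; linarith)).congr fun T x _ _ => ?_
    rw [show ((a : ℝ) / 4 + (3 : ℕ) / 3 : ℝ) = 1 + a / 4 by push_cast; ring]
    push_cast
    ring

end Pool.Agent.Lib.MP_2a1a00_nt
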