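import Pool.Agent.Lib.MP_2a1a00_nt.S.Pl
import Pool.Agent.Lib.MP_2a1a00_nt.V.Defs

/-! The mean square of a trigonometric polynomial on an interval through short sums. -/

namespace Pool.Agent.Lib.MP_2a1a00_nt

open Complex MeasureTheory Set

theorem gal_ft (c : ℂ) (θ t : ℝ) {δ : ℝ} (hδ : 0 ≤ δ) :
    ∫ y : ℝ, (Ioc (θ - δ) θ).indicator (fun _ => c) y * exp (-(t * y : ℝ) * I) =
      c * exp (-(t * θ : ℝ) * I) * ∫ u in -δ..0, exp (-(t * u : ℝ) * I) := by
  have e : ∀ y : ℝ, (Ioc (θ - δ) θ).indicator (fun _ => c) y * exp (-(t * y : ℝ) * I) =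
      (Ioc (θ - δ) θ).indicator (fun y : ℝ => c * exp (-(t * y : ℝ) * I)) y := fun y => by
    by_cases h : y ∈ Ioc (θ - δ) θ <;> simp [h]
  simp only [e]
  rw [integral_indicator measurableSet_Ioc, ← intervalIntegral.integral_of_le (by linarith),
    ← intervalIntegral.integral_const_mul]
  have e2 := intervalIntegral.integral_comp_add_left (a := -δ) (b := 0)
    (fun y : ℝ => c * exp (-(t * y : ℝ) * I)) θ
  rw [add_zero, ← sub_eq_add_neg] at e2
  rw [← e2]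
  refine intervalIntegral.integral_congr fun u _ => ?_
  simp only [mul_assoc, ← exp_add]
  congr 2
  push_cast
  ring

theorem gal_low {δ t : ℝ} (hδ : 0 < δ) (h : |t| * δ ≤ 1 / 2) :
    δ / 2 ≤ ‖∫ u in -δ..0, exp (-(t * u : ℝ) * I)‖ := by
  have h1 : ‖∫ u in -δ..0, (exp (-(t * u : ℝ) * I) - 1)‖ ≤ 1 / 2 * |0 - -δ| := by
    refine intervalIntegral.norm_integral_le_of_norm_le_const fun u hu => ?_
    rw [uIoc_of_le (by linarith)] at hu
    rw [← ofReal_neg, mul_comm]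
    refine Real.norm_exp_I_mul_ofReal_sub_one_le.trans ?_
    rw [norm_neg, Real.norm_eq_abs, abs_mul]
    exact (mul_le_mul_of_nonneg_left (abs_le.2 ⟨hu.1.le, by linarith [hu.2]⟩) (abs_nonneg t)).trans h
  rw [intervalIntegral.integral_sub (Continuous.intervalIntegrable (by fun_prop) _ _)
    (by simp), intervalIntegral.integral_const, sub_neg_eq_add, zero_add, abs_of_pos hδ] at h1
  have h2 := norm_sub_norm_le (δ • (1 : ℂ)) (∫ u in -δ..0, exp (-(t * u : ℝ) * I))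
  rw [norm_sub_rev, norm_smul, norm_one, Real.norm_of_nonneg hδ.le] at h2
  linarith

theorem gal {ι : Type} (S : Finset ι) (γ : ι → ℂ) (θ : ι → ℝ) {U α β Z : ℝ} (y : ℝ) (hU : 0 < U)
    (hαβ : α ≤ β) (hθ : ∀ k ∈ S, α ≤ θ k ∧ θ k ≤ β)
    (hZ : ∀ x : ℝ, ‖∑ k ∈ S, if θ k - 1 / (2 * U) < x ∧ x ≤ θ k then
      γ k * exp (I * (θ k * y : ℝ)) else 0‖ ≤ Z) :
    ∫ t in y - U..y + U, ‖∑ k ∈ S, γ k * exp (I * (θ k * t : ℝ))‖ ^ 2 ≤
      128 * U ^ 2 * (Z ^ 2 * (β - α + 1 / (2 * U))) := by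
  obtain ⟨δ, hδ⟩ : ∃ δ, δ = 1 / (2 * U) := ⟨_, rfl⟩
  rw [← hδ] at hZ ⊢
  have d0 : 0 < δ := by rw [hδ]; positivity
  have d1 : U * δ = 1 / 2 := by rw [hδ]; field_simp
  obtain ⟨Q, hQ⟩ : ∃ Q : ℝ → ℂ, Q = fun x => ∑ k ∈ S,
    (Ioc (θ k - δ) (θ k)).indicator (fun _ => γ k * exp (I * (θ k * y : ℝ))) x := ⟨_, rfl⟩
  have m2 : ∀ (p : ENNReal) (a b : ℝ) (c : ℂ), MemLp ((Ioc a b).indicator fun _ => c) p :=
    fun p a b c => memLp_indicator_const p measurableSet_Ioc c (Or.inr measure_Ioc_lt_top.ne)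
  have q1 : Integrable Q := hQ ▸ integrable_finsetSum _ fun k _ =>
    memLp_one_iff_integrable.1 (m2 1 _ _ _)
  have q2 : MemLp Q 2 := hQ ▸ memLp_finsetSum _ fun k _ => m2 2 _ _ _
  obtain ⟨p1, p2⟩ := planch q1 q2
  have e1 : ∀ t : ℝ, ft Q t = (∑ k ∈ S, γ k * exp (I * (θ k * (y - t) : ℝ))) *
      ∫ u in -δ..0, exp (-(t * u : ℝ) * I) := fun t => by
    simp only [ft, hQ, Finset.sum_mul]
    rw [integral_finsetSum _ fun k _ => ft_int (memLp_one_iff_integrable.1 (m2 1 _ _ _)) t]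
    refine Finset.sum_congr rfl fun k _ => ?_
    rw [gal_ft _ _ _ d0.le, mul_assoc (γ k), ← exp_add]
    congr 3
    push_cast
    ring
  have e2 : ∫ x, ‖Q x‖ ^ 2 ≤ Z ^ 2 * (β - α + δ) := by
    have i : Integrable ((Ioc (α - δ) β).indicator fun _ => Z ^ 2) :=
      (integrable_indicator_iff measurableSet_Ioc).2 (integrableOn_const measure_Ioc_lt_top.ne)
    refine (integral_mono (q2.integrable_norm_pow two_ne_zero) i fun x => ?_).trans (le_of_eq ?_)
    · by_cases h : x ∈ Ioc (α - δ) β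
      · rw [indicator_of_mem h]
        refine pow_le_pow_left₀ (norm_nonneg _) (le_trans (le_of_eq ?_) (hZ x)) 2
        simp only [hQ, indicator, mem_Ioc]
      · rw [indicator_of_notMem h]
        have : Q x = 0 := by
          rw [hQ]
          refine Finset.sum_eq_zero fun k hk => indicator_of_notMem (fun h' => h ?_) _
          exact ⟨by linarith [h'.1, (hθ k hk).1], h'.2.trans (hθ k hk).2⟩
        simp [this]
    · rw [integral_indicator measurableSet_Ioc, setIntegral_const, Real.volume_real_Ioc_of_le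
        (by linarith), smul_eq_mul]
      ring
  have cP : Continuous fun t : ℝ => ‖∑ k ∈ S, γ k * exp (I * (θ k * (y - t) : ℝ))‖ ^ 2 := by
    fun_prop
  have e3 := intervalIntegral.integral_comp_sub_left (a := -U) (b := U)
    (fun t : ℝ => ‖∑ k ∈ S, γ k * exp (I * (θ k * t : ℝ))‖ ^ 2) y
  rw [sub_neg_eq_add] at e3
  rw [← e3]
  have e4 : ∫ t in -U..U, ‖∑ k ∈ S, γ k * exp (I * (θ k * (y - t) : ℝ))‖ ^ 2 ≤
      ∫ t in -U..U, 16 * U ^ 2 * ‖ft Q t‖ ^ 2 := by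
    refine intervalIntegral.integral_mono_on (by linarith) (cP.intervalIntegrable _ _)
      (p1.intervalIntegrable.const_mul _) fun t ht => ?_
    have h1 := gal_low (t := t) d0 ((mul_le_mul_of_nonneg_right (abs_le.2 ht) d0.le).trans d1.le)
    have h2 : 1 ≤ 16 * U ^ 2 * ‖∫ u in -δ..0, exp (-(t * u : ℝ) * I)‖ ^ 2 :=
      calc (1 : ℝ) = 16 * (U * δ / 2) ^ 2 := by rw [d1]; norm_num
        _ = 16 * U ^ 2 * (δ / 2) ^ 2 := by ring
        _ ≤ _ := by gcongr
    rw [e1, norm_mul, mul_pow, mul_left_comm]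
    exact le_mul_of_one_le_right (sq_nonneg _) h2
  have e5 : ∫ t in -U..U, ‖ft Q t‖ ^ 2 ≤ ∫ t, ‖ft Q t‖ ^ 2 := by
    rw [intervalIntegral.integral_of_le (by linarith)]
    exact setIntegral_le_integral p1 (Filter.Eventually.of_forall fun _ => sq_nonneg _)
  rw [intervalIntegral.integral_const_mul] at e4
  have e6 : 0 ≤ ∫ x, ‖Q x‖ ^ 2 := integral_nonneg fun _ => sq_nonneg _
  have e7 : 2 * Real.pi * ∫ x, ‖Q x‖ ^ 2 ≤ 8 * (Z ^ 2 * (β - α + δ)) :=
    mul_le_mul (by linarith [Real.pi_lt_four]) e2 e6 (by norm_num)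
  have e8 := mul_le_mul_of_nonneg_left (e5.trans (p2.le.trans e7)) (by positivity : 0 ≤ 16 * U ^ 2)
  linarith

theorem loc_sum {ι : Type} (S : Finset ι) {f : ι → ℝ → ℂ} {w : ι → ℝ} {a b Z : ℝ} (hab : a ≤ b)
    (hf : ∀ k ∈ S, Continuous (f k)) (hw : ∀ k ∈ S, 0 < w k)
    (h : ∀ k ∈ S, ∫ t in a..b, ‖f k t‖ ^ 2 ≤ w k ^ 2 * Z) :
    ∫ t in a..b, ‖∑ k ∈ S, f k t‖ ^ 2 ≤ (∑ k ∈ S, w k) ^ 2 * Z := by
  have i : ∀ k ∈ S, IntervalIntegrable (fun t => ‖f k t‖ ^ 2 / w k) volume a b := fun k hk =>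
    (((hf k hk).norm.pow 2).intervalIntegrable _ _).div_const _
  have w0 : 0 ≤ ∑ k ∈ S, w k := Finset.sum_nonneg fun k hk => (hw k hk).le
  calc _ ≤ ∫ t in a..b, (∑ k ∈ S, w k) * ∑ k ∈ S, ‖f k t‖ ^ 2 / w k := by
        refine intervalIntegral.integral_mono_on hab
          (((continuous_finsetSum _ hf).norm.pow 2).intervalIntegrable _ _)
          (IntervalIntegrable.const_mul ?_ _) fun t _ => ?_
        · simpa only [Finset.sum_fn] using IntervalIntegrable.sum S i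
        · refine (pow_le_pow_left₀ (norm_nonneg _) (norm_sum_le _ _) 2).trans
            (Finset.sum_sq_le_sum_mul_sum_of_sq_le_mul S (fun k hk => (hw k hk).le)
              (fun k hk => div_nonneg (sq_nonneg _) (hw k hk).le) fun k hk => le_of_eq ?_)
          rw [mul_div_cancel₀ _ (hw k hk).ne']
    _ = (∑ k ∈ S, w k) * ∑ k ∈ S, (∫ t in a..b, ‖f k t‖ ^ 2) / w k := by
        rw [intervalIntegral.integral_const_mul, intervalIntegral.integral_finsetSum i]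
        simp only [intervalIntegral.integral_div]
    _ ≤ (∑ k ∈ S, w k) * ∑ k ∈ S, w k * Z := by
        refine mul_le_mul_of_nonneg_left (Finset.sum_le_sum fun k hk => ?_) w0
        rw [div_le_iff₀ (hw k hk)]
        exact (h k hk).trans (le_of_eq (by ring))
    _ = _ := by rw [← Finset.sum_mul]; ring

end Pool.Agent.Lib.MP_2a1a00_nt
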