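import Pool.Agent.Lib.MP_2a1a00_nt.D.Nr3
import Pool.Agent.Lib.MP_2a1a00_nt.V.Wd
import Pool.Agent.Lib.MP_2a1a00_nt.C.Lm

/-! The local twisted mean square. -/

namespace Pool.Agent.Lib.MP_2a1a00_nt

open Complex MeasureTheory Set

theorem tl_cut {T a b : ℝ} (h1 : T ≤ a) (hab : a ≤ b) (h2 : b ≤ 2 * T) {g : ℝ → ℂ} (ga : g a = 0)
    (gb : g b = 0) (D : ℝ → ℂ) :
    ∫ x in T..2 * T, g (max a (min x b)) * D x = ∫ x in a..b, g x * D x := by
  have e1 : ∫ x in T..2 * T, g (max a (min x b)) * D x =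
      ∫ x in a..b, g (max a (min x b)) * D x := by
    rw [intervalIntegral.integral_of_le (by linarith), intervalIntegral.integral_of_le hab]
    refine setIntegral_eq_of_subset_of_forall_sdiff_eq_zero measurableSet_Ioc
      (Ioc_subset_Ioc h1 h2) fun x hx => ?_
    rcases le_or_gt x a with h | h
    · rw [max_eq_left ((min_le_left _ _).trans h), ga, zero_mul]
    · have h3 : b < x := not_le.1 fun h4 => hx.2 ⟨h, h4⟩
      rw [min_eq_right h3.le, max_eq_right hab, gb, zero_mul]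
  rw [e1]
  refine intervalIntegral.integral_congr fun x hx => ?_
  rw [uIcc_of_le hab] at hx
  simp only [min_eq_left hx.2, max_eq_right hx.1]

theorem tl_sup {a b Z K : ℝ} (hab : a ≤ b) {g D : ℝ → ℂ} (hg : ContinuousOn g (Icc a b))
    (hZ : ∫ x in a..b, ‖g x‖ ≤ Z) (hK : ∀ x ∈ Icc a b, ‖D x‖ ≤ K) :
    ‖∫ x in a..b, g x * D x‖ ≤ K * Z := by
  have K0 : 0 ≤ K := (norm_nonneg _).trans (hK a ⟨le_rfl, hab⟩)
  refine (intervalIntegral.norm_integral_le_of_norm_le (g := fun x => K * ‖g x‖) hab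
    (ae_of_all _ fun x hx => ?_)
    ((hg.norm.intervalIntegrable_of_Icc hab).const_mul K)).trans ?_
  · rw [norm_mul, mul_comm]
    exact mul_le_mul_of_nonneg_right (hK x ⟨hx.1.le, hx.2⟩) (norm_nonneg _)
  · rw [intervalIntegral.integral_const_mul]
    exact mul_le_mul_of_nonneg_left hZ K0

theorem tl_parts {a b Z K t M : ℝ} (hab : a ≤ b) (ht : 0 < t) {g g' p Φ : ℝ → ℂ} {D : ℂ}
    (hg : ∀ x ∈ Icc a b, HasDerivAt g (g' x) x) (hg' : ContinuousOn g' (Icc a b)) (ga : g a = 0)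
    (gb : g b = 0) (hp : Continuous p) (hΦ : ∀ x, HasDerivAt Φ (p x - D) x) (hD : ‖D‖ ≤ K)
    (h1 : ∫ x in a..b, ‖g x‖ ≤ Z) (h2 : ∫ x in a..b, ‖g' x‖ ^ 2 ≤ Z)
    (h3 : ∫ x in a..b, ‖Φ x‖ ^ 2 ≤ M) : ‖∫ x in a..b, g x * p x‖ ≤ K * Z + (t * Z + M / t) := by
  have cg : ContinuousOn g (Icc a b) := fun x hx => (hg x hx).continuousAt.continuousWithinAt
  have cΦ : Continuous Φ := continuous_iff_continuousAt.2 fun x => (hΦ x).continuousAt
  have cp : Continuous fun x => p x - D := hp.sub continuous_const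
  have e1 := intervalIntegral.integral_mul_deriv_eq_deriv_mul (a := a) (b := b) (u := g) (v := Φ)
    (fun x hx => hg x (by rwa [uIcc_of_le hab] at hx)) (fun x _ => hΦ x)
    (hg'.intervalIntegrable_of_Icc hab) (cp.intervalIntegrable _ _)
  rw [ga, gb, zero_mul, zero_mul, sub_self, zero_sub] at e1
  have e2 : ∫ x in a..b, g x * p x = (∫ x in a..b, g x * D) + ∫ x in a..b, g x * (p x - D) := by
    rw [← intervalIntegral.integral_add ((cg.fun_mul continuousOn_const).intervalIntegrable_of_Icc hab)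
      ((cg.fun_mul cp.continuousOn).intervalIntegrable_of_Icc hab)]
    exact intervalIntegral.integral_congr fun x _ => by ring
  rw [e2, e1]
  refine (norm_add_le _ _).trans (add_le_add (tl_sup hab cg h1 fun _ _ => hD) ?_)
  have i1 : IntervalIntegrable (fun x => ‖g' x‖ ^ 2) volume a b :=
    (hg'.norm.pow 2).intervalIntegrable_of_Icc hab
  have i2 : IntervalIntegrable (fun x => ‖Φ x‖ ^ 2) volume a b :=
    (cΦ.norm.pow 2).intervalIntegrable a b
  rw [norm_neg]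
  refine (intervalIntegral.norm_integral_le_of_norm_le
    (g := fun x => t * ‖g' x‖ ^ 2 + ‖Φ x‖ ^ 2 / t) hab (ae_of_all _ fun x _ => ?_)
    ((i1.const_mul t).add (i2.div_const t))).trans ?_
  · rw [norm_mul, ← sub_le_iff_le_add', le_div_iff₀ ht]
    nlinarith [sq_nonneg (t * ‖g' x‖ - ‖Φ x‖), mul_nonneg ht.le
      (mul_nonneg (norm_nonneg (g' x)) (norm_nonneg (Φ x)))]
  · rw [intervalIntegral.integral_add (i1.const_mul t) (i2.div_const t),
      intervalIntegral.integral_const_mul, intervalIntegral.integral_div]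
    gcongr

namespace Sel

variable (L : Sel)

theorem tl_gen (hL : L.deg ≤ 1) (hq : L.QP) {ε : ℝ} (hε : 0 < ε) : ∃ C T₀ : ℝ, 0 < C ∧
    ∀ (T x₀ s Z : ℝ) (g g' : ℝ → ℂ), T₀ ≤ T → 0 < s → s ≤ √T → T ≤ x₀ - s → x₀ + s ≤ 2 * T →
    (∀ x ∈ Icc (x₀ - s) (x₀ + s), HasDerivAt g (g' x) x) →
    ContinuousOn g' (Icc (x₀ - s) (x₀ + s)) → g (x₀ - s) = 0 → g (x₀ + s) = 0 → T ≤ Z →
    ∫ x in x₀ - s..x₀ + s, ‖g x‖ ≤ Z → ∫ x in x₀ - s..x₀ + s, ‖g' x‖ ^ 2 ≤ Z →
    ‖∫ x in x₀ - s..x₀ + s, g x * L.L2 x‖ ≤ C * T ^ ε * Z := by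
  have hd := L.deg_nonneg
  obtain ⟨η, h0, h1, h2⟩ : ∃ η : ℝ, 0 < η ∧ η ≤ 1 / 2 ∧ η * (2 * L.deg + 2) ≤ ε :=
    ⟨min (1 / 2) (ε / (2 * L.deg + 2)), by positivity, min_le_left _ _,
      (le_div_iff₀ (by positivity)).1 (min_le_right _ _)⟩
  obtain ⟨Cf, hCf, Hf⟩ := L.fub h0
  obtain ⟨K, hK, HK⟩ := L.co_le h0
  obtain ⟨Cw, hCw, Hw⟩ := sum_w0 h0
  obtain ⟨Ca, hCa, Ha⟩ := L.afe h0 h1
  obtain ⟨q, n₀, θ, Kp, g₀, hq0, hKp, g1, g2, g3⟩ := L.wd_per hq
  obtain ⟨Cc, hCc, Hc⟩ := nr_prim hq0 n₀ h0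
  refine ⟨Ca + 2 * Cf * ((K * Cw * (1 + L.deg) + Kp * (5 * Cc + 4)) * 2 ^ L.deg), max 1 (2 * |θ|),
    by positivity, fun T x₀ s Z g g' hT' hs hsT hx1 hx2 dg cg' ga gb hZ z1 z2 => ?_⟩
  have hT : 1 ≤ T := (le_max_left _ _).trans hT'
  have hθ := abs_le.1 (show |θ| ≤ T / 2 by linarith [(le_max_right _ _).trans hT'])
  have hT0 : 0 < T := one_pos.trans_le hT
  have Z0 : 0 < Z := hT0.trans_le hZ
  have hTT : T ≤ 2 * T := by linarith
  have ab : x₀ - s ≤ x₀ + s := by linarith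
  have hE : 1 ≤ T ^ η := Real.one_le_rpow hT h0.le
  have hEε : 1 ≤ T ^ ε := Real.one_le_rpow hT hε.le
  have r1 : 1 ≤ √T := Real.one_le_sqrt.2 hT
  have r2 : √T * √T = T := Real.mul_self_sqrt hT0.le
  obtain ⟨Y, hYe⟩ : ∃ Y : ℕ, Y = ⌊T ^ (L.deg + η)⌋₊ := ⟨_, rfl⟩
  have hY1 : 1 ≤ Y := hYe ▸ (Nat.one_le_floor_iff _).2 (Real.one_le_rpow hT (by positivity))
  have hY : (Y : ℝ) ≤ T ^ (L.deg + η) := hYe ▸ Nat.floor_le (by positivity)
  have hYη : 1 ≤ (Y : ℝ) ^ η := Real.one_le_rpow (by exact_mod_cast hY1) h0.le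
  have hpow := Tw_pow hd h0 h1 h2 hT (Nat.cast_nonneg Y) hY
  have n0 : (Y : ℝ) ≤ T * T ^ η := by
    refine hY.trans ?_
    rw [Real.rpow_add hT0]
    exact mul_le_mul_of_nonneg_right ((Real.rpow_le_rpow_of_exponent_le hT hL).trans
      (Real.rpow_one T).le) (by positivity)
  have n1 : √Y ≤ T ^ η * √T := by
    refine Real.sqrt_le_iff.2 ⟨by positivity, n0.trans ?_⟩
    rw [mul_pow, Real.sq_sqrt hT0.le, mul_comm T, pow_two]
    exact mul_le_mul_of_nonneg_right (le_mul_of_one_le_left (by positivity) hE) hT0.le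
  have hH : ∀ v x : ℝ, ‖PP (L.co (η + v * I)) (Pr Y) x‖ ≤ K * (Cw * √Y * (Y : ℝ) ^ η) := fun v x => by
    refine (norm_sum_le _ _).trans ((Finset.sum_le_sum fun p hp => ?_).trans
      ((Finset.mul_sum _ _ _).ge.trans (mul_le_mul_of_nonneg_left (Hw Y hY1) hK.le)))
    rw [norm_mul, norm_osc, mul_one]
    exact HK Y _ (by simp) p hp
  obtain ⟨c1, -, b1⟩ := Hf T _ (fun z x => PP (L.co z) (Pr Y) x) hT (L.Tw_PP Y η) hH
  have cg : ContinuousOn g (Icc (x₀ - s) (x₀ + s)) := fun x hx =>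
    (dg x hx).continuousAt.continuousWithinAt
  have hG : ContinuousOn (fun x => g (max (x₀ - s) (min x (x₀ + s)))) (Icc T (2 * T)) :=
    (cg.comp_continuous (by fun_prop) fun x =>
      ⟨le_max_left _ _, max_le ab (min_le_right _ _)⟩).continuousOn
  have sub : Icc (x₀ - s) (x₀ + s) ⊆ Icc T (2 * T) := Icc_subset_Icc hx1 hx2
  have hx0 : x₀ ∈ Icc T (2 * T) := ⟨by linarith, by linarith⟩
  have split : ∀ (D D₁ D₂ : ℝ → ℂ) (c : ℂ), ContinuousOn D₁ (Icc T (2 * T)) →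
      ContinuousOn D₂ (Icc T (2 * T)) → (∀ x, D x = D₁ x + c * D₂ x) →
      ‖∫ x in x₀ - s..x₀ + s, g x * D x‖ ≤ ‖∫ x in x₀ - s..x₀ + s, g x * D₁ x‖ +
        ‖c‖ * ‖∫ x in x₀ - s..x₀ + s, g x * D₂ x‖ := by
    intro D D₁ D₂ c k1 k2 k3
    rw [← norm_mul, ← intervalIntegral.integral_const_mul]
    refine le_trans (le_of_eq ?_) (norm_add_le _ _)
    rw [← intervalIntegral.integral_add ((cg.fun_mul (k1.mono sub)).intervalIntegrable_of_Icc ab)
      ((continuousOn_const.fun_mul (cg.fun_mul (k2.mono sub))).intervalIntegrable_of_Icc ab)]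
    exact congrArg _ (intervalIntegral.integral_congr fun x _ => by simp only [k3]; ring)
  have h3 := b1 _ ((K * Cw * (1 + L.deg) + Kp * (5 * Cc + 4)) *
      ((Y : ℝ) ^ η * (2 * T) ^ (η * L.deg) * T ^ η) * Z) hG fun v => by
    obtain ⟨w1, w2⟩ := L.Tw_w h0 h1 v
    have v0 := abs_nonneg v
    have w3 : 1 + ‖(η + v * I : ℂ)‖ ≤ 2 * (1 + |v|) := by
      have h2 : ‖(η + v * I : ℂ)‖ ≤ η + |v| := by
        refine (norm_add_le _ _).trans (le_of_eq ?_)
        simp [abs_of_pos h0]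
      linarith
    have cP : Continuous (PP (L.co (η + v * I)) (Pr Y)) :=
      (L.Tw_PP Y η).comp (f := fun x : ℝ => (v, x)) (by fun_prop)
    have hP := hH v
    obtain ⟨D, Φ, d1, d2, d3⟩ := Hc g₀ Y (η + v * I) g1 g2 hY1 (by simpa using h0.le)
    have R2 : √(2 * T ^ η) ^ 2 = 2 * T ^ η := Real.sq_sqrt (by positivity)
    have R1 : 1 ≤ √(2 * T ^ η) := Real.one_le_sqrt.2 (by linarith)
    have d4 := d3 (T / 2) (x₀ + θ) √T √(2 * T ^ η) (by positivity)
      (by rw [abs_of_nonneg (by linarith [hx0.1])]; linarith [hx0.1])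
      (by rw [abs_of_nonneg (by linarith [hx0.1])]; linarith [hx0.2]) r1 R1
      ((Real.sqrt_le_sqrt (by linarith)).trans (le_mul_of_one_le_left (by linarith) R1))
      (by rw [R2]; linarith)
    rw [show √(2 * T ^ η) ^ 4 = (√(2 * T ^ η) ^ 2) ^ 2 by ring, R2, Real.sq_sqrt hT0.le] at d4
    have cΦ : Continuous Φ := continuous_iff_continuousAt.2 fun x => (d2 x).continuousAt
    have d5 : ∫ x in x₀ - s..x₀ + s, ‖Φ (x + θ)‖ ^ 2 ≤
        Cc * (Y : ℝ) ^ η * (1 + ‖(η + v * I : ℂ)‖) ^ 2 * ((2 * T ^ η) ^ 2 * T) := by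
      refine le_trans ?_ d4
      rw [intervalIntegral.integral_comp_add_right (fun x => ‖Φ x‖ ^ 2)]
      exact intervalIntegral.integral_mono_interval (by linarith) (by linarith) (by linarith)
        (Filter.Eventually.of_forall fun _ => by positivity)
        ((cΦ.norm.pow 2).intervalIntegrable _ _)
    have n2 := norm_nonneg (η + v * I : ℂ)
    have k1 := tl_parts (t := (1 + ‖(η + v * I : ℂ)‖) * (2 * T ^ η)) ab (by positivity) dg cg' ga gb
      ((continuous_PP _ _).comp' (continuous_add_const θ))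
      (fun x => (d2 (x + θ)).comp_add_const x θ) d1 z1 z2 d5
    have k2 : ‖∫ x in x₀ - s..x₀ + s, g x * PP (L.co (η + v * I)) (Pr Y) x‖ ≤
        Kp * ((1 + |v|) * (5 * Cc + 4) * ((Y : ℝ) ^ η * T ^ η) * Z) := by
      simp only [g3 (η + v * I) Y, mul_left_comm _ (Kp : ℂ)]
      rw [intervalIntegral.integral_const_mul, norm_mul, Complex.norm_real,
        Real.norm_of_nonneg hKp.le]
      refine mul_le_mul_of_nonneg_left (k1.trans ?_) hKp.le
      have u0 : 0 < 1 + ‖(η + v * I : ℂ)‖ := by linarith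
      generalize 1 + ‖(η + v * I : ℂ)‖ = u at w3 u0 ⊢
      generalize (Y : ℝ) ^ η = y at hYη ⊢
      generalize T ^ η = E at hE ⊢
      have E0 : 0 < E := by linarith
      have y0 : 0 < y := by linarith
      have a1 : Cc * y * Z ≤ (1 + |v|) * Cc * (y * E) * Z :=
        calc _ = 1 * Cc * (y * 1) * Z := by ring
          _ ≤ _ := by gcongr; linarith
      have a2 : u * (2 * E) * Z ≤ (1 + |v|) * 4 * (y * E) * Z :=
        calc _ ≤ 2 * (1 + |v|) * (2 * (y * E)) * Z := by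
              gcongr
              exact le_mul_of_one_le_left E0.le hYη
          _ = _ := by ring
      have a3 : Cc * y * u ^ 2 * ((2 * E) ^ 2 * T) / (u * (2 * E)) ≤
          (1 + |v|) * (4 * Cc) * (y * E) * Z :=
        calc _ = Cc * y * u * (2 * E) * T := by field_simp
          _ ≤ Cc * y * (2 * (1 + |v|)) * (2 * E) * Z := by gcongr
          _ = _ := by ring
      linarith
    generalize (η + v * I : ℂ) * L.deg = w at w1 w2 ⊢
    generalize PP (L.co (η + v * I)) (Pr Y) = P at cP hP k2 ⊢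
    have he : ∀ x ∈ Icc T (2 * T), ‖exp (w * (Real.log x : ℝ))‖ ≤ (2 * T) ^ (η * L.deg) :=
      fun x hx => w1 ▸ norm_exp_log hT0 (by rw [w1]; positivity) hx
    have k3 : ∀ x ∈ Icc T (2 * T), ‖exp (w * (Real.log x : ℝ)) - exp (w * (Real.log x₀ : ℝ))‖ ≤
        (1 + |v|) * (1 + L.deg) / T * (2 * T) ^ (η * L.deg) * ‖x - x₀‖ := fun x hx' =>
      (convex_Icc T (2 * T)).norm_image_sub_le_of_norm_hasDerivWithin_le
        (f := fun x : ℝ => exp (w * (Real.log x : ℝ)))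
        (fun y hy => (nm_der w (hT0.trans_le hy.1)).hasDerivWithinAt) (fun y hy => by
          rw [norm_mul, norm_div, Complex.norm_real, Real.norm_of_nonneg (hT0.le.trans hy.1)]
          exact mul_le_mul (div_le_div₀ (by positivity) (by linarith) hT0 hy.1) (he y hy)
            (norm_nonneg _) (by positivity)) hx0 hx'
    have k4 := tl_sup ab cg z1
      (D := fun x => P x * (exp (w * (Real.log x : ℝ)) - exp (w * (Real.log x₀ : ℝ))))
      (K := K * (Cw * (T ^ η * √T) * (Y : ℝ) ^ η) *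
        ((1 + |v|) * (1 + L.deg) / T * (2 * T) ^ (η * L.deg) * √T)) fun u hu => by
        rw [norm_mul]
        refine mul_le_mul ((hP _).trans (by gcongr)) ((k3 _ (sub hu)).trans ?_) (norm_nonneg _)
          (by positivity)
        exact mul_le_mul_of_nonneg_left ((abs_le.2 ⟨by linarith [hu.1], by linarith [hu.2]⟩).trans
          hsT) (by positivity)
    rw [tl_cut hx1 ab hx2 ga gb]
    refine (split _ _ P (exp (w * (Real.log x₀ : ℝ))) (cP.continuousOn.fun_mul ((nice_exp hT0 w).cont.fun_sub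
      (continuousOn_const (c := exp (w * (Real.log x₀ : ℝ)))))) cP.continuousOn fun x => by ring).trans
      ((add_le_add k4 (mul_le_mul (he _ hx0) k2 (norm_nonneg _) (by positivity))).trans
        (le_of_eq ?_))
    rw [mul_div_assoc, div_eq_mul_inv, show T⁻¹ = (√T * √T)⁻¹ by rw [r2]]
    field_simp
  rw [tl_cut hx1 ab hx2 ga gb] at h3
  have hL2 : Continuous L.L2 := Complex.continuous_ofReal.comp (L.continuous_L_half.norm.pow 2)
  have h4 := tl_sup ab cg z1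
    (D := fun x => L.L2 x - 2 * Ln (fun z => PP (L.co z) (Pr Y) x * L.wt x z) η) (K := Ca)
    fun u hu => by
      have h5 := Ha T _ hT (sub hu)
      rw [← hYe] at h5
      exact h5.trans (mul_le_of_le_one_right hCa.le
        (Real.rpow_le_one_of_one_le_of_nonpos hT (by nlinarith)))
  refine (split _ _ _ 2 (hL2.continuousOn.fun_sub ((continuousOn_const (c := 2)).fun_mul c1)) c1
    fun x => by ring).trans ?_
  rw [Complex.norm_ofNat, add_mul, add_mul]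
  refine add_le_add (h4.trans ?_) ?_
  · calc Ca * Z = Ca * 1 * Z := by ring
      _ ≤ _ := by gcongr
  · calc _ ≤ 2 * (Cf * ((K * Cw * (1 + L.deg) + Kp * (5 * Cc + 4)) * (2 ^ L.deg * T ^ ε) * Z)) :=
          mul_le_mul_of_nonneg_left (h3.trans (by gcongr)) zero_le_two
      _ = _ := by ring

theorem tl_all (hL : L.deg ≤ 1) (hq : L.QP) : ∃ Λ : ℝ → ℝ, Bd Λ 0 ∧ (∀ T, 1 ≤ Λ T) ∧
    ∀ (T x₀ s Z : ℝ) (g g' : ℝ → ℂ), 1 ≤ T → 0 < s → s ≤ √T → T ≤ x₀ - s → x₀ + s ≤ 2 * T →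
    (∀ x ∈ Icc (x₀ - s) (x₀ + s), HasDerivAt g (g' x) x) →
    ContinuousOn g' (Icc (x₀ - s) (x₀ + s)) → g (x₀ - s) = 0 → g (x₀ + s) = 0 → T ≤ Z →
    ∫ x in x₀ - s..x₀ + s, ‖g x‖ ≤ Z → ∫ x in x₀ - s..x₀ + s, ‖g' x‖ ^ 2 ≤ Z →
    ‖∫ x in x₀ - s..x₀ + s, g x * L.L2 x‖ ≤ Λ T * Z := by
  obtain ⟨Λ, h1, h2, h3⟩ := bd_unif (α := (ℝ × ℝ × ℝ) × (ℝ → ℂ) × (ℝ → ℂ)) (g := fun _ => 1)
    (S := fun T => {p | 0 < p.1.2.1 ∧ p.1.2.1 ≤ √T ∧ T ≤ p.1.1 - p.1.2.1 ∧
      p.1.1 + p.1.2.1 ≤ 2 * T ∧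
      (∀ x ∈ Icc (p.1.1 - p.1.2.1) (p.1.1 + p.1.2.1), HasDerivAt p.2.1 (p.2.2 x) x) ∧
      ContinuousOn p.2.2 (Icc (p.1.1 - p.1.2.1) (p.1.1 + p.1.2.1)) ∧
      p.2.1 (p.1.1 - p.1.2.1) = 0 ∧ p.2.1 (p.1.1 + p.1.2.1) = 0 ∧ T ≤ p.1.2.2 ∧
      ∫ x in p.1.1 - p.1.2.1..p.1.1 + p.1.2.1, ‖p.2.1 x‖ ≤ p.1.2.2 ∧
      ∫ x in p.1.1 - p.1.2.1..p.1.1 + p.1.2.1, ‖p.2.2 x‖ ^ 2 ≤ p.1.2.2})
    (φ := fun _ p => ‖∫ x in p.1.1 - p.1.2.1..p.1.1 + p.1.2.1, p.2.1 x * L.L2 x‖ / p.1.2.2)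
    (fun _ _ => one_pos) fun ε hε => by
      obtain ⟨C, T₀, hC, H⟩ := L.tl_gen hL hq hε
      obtain ⟨M, hM⟩ := isCompact_Icc.exists_bound_of_continuousOn
        ((Complex.continuous_ofReal.comp L.continuous_w).continuousOn (s := Icc 0 (2 * |T₀|)))
      have M0 : 0 ≤ M := (norm_nonneg _).trans (hM 0 ⟨le_rfl, by positivity⟩)
      refine ⟨C + M, fun T hT ⟨⟨x₀, s, Z⟩, g, g'⟩ ⟨a1, a2, a3, a4, a5, a6, a7, a8, a9, b1, b2⟩ => ?_⟩
      simp only at a1 a2 a3 a4 a5 a6 a7 a8 a9 b1 b2 ⊢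
      have Z0 : 0 < Z := by linarith
      have hE : 1 ≤ T ^ ε := Real.one_le_rpow hT hε.le
      rw [mul_one, div_le_iff₀ Z0, add_mul, add_mul]
      rcases le_total T₀ T with h | h
      · exact le_add_of_le_of_nonneg (H T x₀ s Z g g' h a1 a2 a3 a4 a5 a6 a7 a8 a9 b1 b2)
          (by positivity)
      · refine le_add_of_nonneg_of_le (by positivity) ((tl_sup (K := M) (by linarith)
          (fun x hx => (a5 x hx).continuousAt.continuousWithinAt) b1 fun x hx =>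
            hM x ⟨by linarith [hx.1], by linarith [hx.2, le_abs_self T₀]⟩).trans ?_)
        exact mul_le_mul_of_nonneg_right (le_mul_of_one_le_right M0 hE) Z0.le
  refine ⟨Λ, h1, h2, fun T x₀ s Z g g' hT a1 a2 a3 a4 a5 a6 a7 a8 a9 b1 b2 => ?_⟩
  have := h3 T hT ((x₀, s, Z), g, g') ⟨a1, a2, a3, a4, a5, a6, a7, a8, a9, b1, b2⟩
  rwa [mul_one, div_le_iff₀ (by linarith)] at this

theorem wl (hL : L.deg ≤ 1) (hq : L.QP) : ∃ Λ : ℝ → ℝ, Bd Λ 0 ∧ (∀ T, 1 ≤ Λ T) ∧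
    ∀ T a ℓ : ℝ, 1 ≤ T → T ≤ a → 0 ≤ ℓ → a + ℓ ≤ 2 * T →
      ∫ x in a..a + ℓ, L.w x ≤ Λ T * (ℓ + T ^ (1 / 3 : ℝ)) := by
  obtain ⟨Λ, h1, h2, h3⟩ := bd_unif (S := fun T => Icc T (2 * T)) (g := fun T => T ^ (1 / 3 : ℝ))
    (φ := fun T a => ∫ x in a..a + T ^ (1 / 3 : ℝ), L.w x)
    (fun T hT => Real.rpow_pos_of_pos (by linarith) _) fun ε hε => by
      obtain ⟨C, -, H⟩ := L.wp hL hq hε
      exact ⟨C, H⟩
  refine ⟨Λ, h1, h2, fun T a ℓ hT ha hℓ hb => ?_⟩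
  have h4 := h3 T hT
  have hr : 0 < T ^ (1 / 3 : ℝ) := Real.rpow_pos_of_pos (by linarith) _
  generalize T ^ (1 / 3 : ℝ) = r at *
  have Λ0 : 0 < Λ T := one_pos.trans_le (h2 T)
  have key : ∀ (n : ℕ) (a ℓ : ℝ), T ≤ a → 0 ≤ ℓ → ℓ ≤ (n + 1) * r → a + ℓ ≤ 2 * T →
      ∫ x in a..a + ℓ, L.w x ≤ (n + 1) * (Λ T * r) := by
    have one : ∀ a ℓ : ℝ, T ≤ a → 0 ≤ ℓ → ℓ ≤ r → a + ℓ ≤ 2 * T →
        ∫ x in a..a + ℓ, L.w x ≤ Λ T * r := fun a ℓ a1 a2 a3 a4 =>
      (intervalIntegral.integral_mono_interval le_rfl (by linarith) (by linarith)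
        (Filter.Eventually.of_forall L.w_nonneg) (L.continuous_w.intervalIntegrable _ _)).trans
        (h4 a ⟨a1, by linarith⟩)
    intro n
    induction n with
    | zero => exact fun a ℓ a1 a2 a3 a4 => by simpa using one a ℓ a1 a2 (by simpa using a3) a4
    | succ n ih =>
      intro a ℓ a1 a2 a3 a4
      push_cast at a3 ⊢
      rcases le_total ℓ r with h | h
      · refine (one a ℓ a1 a2 h a4).trans (le_mul_of_one_le_left (by positivity) ?_)
        linarith [(Nat.cast_nonneg n : (0 : ℝ) ≤ n)]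
      · have b1 := one a r a1 hr.le le_rfl (by linarith)
        have b2 := ih (a + r) (ℓ - r) (by linarith) (by linarith) (by linarith) (by linarith)
        have b3 := intervalIntegral.integral_add_adjacent_intervals
          (L.continuous_w.intervalIntegrable (μ := volume) a (a + r))
          (L.continuous_w.intervalIntegrable (a + r) (a + ℓ))
        rw [show a + r + (ℓ - r) = a + ℓ by ring] at b2
        linarith
  have c1 : ℓ ≤ (⌊ℓ / r⌋₊ + 1) * r := (div_le_iff₀ hr).1 (Nat.lt_floor_add_one _).le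
  have c2 : ⌊ℓ / r⌋₊ * r ≤ ℓ := (le_div_iff₀ hr).1 (Nat.floor_le (by positivity))
  refine (key _ a ℓ ha hℓ c1 hb).trans ?_
  nlinarith

end Sel

theorem bd_sup {Λ : ℝ → ℝ} {c : ℝ} (h : Bd Λ c) (hc : 0 ≤ c) : ∃ Λ' : ℝ → ℝ, Bd Λ' c ∧
    (∀ T, 1 ≤ T → 0 ≤ Λ' T) ∧ ∀ T, 1 ≤ T → ∀ T' ∈ Icc 1 (2 * T), Λ T' ≤ Λ' T := by
  obtain ⟨K, k1, k0, k2⟩ := bd_unif' (S := fun T => Icc 1 (2 * T)) (φ := fun _ T' => Λ T') (c := c)
    fun ε hε => by
      obtain ⟨C, hC, H⟩ := h ε hε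
      refine ⟨C * 2 ^ ε * 2 ^ c, fun T hT T' hT' => (H T' hT'.1).trans ?_⟩
      have a0 : 0 ≤ T' := by linarith [hT'.1]
      have a1 : 0 ≤ T := by linarith
      calc _ ≤ C * (2 * T) ^ ε * (2 * T) ^ c := by gcongr <;> exact hT'.2
        _ = _ := by rw [Real.mul_rpow zero_le_two a1, Real.mul_rpow zero_le_two a1]; ring
  exact ⟨K, k1, fun T hT => (Real.rpow_nonneg (by linarith) c).trans (k0 T hT), k2⟩

variable {F L : Sel} {P : Vo}

theorem tl_B (h : F.deg = 2) (hP : F.Vor P) (hL : L.deg ≤ 1) (hq : L.QP) :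
    ∃ Λ : ℝ → ℝ, Bd Λ 1 ∧ ∀ T x₀ : ℝ, 1 ≤ T → T ≤ x₀ - √T → x₀ + √T ≤ 2 * T →
      ∫ x in x₀ - √T..x₀ + √T, (1 - ((x - x₀) / √T) ^ 2) * ‖F.B T x‖ ^ 2 * L.w x ≤ Λ T := by
  obtain ⟨Λ, l1, l2, l3⟩ := L.tl_all hL hq
  obtain ⟨K₀, k1, k2⟩ := F.bd_B (w := 1) (y := 1 / 2) h.ge (by rw [h]; norm_num) hP zero_le_one
    le_rfl (by rw [h]; norm_num) (by norm_num)
  obtain ⟨K₁, k3, k4⟩ := F.bd_B1 (w := 1) zero_le_one le_rfl
  obtain ⟨M, m1, m2, m3⟩ := bd_unif (S := fun T => {x₀ | T ≤ x₀ - √T ∧ x₀ + √T ≤ 2 * T})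
    (g := fun T => T) (φ := fun T x₀ => ∫ x in x₀ - √T..x₀ + √T, ‖F.B T x‖ ^ 2)
    (fun T hT => by linarith) fun ε hε => by
      obtain ⟨C, -, H⟩ := lm_B F h hP hε
      refine ⟨3 * C, fun T hT x₀ hx => ?_⟩
      have := H T (x₀ - √T) (2 * √T) hT hx.1 (by positivity) (by linarith [hx.2])
      rw [show x₀ - √T + 2 * √T = x₀ + √T by ring, mul_assoc 2,
        Real.mul_self_sqrt (by linarith)] at this
      linarith
  simp only [Real.rpow_one] at k2 k4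
  have K0 : ∀ T, 1 ≤ T → 0 ≤ K₀ T := fun T hT =>
    (norm_nonneg _).trans (k2 T hT T ⟨le_rfl, by linarith⟩)
  have K1 : ∀ T, 1 ≤ T → 0 ≤ K₁ T := fun T hT =>
    (norm_nonneg _).trans (k4 T hT T ⟨le_rfl, by linarith⟩)
  have b1 : Bd (fun T => 2 * (K₀ T / T ^ (1 / 2 : ℝ) + K₁ T)) 0 :=
    (((k1.div_rpow (1 / 2)).mono (by norm_num)).add k3).const_mul (by norm_num)
  have b0 : ∀ T, 1 ≤ T → 0 ≤ 2 * (K₀ T / T ^ (1 / 2 : ℝ) + K₁ T) := fun T hT => by
    have := K0 T hT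
    have := K1 T hT
    have : 0 < T := by linarith
    positivity
  have b2 := ((bd_const 1).add ((b1.pow b0 2).mono (by norm_num))).mul
    (m1.mul bd_id fun T hT => by linarith) fun T hT => by
      have := m2 T
      have : 0 < T := by linarith
      positivity
  refine ⟨_, (l1.mul b2 fun T hT => ?_).mono (by norm_num), fun T x₀ hT h1 h2 => ?_⟩
  · have := m2 T
    have : 0 < T := by linarith
    positivity
  have T0 : 0 < T := by linarith
  have n1 := m3 T hT x₀ ⟨h1, h2⟩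
  have n2 := b0 T hT
  have n3 := m2 T
  have s0 : 0 < √T := Real.sqrt_pos.2 T0
  have n4 := k2 T hT
  have n5 := k4 T hT
  rw [← Real.sqrt_eq_rpow] at n2 ⊢
  have l4 := fun Z g g' => l3 T x₀ √T Z g g' hT s0 le_rfl h1 h2
  generalize √T = s at *
  have ab : x₀ - s ≤ x₀ + s := by linarith
  have sub : Icc (x₀ - s) (x₀ + s) ⊆ Icc T (2 * T) := Icc_subset_Icc h1 h2
  have pos : Icc (x₀ - s) (x₀ + s) ⊆ Ioi 0 := fun x hx => T0.trans_le (sub hx).1
  have cB := (F.B_cont T0).mono pos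
  have cB1 := (F.B1_cont T0).mono pos
  have iB : IntervalIntegrable (fun x => ‖F.B T x‖ ^ 2) volume (x₀ - s) (x₀ + s) :=
    (cB.norm.pow 2).intervalIntegrable_of_Icc ab
  have u1 : ∀ x ∈ Icc (x₀ - s) (x₀ + s), |(x - x₀) / s| ≤ 1 := fun x hx => by
    rw [abs_div, abs_of_pos s0, div_le_one s0]
    exact abs_le.2 ⟨by linarith [hx.1], by linarith [hx.2]⟩
  have u2 : ∀ x ∈ Icc (x₀ - s) (x₀ + s), ‖((1 - ((x - x₀) / s) ^ 2 : ℝ) : ℂ)‖ ≤ 1 := fun x hx => by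
    rw [norm_real, Real.norm_eq_abs, abs_le]
    have := (sq_le_one_iff_abs_le_one _).2 (u1 x hx)
    constructor <;> nlinarith [sq_nonneg ((x - x₀) / s)]
  obtain ⟨A, hA⟩ : ∃ A, A = 2 * (K₀ T / s + K₁ T) := ⟨_, rfl⟩
  rw [← hA] at n2 ⊢
  have MT : T ≤ M T * T := le_mul_of_one_le_left T0.le n3
  have cg' : ContinuousOn (fun x => ((-(2 * ((x - x₀) / s) / s) : ℝ) : ℂ) *
      (F.B T x * (starRingEnd ℂ) (F.B T x)) + ((1 - ((x - x₀) / s) ^ 2 : ℝ) : ℂ) *
      (F.B1 T x * (starRingEnd ℂ) (F.B T x) + F.B T x * (starRingEnd ℂ) (F.B1 T x)))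
      (Icc (x₀ - s) (x₀ + s)) :=
    ((Continuous.continuousOn (by fun_prop)).mul (cB.mul cB.star)).add
      ((Continuous.continuousOn (by fun_prop)).mul ((cB1.mul cB.star).add (cB.mul cB1.star)))
  have cg : ContinuousOn (fun x => ((1 - ((x - x₀) / s) ^ 2 : ℝ) : ℂ) *
      (F.B T x * (starRingEnd ℂ) (F.B T x))) (Icc (x₀ - s) (x₀ + s)) :=
    (Continuous.continuousOn (by fun_prop)).mul (cB.mul cB.star)
  have key := l4 ((1 + A ^ 2) * (M T * T)) _ _ (fun x hx => by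
      have d1 := F.B_der T0 (pos hx)
      have d2 : HasDerivAt (fun x : ℝ => 1 - ((x - x₀) / s) ^ 2) (-(2 * ((x - x₀) / s) / s)) x := by
        simpa [div_eq_mul_inv] using
          ((((hasDerivAt_id x).sub_const x₀).div_const s).fun_pow 2).const_sub 1
      exact d2.ofReal_comp.fun_mul (d1.fun_mul d1.star)) cg'
    (by simp [s0.ne']) (by simp [s0.ne']) (by nlinarith [sq_nonneg A])
    (((intervalIntegral.integral_mono_on ab (cg.norm.intervalIntegrable_of_Icc ab) iB fun x hx => by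
      rw [norm_mul, norm_mul, RCLike.norm_conj, ← pow_two]
      exact mul_le_of_le_one_left (by positivity) (u2 x hx)).trans n1).trans
      (by nlinarith [sq_nonneg A]))
    ((intervalIntegral.integral_mono_on ab ((cg'.norm.pow 2).intervalIntegrable_of_Icc ab)
      (iB.const_mul (A ^ 2)) fun x hx => by
        rw [← mul_pow]
        refine pow_le_pow_left₀ (norm_nonneg _) ((norm_add_le _ _).trans ?_) 2
        have e1 := n4 x (sub hx)
        have e2 := n5 x (sub hx)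
        have e3 : ‖((-(2 * ((x - x₀) / s) / s) : ℝ) : ℂ)‖ ≤ 2 / s := by
          rw [norm_real, Real.norm_eq_abs, abs_neg, abs_div, abs_mul, abs_of_pos s0, abs_two]
          gcongr
          linarith [u1 x hx]
        have e4 := norm_add_le (F.B1 T x * (starRingEnd ℂ) (F.B T x))
          (F.B T x * (starRingEnd ℂ) (F.B1 T x))
        rw [norm_mul, norm_mul, RCLike.norm_conj, RCLike.norm_conj] at e4
        rw [norm_mul, norm_mul, norm_mul, RCLike.norm_conj]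
        have e5 := norm_nonneg (F.B T x)
        calc _ ≤ 2 / s * (K₀ T * ‖F.B T x‖) + 1 * (K₁ T * ‖F.B T x‖ + ‖F.B T x‖ * K₁ T) := by
              gcongr
              · exact u2 x hx
              · exact e4.trans (by gcongr)
          _ = _ := by rw [hA]; ring).trans (by
      rw [intervalIntegral.integral_const_mul]
      nlinarith [mul_le_mul_of_nonneg_left n1 (sq_nonneg A)]))
  refine le_trans ?_ key
  refine le_trans (le_abs_self _) (le_of_eq ?_)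
  rw [← Real.norm_eq_abs, ← norm_real, ← intervalIntegral.integral_ofReal]
  refine congrArg _ (intervalIntegral.integral_congr fun x _ => ?_)
  simp only [L.L2_eq, mul_conj, normSq_eq_norm_sq]
  push_cast
  ring

theorem tl_vw (h : F.deg = 2) (hP : F.Vor P) (hL : L.deg ≤ 1) (hq : L.QP) :
    ∃ Λ : ℝ → ℝ, Bd Λ 1 ∧ ∀ T a ℓ : ℝ, 1 ≤ T → T ≤ a → 0 ≤ ℓ → ℓ ≤ √T → a + ℓ ≤ 2 * T →
      ∫ x in a..a + ℓ, vw F T x * L.w x ≤ Λ T := by
  obtain ⟨Λ₀, l0, l1⟩ := tl_B h hP hL hq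
  obtain ⟨Λ, l2, l4, l3⟩ := bd_sup l0 zero_le_one
  obtain ⟨M, m1, m2, m3⟩ := L.wl hL hq
  obtain ⟨K₀, k1, k2⟩ := F.bd_B (w := 1) (y := 1 / 2) h.ge (by rw [h]; norm_num) hP zero_le_one
    le_rfl (by rw [h]; norm_num) (by norm_num)
  obtain ⟨N₀, n0, n1⟩ := F.bd_near (w := 1) zero_le_one le_rfl
  obtain ⟨N, n2, N0, n3⟩ := bd_sup n0 (by norm_num)
  simp only [Real.rpow_one] at k2 n1
  have K0 : ∀ T, 1 ≤ T → 0 ≤ K₀ T := fun T hT =>
    (norm_nonneg _).trans (k2 T hT T ⟨le_rfl, by linarith⟩)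
  have b1 : Bd (fun T => √T + 8 * N T ^ 2 + 24 * (K₀ T ^ 2 / T ^ (1 : ℝ))) (1 / 2) :=
    (bd_sqrt.add (((n2.pow N0 2).const_mul (by norm_num)).mono (by norm_num))).add
      ((((k1.pow K0 2).div_rpow 1).const_mul (by norm_num)).mono (by norm_num))
  have b2 : Bd (fun T => M T * (2 * √T)) (1 / 2) :=
    (m1.mul (bd_sqrt.const_mul zero_le_two) fun T _ => by positivity).mono (by norm_num)
  have b3 := (b1.mul b2 fun T _ => by have := m2 T; positivity).mono (d := 1) (by norm_num)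
  refine ⟨_, b3.add (l2.const_mul (K := 4) (by norm_num)), fun T a ℓ hT ha hℓ hs hb => ?_⟩
  have T0 : 0 < T := by linarith
  have ab : a ≤ a + ℓ := by linarith
  have M0 : 0 < M T := one_pos.trans_le (m2 T)
  have w1 : ∫ x in a..a + ℓ, L.w x ≤ M T * (2 * √T) := by
    refine (m3 T a ℓ hT ha hℓ hb).trans (mul_le_mul_of_nonneg_left ?_ M0.le)
    have : T ^ (1 / 3 : ℝ) ≤ √T := by
      rw [Real.sqrt_eq_rpow]
      exact Real.rpow_le_rpow_of_exponent_le hT (by norm_num)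
    linarith
  have i0 : IntervalIntegrable (fun x => vw F T x * L.w x) volume a (a + ℓ) :=
    ((vw_cont F T0).mul L.continuous_w).intervalIntegrable _ _
  have iw : ∀ c : ℝ, IntervalIntegrable (fun x => c * L.w x) volume a (a + ℓ) := fun c =>
    (L.continuous_w.intervalIntegrable _ _).const_mul c
  have q0 : 0 ≤ K₀ T ^ 2 / T := by positivity
  have q1 := sq_nonneg (N T)
  have q2 := Real.sqrt_nonneg T
  rw [Real.rpow_one]
  rcases le_total T 24 with h1 | h1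
  · refine le_add_of_le_of_nonneg ?_ (by linarith [l4 T hT])
    refine (intervalIntegral.integral_mono_on ab i0 (iw (√T + 8 * N T ^ 2 + 24 * (K₀ T ^ 2 / T)))
      fun x hx => mul_le_mul_of_nonneg_right ?_ (L.w_nonneg x)).trans ?_
    · rw [vw, max_eq_left (ha.trans hx.1)]
      have a1 := pow_le_pow_left₀ (norm_nonneg _) (k2 T hT x ⟨ha.trans hx.1, hx.2.trans hb⟩) 2
      have a2 : K₀ T ^ 2 = T * (K₀ T ^ 2 / T) := by field_simp
      nlinarith
    · rw [intervalIntegral.integral_const_mul]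
      exact mul_le_mul_of_nonneg_left w1 (by positivity)
  obtain ⟨T', hT'⟩ : ∃ T', T' = 2 * a / 3 := ⟨_, rfl⟩
  have t1 : 16 ≤ T' := by linarith
  have t0 : 0 < T' := by linarith
  have t2 : T' ∈ Icc 1 (2 * T) := ⟨by linarith, by linarith⟩
  have s1 : 4 ≤ √T' := Real.le_sqrt_of_sq_le (by linarith)
  have s2 : √T' * √T' = T' := Real.mul_self_sqrt t0.le
  have s3 : ℓ ^ 2 ≤ 3 / 2 * T' := by
    have := pow_le_pow_left₀ hℓ hs 2
    rw [Real.sq_sqrt T0.le] at this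
    linarith
  have l5 := l1 T' (a + ℓ / 2) t2.1
  generalize √T' = s at s1 s2 l5
  have s0 : 0 < s := by linarith
  have s4 : ℓ ≤ 3 / 2 * s := le_of_pow_le_pow_left₀ two_ne_zero (by linarith) (by nlinarith)
  have s5 : 4 * s ≤ T' := by nlinarith
  have l6 := (l5 (by linarith) (by linarith)).trans (l3 T hT T' t2)
  have cB : ∀ c d : ℝ, 0 < c → c ≤ d → IntervalIntegrable
      (fun x => (1 - ((x - (a + ℓ / 2)) / s) ^ 2) * ‖F.B T' x‖ ^ 2 * L.w x) volume c d :=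
    fun c d hc hd => (((Continuous.continuousOn (by fun_prop)).mul (((F.B_cont t0).mono fun x hx =>
      hc.trans_le hx.1).norm.pow 2)).mul L.continuous_w.continuousOn).intervalIntegrable_of_Icc hd
  have l7 := (intervalIntegral.integral_mono_interval (c := a + ℓ / 2 - s) (d := a + ℓ / 2 + s)
    (a := a) (b := a + ℓ) (by linarith) ab (by linarith)
    ((ae_restrict_mem measurableSet_Ioc).mono fun x hx => by
      refine mul_nonneg (mul_nonneg (sub_nonneg.2 ?_) (by positivity)) (L.w_nonneg x)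
      rw [sq_le_one_iff_abs_le_one, abs_div, abs_of_pos s0, div_le_one s0]
      exact abs_le.2 ⟨by linarith [hx.1], by linarith [hx.2]⟩)
    (cB _ _ (by linarith) (by linarith))).trans l6
  have i1 := (cB a (a + ℓ) (by linarith) ab).const_mul 4
  refine (intervalIntegral.integral_mono_on ab i0
    ((iw (√T + 8 * N T ^ 2 + 24 * (K₀ T ^ 2 / T))).add i1) fun x hx => ?_).trans ?_
  · rw [vw, max_eq_left (ha.trans hx.1), ← mul_assoc, ← add_mul]
    refine mul_le_mul_of_nonneg_right ?_ (L.w_nonneg x)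
    have a1 := (n1 T hT x ⟨ha.trans hx.1, hx.2.trans hb⟩).trans (n3 T hT T ⟨hT, by linarith⟩)
    have a2 := (n1 T' t2.1 x ⟨by linarith [hx.1], by linarith [hx.2]⟩).trans (n3 T hT T' t2)
    have a3 : ‖F.B T x‖ ≤ ‖F.B T' x‖ + 2 * N T := by
      linarith [norm_sub_norm_le (F.B T x) (F.B T' x), norm_sub_le_norm_sub_add_norm_sub
        (F.B T x) (F.E x) (F.B T' x), norm_sub_rev (F.B T x) (F.E x)]
    have a4 := pow_le_pow_left₀ (norm_nonneg _) a3 2
    have a5 : ((x - (a + ℓ / 2)) / s) ^ 2 ≤ 1 / 2 := by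
      rw [div_pow, div_le_iff₀ (by positivity)]
      nlinarith [mul_nonneg (sub_nonneg.2 hx.1) (sub_nonneg.2 hx.2)]
    nlinarith [sq_nonneg (‖F.B T' x‖ - 2 * N T),
      mul_le_mul_of_nonneg_right a5 (sq_nonneg ‖F.B T' x‖)]
  · rw [intervalIntegral.integral_add (iw _) i1, intervalIntegral.integral_const_mul,
      intervalIntegral.integral_const_mul]
    exact add_le_add (mul_le_mul_of_nonneg_left w1 (by positivity))
      (mul_le_mul_of_nonneg_left l7 (by norm_num))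

end Pool.Agent.Lib.MP_2a1a00_nt
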