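import Pool.Agent.Lib.MP_2a1a00_nt.D.Wt2
import Pool.Agent.Lib.MP_2a1a00_nt.D.Tl
import Pool.Agent.Lib.MP_2a1a00_nt.C.Ky
import Pool.Agent.Lib.MP_2a1a00_nt.C.One

/-! The key estimate with the twist. -/

namespace Pool.Agent.Lib.MP_2a1a00_nt

open Complex MeasureTheory Set

variable {F L : Sel} {P : Vo}

theorem b7 (h : F.deg = 2) (hP : F.Vor P) (hL : L.deg ≤ 1) (hq : L.QP) :
    Bd (fun T => mo 7 (F.B (T ^ (1 : ℝ))) L.w T) (1 + (7 : ℕ) * (1 / 4)) := by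
  obtain ⟨K, k1, k2⟩ := F.bd_near zero_le_one le_rfl
  exact close_bd (fun T hT => (F.nice_Bw 1 hT).bm0) (fun T hT => F.bm_E hT) L.continuous_w
    L.w_nonneg (L.bd_mass hL) k1 (fun T hT x hx => by rw [norm_sub_rev]; exact k2 T hT x hx)
    ((Sel.p2_E7 hL hq h hP).mono (by norm_num)) (by norm_num)

theorem vw_eq {T x : ℝ} (hx : x ∈ Icc T (2 * T)) :
    vw F T x = √T + ‖F.B (T ^ (1 : ℝ)) x‖ ^ 2 := by
  rw [vw, max_eq_left hx.1, Real.rpow_one]

theorem vw_nonneg (F : Sel) (T x : ℝ) : 0 ≤ vw F T x := by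
  unfold vw
  positivity

theorem vw_one (h : F.deg = 2) (hP : F.Vor P) (hL : L.deg ≤ 1) (hq : L.QP) :
    Bd (fun T => ∫ x in T..2 * T, vw F T x * L.w x) (3 / 2) := by
  have k1 := low_bd (n := 2) (by norm_num) (fun T hT => (F.nice_Bw 1 hT).bm0) L.continuous_w
    L.w_nonneg (L.bd_mass hL) (b7 h hP hL hq)
  have k2 := (L.bd_mass hL).mul bd_sqrt fun T _ => Real.sqrt_nonneg T
  refine ((k2.mono (by norm_num)).add (k1.mono (by norm_num))).of_le fun T hT => le_of_eq ?_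
  have i1 := (F.nice_Bw 1 hT).bm0.int_pow (by linarith) 2 L.continuous_w.continuousOn
  have i2 := (L.continuous_w.intervalIntegrable (μ := volume) T (2 * T)).mul_const √T
  rw [mo, ← intervalIntegral.integral_mul_const, ← intervalIntegral.integral_add i2 i1]
  refine intervalIntegral.integral_congr fun x hx => ?_
  rw [uIcc_of_le (by linarith)] at hx
  simp only [vw_eq hx]
  ring

theorem vw_four (h : F.deg = 2) (hP : F.Vor P) (hL : L.deg ≤ 1) (hq : L.QP) :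
    Bd (fun T => ∫ x in T..2 * T, vw F T x ^ 4 * L.w x) (37 / 12) := by
  obtain ⟨K, k1, k2⟩ := F.bd_B (w := 1) (y := 1 / 3) h.ge (by rw [h]; norm_num) hP zero_le_one
    le_rfl (by rw [h]; norm_num) (by norm_num)
  have K0 : ∀ T, 1 ≤ T → 0 ≤ K T := fun T hT =>
    (norm_nonneg _).trans (k2 T hT T ⟨le_rfl, by linarith⟩)
  have k3 := ((b7 h hP hL hq).mul k1 K0).mono (d := 37 / 12) (by norm_num)
  have k4 := ((L.bd_mass hL).mul_rpow 2).mono (d := 37 / 12) (by norm_num)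
  refine ((k4.add k3).const_mul (K := 8) (by norm_num)).of_le fun T hT => ?_
  have T0 : 0 < T := by linarith
  have i1 := ((F.nice_Bw 1 hT).bm0.int_pow T0.le 7 L.continuous_w.continuousOn).mul_const (K T)
  have i2 := (L.continuous_w.intervalIntegrable (μ := volume) T (2 * T)).mul_const (T ^ (2 : ℝ))
  rw [mo, ← intervalIntegral.integral_mul_const, ← intervalIntegral.integral_mul_const,
    ← intervalIntegral.integral_add i2 i1, ← intervalIntegral.integral_const_mul]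
  refine intervalIntegral.integral_mono_on (by linarith)
    ((((vw_cont F T0).pow 4).mul L.continuous_w).intervalIntegrable _ _)
    ((i2.add i1).const_mul 8) fun x hx => ?_
  have a1 : vw F T x ^ 4 ≤ 8 * (T ^ (2 : ℝ) + ‖F.B (T ^ (1 : ℝ)) x‖ ^ 7 * K T) := by
    rw [vw_eq hx]
    refine (add_pow_le (by positivity) (by positivity) 4).trans ?_
    have a2 := mul_le_mul_of_nonneg_left (k2 T hT x hx)
      (pow_nonneg (norm_nonneg (F.B (T ^ (1 : ℝ)) x)) 7)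
    rw [show √T ^ 4 = (√T * √T) ^ 2 by ring, Real.mul_self_sqrt T0.le, Real.rpow_two]
    norm_num at a2 ⊢
    linarith
  refine (mul_le_mul_of_nonneg_right a1 (L.w_nonneg x)).trans (le_of_eq ?_)
  ring

theorem wg2 (h : F.deg = 2) (hP : F.Vor P) (hL : L.deg ≤ 1) (hq : L.QP) :
    ∃ Λ V' : ℝ → ℝ, Bd Λ 0 ∧ (∀ T, 1 ≤ Λ T) ∧ ∀ T W : ℝ, 1 ≤ T → √T ≤ W →
      W ≤ 4 * T ^ (2 / 3 : ℝ) →
      Wg (fun x => vw F T x * L.w x) T W (Λ T * W) (Λ T * T ^ (3 / 2 : ℝ)) (V' T) ∧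
        F4 (fun x => vw F T x * L.w x) T W (Λ T * T ^ (37 / 12 : ℝ)) := by
  obtain ⟨C, hC, H⟩ := lm_shell
  obtain ⟨A, a1, a2⟩ := tl_vw h hP hL hq
  obtain ⟨M, m1, m2, m3⟩ := L.wl hL hq
  have M0 : ∀ T, 0 < 5 * C * M T := fun T => by
    have := m2 T
    positivity
  have b1 := ((a1.const_mul hC.le).div_rpow 1).mono (d := 0) (by norm_num)
  have b2 := ((vw_one h hP hL hq).div_rpow (3 / 2)).mono (d := 0) (by norm_num)
  have b3 := (((vw_four h hP hL hq).mul ((m1.const_mul (K := 5 * C) (by positivity)).pow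
    (fun T _ => (M0 T).le) 3) fun T _ => (pow_pos (M0 T) 3).le).div_rpow (37 / 12)).mono (d := 0)
    (by norm_num)
  obtain ⟨Λ, l1, l2, l3⟩ := bd_unif (S := fun _ => (univ : Set Unit)) (g := fun _ => 1)
    (φ := fun T _ => C * A T / T ^ (1 : ℝ) + (∫ x in T..2 * T, vw F T x * L.w x) / T ^ (3 / 2 : ℝ) +
      (∫ x in T..2 * T, vw F T x ^ 4 * L.w x) * (5 * C * M T) ^ 3 / T ^ (37 / 12 : ℝ))
    (fun _ _ => one_pos) fun ε hε => by
      obtain ⟨D, -, hD⟩ := (b1.add b2).add b3 ε hε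
      exact ⟨D, fun T hT _ _ => by simpa using hD T hT⟩
  refine ⟨Λ, fun T => ∫ x in T..2 * T, (vw F T x * L.w x) ^ 4, l1, l2, fun T W hT w0 w1 => ?_⟩
  have T0 : 0 < T := by linarith
  have TT : T ≤ 2 * T := by linarith
  have s1 : 1 ≤ √T := Real.one_le_sqrt.2 hT
  have W1 : 1 ≤ W := s1.trans w0
  have W0 : 0 < W := by linarith
  have cv := (vw_cont F T0).mul L.continuous_w
  have v0 : ∀ x, 0 ≤ vw F T x * L.w x := fun x => mul_nonneg (vw_nonneg F T x) (L.w_nonneg x)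
  have c0 : 0 ≤ A T := by simpa using a2 T T 0 hT le_rfl le_rfl (by positivity) (by linarith)
  have c1 : 0 ≤ C * A T / T ^ (1 : ℝ) := by positivity
  have c2 : 0 ≤ (∫ x in T..2 * T, vw F T x * L.w x) / T ^ (3 / 2 : ℝ) :=
    div_nonneg (intervalIntegral.integral_nonneg TT fun x _ => v0 x) (by positivity)
  have c3 : 0 ≤ (∫ x in T..2 * T, vw F T x ^ 4 * L.w x) * (5 * C * M T) ^ 3 / T ^ (37 / 12 : ℝ) :=
    div_nonneg (mul_nonneg (intervalIntegral.integral_nonneg TT fun x _ =>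
      mul_nonneg (pow_nonneg (vw_nonneg F T x) 4) (L.w_nonneg x)) (pow_pos (M0 T) 3).le)
      (by positivity)
  have l4 := l3 T hT () trivial
  rw [mul_one] at l4
  refine ⟨⟨cv, v0, fun y hy => ?_, (div_le_iff₀ (by positivity)).1 (by linarith), le_rfl⟩, ?_⟩
  · refine (H _ T W (A T) T0 W1 cv v0 (fun a ℓ b1 b2 b3 b4 => a2 T a ℓ hT b1 b2 (b3.trans ?_) b4)
      y hy).trans ?_
    · rw [div_le_iff₀ W0]
      exact (Real.mul_self_sqrt T0.le).ge.trans (mul_le_mul_of_nonneg_left w0 (by positivity))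
    · have c4 : C * A T ≤ Λ T * T := by
        rw [Real.rpow_one] at l4 c1
        exact (div_le_iff₀ T0).1 (by linarith)
      nlinarith
  · refine (f4_mul (lam := 5 * C * M T) T0 W0 (M0 T) ⟨L.continuous_w, L.w_nonneg, fun y hy => ?_,
      le_rfl, le_rfl⟩ (vw_cont F T0) (vw_nonneg F T) le_rfl).mono
      ((div_le_iff₀ (by positivity)).1 (by linarith))
    have M1 : 0 < M T := one_pos.trans_le (m2 T)
    refine (H _ T W (M T * (T / W + T ^ (1 / 3 : ℝ))) T0 W1 L.continuous_w L.w_nonneg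
      (fun a ℓ b1 b2 b3 b4 => (m3 T a ℓ hT b1 b2 b4).trans (by gcongr)) y hy).trans ?_
    have c5 : W * T ^ (1 / 3 : ℝ) ≤ 4 * T := by
      refine (mul_le_mul_of_nonneg_right w1 (by positivity)).trans (le_of_eq ?_)
      rw [mul_assoc, ← Real.rpow_add T0]
      norm_num
    calc _ = C * M T * (T + W * T ^ (1 / 3 : ℝ)) := by field_simp
      _ ≤ C * M T * (T + 4 * T) := by gcongr
      _ = _ := by ring

theorem mid2 (h : F.deg = 2) (hP : F.Vor P) (hL : L.deg ≤ 1) (hq : L.QP) :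
    Bd (fun T => mo 3 (fun x => (zs 3).B (T ^ (63 / 100 : ℝ)) x -
      (zs 3).B (T ^ (1 / 2 + 1 / 12000 : ℝ)) x) (fun x => vw F T x * L.w x) T) (5 / 2 - 1 / 50000) := by
  obtain ⟨Λ, V', h1, h2, h3⟩ := wg2 h hP hL hq
  obtain ⟨C, hC, H⟩ := lv2
  have k1 := (((h1.const_mul (K := 4) (by norm_num)).pow
    (fun T _ => by linarith [h2 T]) 10).const_mul hC.le).mul_rpow (5 / 2 - 1 / 50000)
  have k2 := (bd_Jl.pow (fun _ _ => Nat.cast_nonneg _) 3).mul k1 fun T hT => by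
    have : 0 < T := by linarith
    have := h2 T
    positivity
  refine (k2.mono (by norm_num)).of_le fun T hT => ?_
  have hT0 : 0 < T := by linarith
  obtain ⟨W₀, e0⟩ : ∃ W, W = T ^ (1 / 2 + 1 / 12000 : ℝ) := ⟨_, rfl⟩
  obtain ⟨W₁, e1⟩ : ∃ W, W = T ^ (63 / 100 : ℝ) := ⟨_, rfl⟩
  have w0 : √T ≤ W₀ := by
    rw [Real.sqrt_eq_rpow, e0]
    exact Real.rpow_le_rpow_of_exponent_le hT (by norm_num)
  have w1 : 1 ≤ W₀ := (Real.one_le_sqrt.2 hT).trans w0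
  have w2 : W₀ ≤ W₁ := by
    rw [e0, e1]
    exact Real.rpow_le_rpow_of_exponent_le hT (by norm_num)
  have w3 : W₁ ≤ T := e1 ▸ (p1_W (by norm_num) (by norm_num) hT).2
  obtain ⟨W, hW⟩ : ∃ W : ℕ → ℝ, W = fun j => min (W₀ * 2 ^ j) W₁ := ⟨_, rfl⟩
  have a0 : ∀ j, W₀ ≤ W j ∧ W j ≤ W₁ ∧ W j ≤ W (j + 1) ∧ W (j + 1) ≤ 2 * W j := fun j => by
    have b : (1 : ℝ) ≤ 2 ^ j := one_le_pow₀ (by norm_num)
    simp only [hW, pow_succ]
    refine ⟨le_min (by nlinarith) w2, min_le_right _ _, min_le_min_right _ (by nlinarith), ?_⟩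
    rw [mul_min_of_nonneg _ _ (by norm_num : (0 : ℝ) ≤ 2)]
    exact min_le_min (by linarith) (by linarith)
  have a1 : W 0 = W₀ := by simp only [hW, pow_zero, mul_one, min_eq_left w2]
  have a2 : W (Jl T) = W₁ := by
    simp only [hW]
    refine min_eq_right (w3.trans ((Jl_le T).trans ?_))
    exact le_mul_of_one_le_left (by positivity) w1
  have cb : ∀ j, Bm ((zs 3).B (W j)) T := fun j =>
    bm_pos hT0 ((zs 3).B_cont (by linarith [(a0 j).1]))
  have w4 : W₁ ≤ T ^ (2 / 3 : ℝ) := by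
    rw [e1]
    exact Real.rpow_le_rpow_of_exponent_le hT (by norm_num)
  have g := (h3 T W₀ hT w0 (by linarith)).1
  have e : (fun x => (zs 3).B W₁ x - (zs 3).B W₀ x) = fun x =>
      ∑ j ∈ Finset.range (Jl T), ((zs 3).B (W (j + 1)) x - (zs 3).B (W j) x) := by
    funext x
    rw [Finset.sum_range_sub (fun j => (zs 3).B (W j) x), a1, a2]
  rw [← e0, ← e1, e]
  refine (mo3_sum (Finset.range (Jl T)) (f := fun j x => (zs 3).B (W (j + 1)) x - (zs 3).B (W j) x)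
    hT0.le g.cont g.pos fun j _ => (cb _).sub (cb _)).trans ?_
  rw [Finset.card_range, pow_succ _ 2, mul_assoc]
  refine mul_le_mul_of_nonneg_left ?_ (by positivity)
  refine (Finset.sum_le_card_nsmul _ _ _ fun j _ => ?_).trans
    (by rw [Finset.card_range, nsmul_eq_mul])
  obtain ⟨b0, b1, b2, b3⟩ := a0 j
  have := h2 T
  obtain ⟨g1, g2⟩ := h3 T (4 * W j) hT (by linarith) (by linarith)
  refine H _ T _ _ _ (V' T) hT (by linarith) (e0 ▸ b0) (e1 ▸ b1) b2 b3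
    (g1.mono hT0.le (le_of_eq (by ring)) ?_ le_rfl) (g2.mono ?_) <;>
    exact mul_le_mul_of_nonneg_right (by linarith) (by positivity)

theorem lo2 : ∃ C : ℝ, 0 < C ∧ ∀ (v : ℝ → ℝ) (T Λ V' : ℝ), 1 ≤ T → 1 ≤ Λ →
    Wg v T (T ^ (1 / 2 + 1 / 12000 : ℝ)) (Λ * T ^ (1 / 2 + 1 / 12000 : ℝ)) (Λ * T ^ (3 / 2 : ℝ))
      V' →
    mo 3 (fun x => (zs 3).B (T ^ (1 / 2 + 1 / 12000 : ℝ)) x - (zs 3).Hs P3 (1 / 1000) T x) v T ≤
      C * Λ * T ^ (5 / 2 - 1 / 50000 : ℝ) := by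
  obtain ⟨C₁, hC₁, H₁⟩ := lob_one
  obtain ⟨C₂, hC₂, H₂⟩ := lob_two
  obtain ⟨C₃, hC₃, H₃⟩ := lob_three
  refine ⟨4 * C₁ ^ 3 + 4 * (4 * C₂ + 4 * C₃ ^ 3), by positivity, fun v T Λ V' hT hΛ g => ?_⟩
  have hT0 : 0 < T := by linarith
  obtain ⟨N, n1, n2, k1⟩ := H₁ T hT
  have b1 := ((zs 3).nice_Bw (1 / 2 + 1 / 12000) hT).bm0
  have b2 := bm_pos hT0 (av_cont (W := T ^ (1 / 2 + 1 / 12000 : ℝ)) ((zs 3).H_cont P3 0 N))
  have b3 : Bm (av (T ^ (1 / 2 + 1 / 12000 : ℝ)) ((zs 3).Hs P3 (1 / 1000) T)) T :=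
    bm_pos hT0 (av_cont ((zs 3).H_cont P3 0 _))
  have b4 := (zs 3).bm_Hs P3 (1 / 1000) hT
  have r1 := mo3_tri hT0.le g.cont g.pos b1 b2 b4
  have r2 := mo3_tri hT0.le g.cont g.pos b2 b3 b4
  have e : ∀ K : ℝ, 0 < K → (K * T ^ (3 / 10 : ℝ)) ^ 3 * (Λ * T ^ (3 / 2 : ℝ)) ≤
      K ^ 3 * Λ * T ^ (5 / 2 - 1 / 50000 : ℝ) := fun K hK => by
    rw [mul_pow, rpow_pow hT, mul_mul_mul_comm, ← Real.rpow_add hT0]
    exact mul_le_mul_of_nonneg_left (Real.rpow_le_rpow_of_exponent_le hT (by norm_num))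
      (by positivity)
  have r3 := (mo3_sup hT0.le g (b1.sub b2) (by positivity) k1).trans (e C₁ hC₁)
  have r4 := (mo3_sup hT0.le g (b3.sub b4) (by positivity) (H₃ T hT)).trans (e C₃ hC₃)
  have r5 := H₂ v T Λ _ _ N hT hΛ g n1 n2
  have r6 : mo 3 (fun x => av (T ^ (1 / 2 + 1 / 12000 : ℝ)) ((zs 3).H P3 0 N) x -
      av (T ^ (1 / 2 + 1 / 12000 : ℝ)) ((zs 3).Hs P3 (1 / 1000) T) x) v T =
      mo 3 (av (T ^ (1 / 2 + 1 / 12000 : ℝ)) ((zs 3).H P3 ⌊T ^ (1 / 1000 : ℝ)⌋₊ N)) v T := by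
    refine intervalIntegral.integral_congr fun x hx => ?_
    have x0 : 0 < x := (lt_min hT0 (by linarith)).trans_le hx.1
    rw [show (zs 3).H P3 0 N = fun y => (zs 3).H P3 0 ⌊T ^ (1 / 1000 : ℝ)⌋₊ y +
      (zs 3).H P3 ⌊T ^ (1 / 1000 : ℝ)⌋₊ N y from funext ((zs 3).H_split P3 n1)]
    simp only [av_add ((zs 3).H_cont P3 _ _) ((zs 3).H_cont P3 _ _) x0, Sel.Hs, add_sub_cancel_left]
  linarith

theorem kh_near : ∃ C : ℝ, 0 < C ∧ ∀ T : ℝ, 1 ≤ T → ∀ x ∈ Icc T (2 * T),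
    ‖av (T ^ (1 / 2 : ℝ)) ((zs 3).Hs P3 (1 / 1000) T) x - (zs 3).Hs P3 (1 / 1000) T x‖ ≤
      C * T ^ (3 / 10 : ℝ) := by
  obtain ⟨C, hC, H⟩ := (zs 3).H_der P3 (by rw [zs_deg3]; norm_num)
  refine ⟨30 * (18 * C), by positivity, fun T hT x hx => ?_⟩
  have hT0 : 0 < T := by linarith
  obtain ⟨H', -, d, b⟩ := H ⌊T ^ (1 / 1000 : ℝ)⌋₊
  have e1 : al (zs 3).deg = 1 / 3 := by rw [zs_deg3, al]; norm_num
  rw [e1, zs_deg3] at b
  have n1 : (⌊T ^ (1 / 1000 : ℝ)⌋₊ : ℝ) ≤ T ^ (1 / 1000 : ℝ) := Nat.floor_le (by positivity)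
  have k := av_near (W := T ^ (1 / 2 : ℝ)) (by positivity) hT0 d
    (P := C * (16 * T ^ (2 / 3 : ℝ)) * T ^ (1 / 1000 : ℝ))
    (P' := C * (2 * T ^ (-(1 / 3) : ℝ)) * T ^ (1 / 1000 : ℝ)) (fun y hy => by
      have y0 : 1 / 2 ≤ y := by linarith [hy.1]
      obtain ⟨b1, b2⟩ := b y y0
      have c1 : y ^ (1 / 3 : ℝ) ≤ 16 * T ^ (2 / 3 : ℝ) :=
        ((Real.rpow_le_rpow (by linarith) hy.2 (by norm_num)).trans
          (l4_four hT0.le (by norm_num))).trans (mul_le_mul_of_nonneg_left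
            (Real.rpow_le_rpow_of_exponent_le hT (by norm_num)) (by norm_num))
      have c2 : y ^ (1 / 3 + 1 / 3 - 1 : ℝ) ≤ 2 * T ^ (-(1 / 3) : ℝ) := by
        rw [show (1 / 3 + 1 / 3 - 1 : ℝ) = -(1 / 3) by norm_num]
        refine (Real.rpow_le_rpow_of_nonpos (by linarith) hy.1 (by norm_num)).trans ?_
        rw [Real.div_rpow hT0.le (by norm_num), Real.rpow_neg (x := 2) (by norm_num), div_inv_eq_mul,
          mul_comm]
        exact mul_le_mul_of_nonneg_right ((Real.rpow_le_rpow_of_exponent_le (by norm_num)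
          (by norm_num)).trans_eq (Real.rpow_one 2)) (by positivity)
      exact ⟨b1.trans (by gcongr), b2.trans (by gcongr)⟩) hx
  refine k.trans ?_
  have e2 : T * T ^ (-(1 / 3) : ℝ) = T ^ (2 / 3 : ℝ) := by
    rw [← Real.rpow_one_add' hT0.le (by norm_num)]
    norm_num
  have e3 : T ^ (2 / 3 : ℝ) * T ^ (1 / 1000 : ℝ) ≤ T ^ (3 / 10 : ℝ) * T ^ (1 / 2 : ℝ) := by
    rw [← Real.rpow_add hT0, ← Real.rpow_add hT0]
    exact Real.rpow_le_rpow_of_exponent_le hT (by norm_num)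
  rw [div_le_iff₀ (by positivity)]
  calc _ = 30 * (18 * C) * (T ^ (2 / 3 : ℝ) * T ^ (1 / 1000 : ℝ)) := by rw [← e2]; ring
    _ ≤ _ := by rw [mul_assoc (30 * (18 * C))]; gcongr

theorem hi_pt {r b θ s K : ℝ} (hr : 0 ≤ r) (hb : 0 ≤ b) (hs : 0 ≤ s) (hθ : 0 < θ) (hK : r ≤ K) :
    r ^ 3 * (s + b ^ 2) ≤ 2 * (r ^ 4 * θ ^ 2) + s ^ 4 / (θ ^ 2) ^ 3 + b ^ 7 * √K / θ ^ 5 := by
  have a1 := wta_young hr hs (pow_pos hθ 2)
  have a2 : r ^ 3 * b ^ 2 ≤ r ^ 4 * θ ^ 2 + b ^ 7 * √K / θ ^ 5 := by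
    rcases le_total (b ^ 2) (r * θ ^ 2) with h | h
    · refine le_add_of_le_of_nonneg ?_ (by positivity)
      exact (mul_le_mul_of_nonneg_left h (by positivity)).trans (le_of_eq (by ring))
    · refine le_add_of_nonneg_of_le (by positivity) ?_
      obtain ⟨ρ, ρ0, rfl⟩ : ∃ ρ, 0 ≤ ρ ∧ r = ρ ^ 2 := ⟨√r, Real.sqrt_nonneg r, (Real.sq_sqrt hr).symm⟩
      have a3 : ρ * θ ≤ b := le_of_pow_le_pow_left₀ two_ne_zero hb (by rwa [mul_pow])
      have a4 : ρ ≤ √K := Real.le_sqrt_of_sq_le hK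
      rw [le_div_iff₀ (by positivity)]
      calc _ = (ρ * θ) ^ 5 * b ^ 2 * ρ := by ring
        _ ≤ b ^ 5 * b ^ 2 * √K := by gcongr
        _ = _ := by ring
  linarith

theorem hi_four (hL : L.deg ≤ 1) :
    Bd (fun T => mo 4 (fun x => (zs 3).E x - (zs 3).B (T ^ (63 / 100 : ℝ)) x) L.w T)
      (232 / 100) := by
  obtain ⟨K₀, k0, k1⟩ := (zs 3).bd_near zero_le_one le_rfl
  obtain ⟨K₁, k2, k3⟩ := (zs 3).bd_near (w := 63 / 100) (by norm_num) (by norm_num)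
  obtain ⟨D₀, d0, d1⟩ := (zs 3).bd_B1 zero_le_one le_rfl
  obtain ⟨D₁, d2, d3⟩ := (zs 3).bd_B1 (w := 63 / 100) (by norm_num) (by norm_num)
  have n := fun (T : ℝ) (hT : 1 ≤ T) => ((zs 3).nice_Bw 1 hT).sub ((zs 3).nice_Bw (63 / 100) hT)
  have cl : ∀ (p : ℕ) (c : ℝ), 1 ≤ c →
      Bd (fun T => mu0 p (fun x => (zs 3).E x - (zs 3).B (T ^ (63 / 100 : ℝ)) x) T) c →
      Bd (fun T => mu0 p (fun x => (zs 3).B (T ^ (1 : ℝ)) x -
        (zs 3).B (T ^ (63 / 100 : ℝ)) x) T) c := fun p c hc hb => by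
    simp only [← mo_one] at hb ⊢
    exact close_bd (fun T hT => (n T hT).bm0)
      (fun T hT => ((zs 3).bm_E hT).sub ((zs 3).nice_Bw (63 / 100) hT).bm0) continuous_const
      (fun _ => zero_le_one) bd_one k0 (fun T hT x hx => by
        rw [sub_sub_sub_cancel_right, norm_sub_rev]
        exact k1 T hT x hx) hb (by simpa using hc)
  refine (zs 3).back L.continuous_w L.w_nonneg (L.bd_mass hL)
    (fun T hT => ((zs 3).nice_Bw (63 / 100) hT).bm0) (by norm_num) ?_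
  exact L.tm_sup hL (q := 2) (y := 37 / 100) (z := 158 / 100) (by norm_num) (by norm_num)
    (by norm_num) (by norm_num) n (d0.add d2)
    (fun T hT x hx => (norm_sub_le _ _).trans (add_le_add (d1 T hT x hx) (d3 T hT x hx)))
    ((k0.mono (by norm_num)).add (k2.mono (by norm_num)))
    (fun T hT x hx => (norm_sub_le_norm_sub_add_norm_sub _ ((zs 3).E x) _).trans
      (add_le_add ((norm_sub_rev _ _).trans_le (k1 T hT x hx)) (k3 T hT x hx)))
    (cl 4 _ (by norm_num) loa_four) (cl 2 _ (by norm_num) loa_ms) (by norm_num) (by norm_num)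

theorem hi2 (h : F.deg = 2) (hP : F.Vor P) (hL : L.deg ≤ 1) (hq : L.QP) :
    Bd (fun T => mo 3 (fun x => (zs 3).E x - (zs 3).B (T ^ (63 / 100 : ℝ)) x)
      (fun x => vw F T x * L.w x) T) (5 / 2 - 1 / 250) := by
  obtain ⟨K, k2, k3⟩ := (zs 3).bd_near (w := 63 / 100) (by norm_num) (by norm_num)
  have t1 := (((hi_four hL).mul_rpow (2 * (11 / 125))).const_mul zero_le_two).mono
    (d := 5 / 2 - 1 / 250) (by norm_num)
  have t2 := (((L.bd_mass hL).mul_rpow 2).div_rpow (6 * (11 / 125))).mono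
    (d := 5 / 2 - 1 / 250) (by norm_num)
  have t3 := (((b7 h hP hL hq).mul k2.sqrt fun T _ => Real.sqrt_nonneg _).div_rpow
    (5 * (11 / 125))).mono (d := 5 / 2 - 1 / 250) (by norm_num)
  refine ((t1.add t2).add t3).of_le fun T hT => ?_
  have T0 : 0 < T := by linarith
  have cw := L.continuous_w.continuousOn (s := Icc T (2 * T))
  have b := ((zs 3).bm_E hT).sub ((zs 3).nice_Bw (63 / 100) hT).bm0
  have i1 := ((b.int_pow T0.le 4 cw).mul_const (T ^ (2 * (11 / 125) : ℝ))).const_mul 2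
  have i2 := ((L.continuous_w.intervalIntegrable (μ := volume) T (2 * T)).mul_const
    (T ^ (2 : ℝ))).div_const (T ^ (6 * (11 / 125) : ℝ))
  have i3 := (((F.nice_Bw 1 hT).bm0.int_pow T0.le 7 cw).mul_const √(K T)).div_const
    (T ^ (5 * (11 / 125) : ℝ))
  simp only [mo]
  rw [← intervalIntegral.integral_mul_const, ← intervalIntegral.integral_mul_const,
    ← intervalIntegral.integral_mul_const, ← intervalIntegral.integral_const_mul,
    ← intervalIntegral.integral_div, ← intervalIntegral.integral_div,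
    ← intervalIntegral.integral_add i1 i2, ← intervalIntegral.integral_add (i1.add i2) i3]
  refine intervalIntegral.integral_mono_on (by linarith)
    (b.int_pow T0.le 3 ((vw_cont F T0).continuousOn.mul cw)) ((i1.add i2).add i3) fun x hx => ?_
  have a := hi_pt (norm_nonneg _) (norm_nonneg (F.B (T ^ (1 : ℝ)) x)) (Real.sqrt_nonneg T)
    (Real.rpow_pos_of_pos T0 (11 / 125)) (k3 T hT x hx)
  rw [← pow_mul, rpow_pow hT, rpow_pow hT, rpow_pow hT, show √T ^ 4 = (√T * √T) ^ 2 by ring,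
    Real.mul_self_sqrt T0.le, ← Real.rpow_two T] at a
  rw [vw_eq hx, ← mul_assoc]
  refine (mul_le_mul_of_nonneg_right a (L.w_nonneg x)).trans (le_of_eq ?_)
  push_cast
  ring

theorem key2 (h : F.deg = 2) (hP : F.Vor P) (hL : L.deg ≤ 1) (hq : L.QP) :
    Bd (fun T => mo 3 (fun x => (zs 3).E x - (zs 3).Hs P3 (1 / 1000) T x)
      (fun x => vw F T x * L.w x) T) (5 / 2 - 1 / 100000) := by
  obtain ⟨Λ, V', h1, h2, h3⟩ := wg2 h hP hL hq
  obtain ⟨C₂, hC₂, H₂⟩ := lo2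
  have k1 := (hi2 h hP hL hq).mono (d := 5 / 2 - 1 / 100000) (by norm_num)
  have k2 := ((h1.const_mul hC₂.le).mul_rpow (5 / 2 - 1 / 50000)).mono
    (d := 5 / 2 - 1 / 100000) (by norm_num)
  have k3 := (mid2 h hP hL hq).mono (d := 5 / 2 - 1 / 100000) (by norm_num)
  refine ((k1.const_mul (K := 4) (by norm_num)).add (((k3.const_mul (K := 4) (by norm_num)).add
    (k2.const_mul (K := 4) (by norm_num))).const_mul (K := 4) (by norm_num))).of_le fun T hT => ?_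
  have w0 : √T ≤ T ^ (1 / 2 + 1 / 12000 : ℝ) := by
    rw [Real.sqrt_eq_rpow]
    exact Real.rpow_le_rpow_of_exponent_le hT (by norm_num)
  have w1 : T ^ (1 / 2 + 1 / 12000 : ℝ) ≤ T ^ (2 / 3 : ℝ) :=
    Real.rpow_le_rpow_of_exponent_le hT (by norm_num)
  have hT0 : 0 ≤ T := by linarith
  have g := (h3 T _ hT w0 (by linarith [Real.rpow_nonneg hT0 (2 / 3)])).1
  have b1 := ((zs 3).nice_Bw (63 / 100) hT).bm0
  have b2 := ((zs 3).nice_Bw (1 / 2 + 1 / 12000) hT).bm0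
  have b3 := (zs 3).bm_Hs P3 (1 / 1000) hT
  have r1 := mo3_tri hT0 g.cont g.pos ((zs 3).bm_E hT) b1 b3
  have r2 := mo3_tri hT0 g.cont g.pos b1 b2 b3
  have r4 := H₂ _ T _ _ hT (h2 T) g
  linarith

theorem kh_four : ∃ B : ℝ → ℝ, Bd B (7 / 3) ∧ ∀ T, 1 ≤ T → ∀ M N : ℕ, 1 ≤ M → N ≤ 2 * M →
    (M : ℝ) ≤ T ^ (1 / 3 : ℝ) → wd 4 ((zs 3).H P3 M N) T ≤ B T := by
  obtain ⟨B, b1, -, b2⟩ := bd_unif' (c := 7 / 3)
    (S := fun T => {p : ℕ × ℕ | 1 ≤ p.1 ∧ p.2 ≤ 2 * p.1 ∧ (p.1 : ℝ) ≤ T ^ (1 / 3 : ℝ)})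
    (φ := fun T p => wd 4 ((zs 3).H P3 p.1 p.2) T) fun ε hε => by
      obtain ⟨C, hC, h⟩ := l4_H (zs 3) zs_deg3 vor3.1 hε
      refine ⟨2 * C, fun T hT p hp => (h _ _ T hT hp.1 hp.2.1).trans ?_⟩
      have h0 : 0 < T := by linarith
      have m4 : T ^ 2 * (p.1 : ℝ) ≤ T ^ (7 / 3 : ℝ) := by
        refine (mul_le_mul_of_nonneg_left hp.2.2 (by positivity)).trans (le_of_eq ?_)
        rw [← Real.rpow_natCast, ← Real.rpow_add h0]
        norm_num
      have m5 : (p.1 : ℝ) ^ ε ≤ T ^ ε := Real.rpow_le_rpow (by positivity)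
        (hp.2.2.trans (p1_W (by norm_num) (by norm_num) hT).2) hε.le
      calc _ ≤ C * T ^ ε * (T ^ (7 / 3 : ℝ) + T ^ (7 / 3 : ℝ)) := by gcongr
        _ = _ := by ring
  exact ⟨B, b1, fun T hT M N h1 h2 h3 => b2 T hT (M, N) ⟨h1, h2, h3⟩⟩

theorem kh_three : Bd (fun T => wd 3 ((zs 3).Hs P3 (1 / 1000) T) T) 2 := by
  obtain ⟨B, b1, b2⟩ := kh_four
  obtain ⟨C, hC, h⟩ := (zs 3).H_le P3 (by rw [zs_deg3]; norm_num) one_pos
  have J0 : ∀ T : ℝ, 1 ≤ T → (0 : ℝ) ≤ Jl T := fun _ _ => Nat.cast_nonneg _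
  have t1 := (((((bd_rpow (1 / 3)).const_mul (K := 4 * C) (by positivity)).pow
    (fun T hT => by have := rpow_nn hT (1 / 3); positivity) 4).const_mul (K := 8)
    (by norm_num)).mul_rpow (-(1 / 3))).mono (d := 1) (by norm_num)
  have t2 := ((t1.add bd_id).mul (bd_id.const_mul (K := 7 / 2) (by norm_num))
    fun T hT => by linarith).mono (d := 2) (by norm_num)
  have t3 := (((b1.mul bd_Jl J0).mul ((bd_Jl.pow J0 3).const_mul (K := 8) (by norm_num))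
    fun T _ => by positivity).mul_rpow (-(1 / 3))).mono (d := 2) (by norm_num)
  refine (t2.add t3).of_le fun T hT => ?_
  have T0 : 0 < T := by linarith
  have T4 : T / 2 ≤ 4 * T := by linarith
  have n1 := one_le_floor (γ := 1 / 1000) (by norm_num) hT
  have n2 : (⌊T ^ (1 / 1000 : ℝ)⌋₊ : ℝ) ≤ T ^ (1 / 3 : ℝ) :=
    (Nat.floor_le (by positivity)).trans (Real.rpow_le_rpow_of_exponent_le hT (by norm_num))
  rw [Sel.Hs]
  generalize ⌊T ^ (1 / 1000 : ℝ)⌋₊ = N at n1 n2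
  have n3 : N ≤ 2 ^ Jl T := by
    exact_mod_cast (n2.trans (p1_W (by norm_num) (by norm_num) hT).2).trans (Jl_le T)
  obtain ⟨f, hf⟩ : ∃ f : ℕ → ℝ → ℂ, f = fun j =>
    (zs 3).H P3 (min (1 * 2 ^ j) N) (min (1 * 2 ^ (j + 1)) N) := ⟨_, rfl⟩
  have i0 : ∀ j, IntervalIntegrable (fun y => ‖f j y‖ ^ 4) volume (T / 2) (4 * T) := fun j =>
    hf ▸ wd_int 4 ((zs 3).H_cont P3 _ _) (by linarith) (by linarith)
  have i1 := IntervalIntegrable.sum (Finset.range (Jl T)) fun j _ => i0 j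
  rw [Finset.sum_fn] at i1
  have i2 := (i1.mul_const (8 * (Jl T : ℝ) ^ 3)).mul_const (T ^ (-(1 / 3) : ℝ))
  have s1 : ∫ y in T / 2..4 * T, ∑ j ∈ Finset.range (Jl T), ‖f j y‖ ^ 4 ≤ B T * Jl T := by
    rw [intervalIntegral.integral_finsetSum fun j _ => i0 j]
    refine (Finset.sum_le_card_nsmul _ _ (B T) fun j _ => ?_).trans
      (by rw [Finset.card_range, nsmul_eq_mul, mul_comm])
    rw [hf]
    refine b2 T hT _ _ (le_min (by rw [one_mul]; exact Nat.one_le_two_pow) n1)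
      (by rw [pow_succ]; omega) (le_trans ?_ n2)
    exact_mod_cast min_le_right _ _
  have t0 := Real.rpow_pos_of_pos T0 (-(1 / 3))
  refine (intervalIntegral.integral_mono_on T4
    (wd_int 3 ((zs 3).H_cont P3 _ _) (by linarith) (by linarith))
    ((intervalIntegrable_const (c := 8 * (4 * C * T ^ (1 / 3 : ℝ)) ^ 4 * T ^ (-(1 / 3) : ℝ) + T)).add
      i2) fun y hy => ?_).trans ?_
  · have y0 : 0 < y := by linarith [hy.1]
    have a1 := h 0 1 y y0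
    rw [zs_deg3, al_three, Nat.cast_one, Real.one_rpow, mul_one] at a1
    have a2 := a1.trans (mul_le_mul_of_nonneg_left (vc1_four T0 (by norm_num) (by norm_num) hy)
      hC.le)
    have a3 : ‖(zs 3).H P3 0 N y‖ ≤ 4 * C * T ^ (1 / 3 : ℝ) +
        ∑ j ∈ Finset.range (Jl T), ‖f j y‖ := by
      rw [(zs 3).H_split P3 n1 y, lo_dy (zs 3) P3 le_rfl n1 n3, hf]
      exact (norm_add_le _ _).trans (add_le_add (by linarith) (norm_sum_le _ _))
    have a4 := (pow_le_pow_left₀ (norm_nonneg _) a3 4).trans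
      (add_pow_le (by positivity) (Finset.sum_nonneg fun _ _ => norm_nonneg _) 4)
    have a5 := pow_sum_le_card_mul_sum_pow (s := Finset.range (Jl T))
      (fun j _ => norm_nonneg (f j y)) 3
    have a6 := wta_young (norm_nonneg ((zs 3).H P3 0 N y)) zero_le_one t0
    rw [rpow_pow hT, mul_one, one_pow, show ((3 : ℕ) : ℝ) * -(1 / 3) = -1 by norm_num,
      Real.rpow_neg_one, one_div T⁻¹, inv_inv] at a6
    rw [Finset.card_range] at a5
    have a7 : ‖(zs 3).H P3 0 N y‖ ^ 4 ≤ 8 * (4 * C * T ^ (1 / 3 : ℝ)) ^ 4 +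
        (∑ j ∈ Finset.range (Jl T), ‖f j y‖ ^ 4) * (8 * (Jl T : ℝ) ^ 3) := by
      norm_num at a4 a5 ⊢
      linarith
    nlinarith [mul_le_mul_of_nonneg_left a7 t0.le]
  · rw [intervalIntegral.integral_add intervalIntegrable_const i2, intervalIntegral.integral_const,
      intervalIntegral.integral_mul_const, intervalIntegral.integral_mul_const, smul_eq_mul]
    refine add_le_add (le_of_eq (by ring)) ?_
    gcongr

theorem key2_H (h : F.deg = 2) (hP : F.Vor P) (hL : L.deg ≤ 1) (hq : L.QP) :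
    Bd (fun T => mo 3 ((zs 3).Hs P3 (1 / 1000) T) (fun x => vw F T x * L.w x) T) (5 / 2) := by
  obtain ⟨Λ, V', h1, h2, h3⟩ := wg2 h hP hL hq
  obtain ⟨C, hC, H⟩ := kh_near
  have Λ0 : ∀ T, 0 ≤ Λ T := fun T => zero_le_one.trans (h2 T)
  have k1 := ((((bd_rpow (3 / 10)).const_mul hC.le).pow
    (fun T hT => mul_nonneg hC.le (rpow_nn hT _)) 3).mul (h1.mul_rpow (3 / 2))
    fun T hT => mul_nonneg (Λ0 T) (rpow_nn hT _)).mono (d := 5 / 2) (by norm_num)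
  have k2 := (((h1.mul_rpow (1 / 2)).const_mul zero_le_two).mul kh_three
    fun T hT => wd_nonneg _ _ (by linarith)).mono (d := 5 / 2) (by norm_num)
  refine ((k1.const_mul (K := 4) (by norm_num)).add
    (k2.const_mul (K := 4) (by norm_num))).of_le fun T hT => ?_
  have T0 : 0 < T := by linarith
  have w1 : T ^ (1 / 2 : ℝ) ≤ T ^ (2 / 3 : ℝ) := Real.rpow_le_rpow_of_exponent_le hT (by norm_num)
  have W0 := Real.rpow_pos_of_pos T0 (1 / 2)
  have g := (h3 T (T ^ (1 / 2 : ℝ)) hT (Real.sqrt_eq_rpow T).le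
    (by linarith [Real.rpow_nonneg T0.le (2 / 3)])).1
  have cH : ContinuousOn ((zs 3).Hs P3 (1 / 1000) T) (Ioi 0) := (zs 3).H_cont P3 0 _
  have b1 := (zs 3).bm_Hs P3 (1 / 1000) hT
  have b2 := bm_pos T0 (av_cont (W := T ^ (1 / 2 : ℝ)) cH)
  have r1 := mo3_tri (k := fun _ => 0) T0.le g.cont g.pos b1 b2 (Bm.of_cont continuousOn_const)
  have r2 := mo3_sup T0.le g (b1.sub b2) (mul_nonneg hC.le (rpow_nn hT _)) fun x hx =>
    (norm_sub_rev _ _).trans_le (H T hT x hx)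
  have r3 := (wt_jen T0 W0 g.cont g.pos cH).trans
    (wt_loc T0 W0 g (cH.norm.pow 3) fun _ => by positivity)
  simp only [sub_zero] at r1
  exact r1.trans (add_le_add (mul_le_mul_of_nonneg_left r2 (by norm_num))
    (mul_le_mul_of_nonneg_left r3 (by norm_num)))

end Pool.Agent.Lib.MP_2a1a00_nt
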