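import Pool.Agent.Lib.MP_2a1a00_nt.D.Nr1

/-! The local mean square of the primitive of the off-diagonal terms. -/

namespace Pool.Agent.Lib.MP_2a1a00_nt

open Complex MeasureTheory Set

theorem nr_short {q : ℕ} (hq : 0 < q) (n₀ : ℕ) : ∃ C : ℝ, 0 < C ∧
    ∀ (G : ℕ → ℂ) (A a b h : ℕ) (X x U R : ℝ),
    (∀ n, ‖G n‖ ≤ 1) → (∀ n, n₀ ≤ n → G (n + q) = G n) → 1 ≤ A → A ≤ a → a ≤ b → b ≤ 2 * A →
    1 ≤ h → h ≤ 2 * A → 0 < X → X ≤ |x| → |x| ≤ 8 * X → 0 < U → 1 ≤ R → √X ≤ R * U →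
    A ≤ R * √X → (b : ℝ) - a ≤ 4 * A ^ 2 / (U * h) + 1 →
    ‖∑ n ∈ Finset.Ico a b, G n * exp (I * (x * (Real.log (n + h) - Real.log n) : ℝ))‖ ≤
      C * (R * √(A / h)) := by
  obtain ⟨C, hC, H⟩ := nr_per hq n₀
  refine ⟨9 * C + 6, by positivity,
    fun G A a b h X x U R hG hp hA ha hab hb hh hh' hX x1 x2 hU hR r1 r2 hl => ?_⟩
  have k := H G A a b h X x hG hp hA ha hab hb hh hh' hX x1 x2
  have A0 : (0 : ℝ) < A := by exact_mod_cast hA
  have h0 : (0 : ℝ) < h := by exact_mod_cast hh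
  have h2 : (h : ℝ) ≤ 2 * A := by exact_mod_cast hh'
  have ab : (0 : ℝ) ≤ (b : ℝ) - a := sub_nonneg.2 (by exact_mod_cast hab)
  obtain ⟨p, hp'⟩ : ∃ p, p = √((A : ℝ) / h) := ⟨_, rfl⟩
  obtain ⟨y, hy⟩ : ∃ y, y = √X := ⟨_, rfl⟩
  have p0 : 0 < p := by rw [hp']; positivity
  have y0 : 0 < y := by rw [hy]; positivity
  have p2 : p ^ 2 = A / h := by rw [hp', Real.sq_sqrt (by positivity)]
  have p3 : p ^ 2 * h = A := by rw [p2]; field_simp
  have y2 : X = y ^ 2 := by rw [hy, Real.sq_sqrt hX.le]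
  have e1 : √(X * h / A) = y / p := by
    rw [show X * h / A = (y / p) ^ 2 by rw [div_pow, p2, y2]; field_simp,
      Real.sqrt_sq (by positivity)]
  have e2 : √((A : ℝ) ^ 3 / (X * h)) = A * p / y := by
    rw [show (A : ℝ) ^ 3 / (X * h) = (A * p / y) ^ 2 by
      rw [div_pow, mul_pow, p2, y2]; field_simp, Real.sqrt_sq (by positivity)]
  rw [e1, e2] at k
  rw [← hy] at r1 r2
  rw [← hp']
  have a1 : 1 ≤ 2 * p := by
    by_contra hc
    push Not at hc
    have : p ^ 2 ≤ (1 / 2) ^ 2 := by gcongr; linarith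
    nlinarith
  have a2 : 1 ≤ 2 * (R * p) := by nlinarith
  have a3 : A * p / y ≤ R * p := by
    rw [div_le_iff₀ y0]
    nlinarith
  have a4 : 4 * A ^ 2 / (U * h) * (y / p / A) ≤ 4 * (R * p) := by
    rw [show 4 * A ^ 2 / (U * h) * (y / p / A) = 4 * (y / U * p) by
      rw [← p3]; field_simp]
    gcongr
    rwa [div_le_iff₀ hU]
  have l0 : 0 ≤ 4 * A ^ 2 / (U * h) := by positivity
  have s0 : 0 ≤ y / p / A := by positivity
  generalize 4 * (A : ℝ) ^ 2 / (U * h) = l at a4 l0 hl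
  generalize y / p / A = s at a4 s0 k
  have a5 : 0 ≤ C * (R * p) := by positivity
  rcases le_total s 1 with hs | hs
  · refine k.trans ?_
    have a6 : ((b : ℝ) - a + 1) * s + A * p / y ≤ 9 * (R * p) := by
      nlinarith [mul_le_mul_of_nonneg_right hl s0]
    nlinarith [mul_le_mul_of_nonneg_left a6 hC.le]
  · have a6 : ‖∑ n ∈ Finset.Ico a b, G n * exp (I * (x * (Real.log (n + h) - Real.log n) : ℝ))‖ ≤
        ∑ n ∈ Finset.Ico a b, (1 : ℝ) := by
      refine norm_sum_le_of_le _ fun n _ => ?_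
      rw [norm_mul, norm_ei, mul_one]
      exact hG n
    rw [Finset.sum_const, Nat.card_Ico, nsmul_eq_mul, mul_one, Nat.cast_sub hab] at a6
    nlinarith [mul_le_mul_of_nonneg_left hs l0]

theorem nr_cut {p : ℕ → Prop} {a b : ℕ} (hab : a ≤ b)
    (hp : ∀ m n, a ≤ m → m ≤ n → n < b → p m → p n) :
    ∃ c, a ≤ c ∧ c ≤ b ∧ ∀ n, a ≤ n → n < b → (p n ↔ c ≤ n) := by
  classical
  have hex : ∃ c, a ≤ c ∧ (b ≤ c ∨ p c) := ⟨b, hab, Or.inl le_rfl⟩
  have h1 := Nat.find_spec hex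
  refine ⟨Nat.find hex, h1.1, Nat.find_min' hex ⟨hab, Or.inl le_rfl⟩, fun n hn hn' =>
    ⟨fun h => Nat.find_min' hex ⟨hn, Or.inr h⟩, fun h => ?_⟩⟩
  exact hp _ _ h1.1 h hn' (h1.2.resolve_left (by omega))

theorem nr_int {θ : ℕ → ℝ} {a b : ℕ} {μ δ : ℝ} (hab : a ≤ b) (hμ : 0 < μ) (hδ : 0 < δ)
    (hm : ∀ n, a ≤ n → n + 1 < b → μ ≤ -θ (n + 1) - -θ n) (x : ℝ) :
    ∃ c d, a ≤ c ∧ c ≤ d ∧ d ≤ b ∧ (d : ℝ) - c ≤ δ / μ + 1 ∧ ∀ f : ℕ → ℂ,
      ∑ n ∈ Finset.Ico a b, (if θ n - δ < x ∧ x ≤ θ n then f n else 0) =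
        ∑ n ∈ Finset.Ico c d, f n := by
  have lo : ∀ m n, a ≤ m → m ≤ n → n < b → -θ m + μ * ((n : ℝ) - m) ≤ -θ n := fun m n h1 h2 h3 =>
    vvd_low (δ := fun n => -θ n) hm h1 h2 h3
  have an : ∀ m n, a ≤ m → m ≤ n → n < b → θ n ≤ θ m := fun m n h1 h2 h3 => by
    have h4 : (0 : ℝ) ≤ (n : ℝ) - m := sub_nonneg.2 (by exact_mod_cast h2)
    linarith [lo m n h1 h2 h3, mul_nonneg hμ.le h4]
  obtain ⟨c, c1, c2, c3⟩ := nr_cut (p := fun n => θ n - δ < x) hab fun m n h1 h2 h3 h => by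
    linarith [an m n h1 h2 h3]
  obtain ⟨d, d1, d2, d3⟩ := nr_cut (p := fun n => θ n < x) hab fun m n h1 h2 h3 h =>
    (an m n h1 h2 h3).trans_lt h
  refine ⟨c, max c d, c1, le_max_left _ _, max_le c2 d2, ?_, fun f => ?_⟩
  · rcases le_or_gt d c with h | h
    · rw [max_eq_left h, sub_self]
      positivity
    · obtain ⟨e, rfl⟩ : ∃ e, d = e + 1 := ⟨d - 1, by omega⟩
      rw [max_eq_right h.le]
      have h1 := (c3 c c1 (by omega)).2 le_rfl
      have h2 := (d3 e (by omega) (by omega)).not.2 (by omega)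
      have h3 := lo c e c1 (by omega) (by omega)
      have h4 : (e : ℝ) - c ≤ δ / μ := by
        rw [le_div_iff₀ hμ]
        linarith [not_lt.1 h2]
      push_cast
      linarith
  · rw [← Finset.sum_filter]
    refine Finset.sum_congr (Finset.ext fun n => ?_) fun _ _ => rfl
    rw [Finset.mem_filter, Finset.mem_Ico, Finset.mem_Ico, lt_max_iff]
    constructor
    · rintro ⟨⟨h1, h2⟩, h3, h4⟩
      exact ⟨(c3 n h1 h2).1 h3, Or.inr (not_le.1 ((d3 n h1 h2).not.1 (not_lt.2 h4)))⟩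
    · rintro ⟨h1, h2⟩
      have h3 : n < d := by omega
      exact ⟨⟨by omega, by omega⟩, (c3 n (by omega) (by omega)).2 h1,
        not_lt.1 ((d3 n (by omega) (by omega)).not.2 (by omega))⟩

theorem nr_th {A n h : ℕ} (hA : 1 ≤ A) (hn : A ≤ n) (hn' : n ≤ 2 * A) (hh : 1 ≤ h)
    (hh' : h ≤ 2 * A) : 0 < Real.log (n + h) - Real.log n ∧
      Real.log (n + h) - Real.log n ≤ h / A ∧ 1 / (Real.log (n + h) - Real.log n) ≤ 4 * A / h := by
  have h1 : (0 : ℝ) < A := by exact_mod_cast hA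
  have h2 : (A : ℝ) ≤ n := by exact_mod_cast hn
  have h3 : (0 : ℝ) < h := by exact_mod_cast hh
  have h4 := vwb_th hA hn hn' hh'
  refine ⟨lt_of_lt_of_le (by positivity) h4, (vwb_log (by linarith) h3.le).2.trans (by gcongr), ?_⟩
  calc _ ≤ 1 / ((h : ℝ) / (4 * A)) := by gcongr
    _ = _ := by field_simp

theorem nr_u1 {A n h : ℕ} (hA : 1 ≤ A) (hn : A ≤ n) (hn' : n < 2 * A) (hh : 1 ≤ h)
    (hh' : h ≤ 2 * A) : |1 / (Real.log ((n + 1 : ℕ) + h) - Real.log (n + 1 : ℕ)) -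
      1 / (Real.log (n + h) - Real.log n)| ≤ 16 / h := by
  have h0 := vwb_u1 hA hn hn' hh hh'
  obtain ⟨a1, a2, -⟩ := nr_th hA (hn.trans n.le_succ) hn' hh hh'
  obtain ⟨b1, b2, -⟩ := nr_th hA hn hn'.le hh hh'
  have h1 : (0 : ℝ) < A := by exact_mod_cast hA
  have h3 : (0 : ℝ) < h := by exact_mod_cast hh
  generalize Real.log ((n + 1 : ℕ) + h) - Real.log (n + 1 : ℕ) = u at *
  generalize Real.log (n + h) - Real.log n = v at *
  have k : ∀ w : ℝ, 0 < w → w ≤ h / A → A / h ≤ 1 / w := fun w w0 w1 =>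
    (one_div_div (h : ℝ) A).ge.trans (one_div_le_one_div_of_le w0 w1)
  have e : 1 / u ^ 2 - 1 / v ^ 2 = (1 / u - 1 / v) * (1 / u + 1 / v) := by ring
  rw [e, abs_mul, abs_of_pos (by positivity : 0 < 1 / u + 1 / v)] at h0
  have h4 : |1 / u - 1 / v| * (2 * (A / h)) ≤ 16 / h * (2 * (A / h)) :=
    calc _ ≤ |1 / u - 1 / v| * (1 / u + 1 / v) := by
          gcongr
          linarith [k u a1 a2, k v b1 b2]
      _ ≤ 32 * A / h ^ 2 := h0
      _ = _ := by field_simp; norm_num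
  exact le_of_mul_le_mul_right h4 (by positivity)

theorem nr_gap {A n h : ℕ} (hA : 1 ≤ A) (hn : A ≤ n) (hn' : n < 2 * A) (hh : 1 ≤ h)
    (hh' : h ≤ 2 * A) : (h : ℝ) / (8 * A ^ 2) ≤
      -(Real.log ((n + 1 : ℕ) + h) - Real.log (n + 1 : ℕ)) - -(Real.log (n + h) - Real.log n) := by
  have h1 : (0 : ℝ) < A := by exact_mod_cast hA
  have h2 : (A : ℝ) ≤ n := by exact_mod_cast hn
  have h3 : (0 : ℝ) < h := by exact_mod_cast hh
  have h4 : (n : ℝ) + 1 ≤ 2 * A := by exact_mod_cast hn'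
  have h6 : (h : ℝ) ≤ 2 * A := by exact_mod_cast hh'
  have hn0 : (0 : ℝ) < n := by linarith
  have h5 := (vwb_log (t := n * (n + 1 + h)) (by positivity) h3.le).1
  rw [show (n : ℝ) * (n + 1 + h) + h = (n + 1) * (n + h) by ring,
    Real.log_mul (by positivity) (by positivity), Real.log_mul hn0.ne' (by positivity)] at h5
  have h7 : (h : ℝ) / (8 * A ^ 2) ≤ h / ((n + 1) * (n + h)) := by
    refine div_le_div_of_nonneg_left h3.le (by positivity) ?_
    calc ((n : ℝ) + 1) * (n + h) ≤ 2 * A * (4 * A) := by gcongr; linarith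
      _ = _ := by ring
  rw [Nat.cast_succ]
  linarith

theorem nr_one {q : ℕ} (hq : 0 < q) (n₀ : ℕ) : ∃ C : ℝ, 0 < C ∧
    ∀ (G : ℕ → ℂ) (A a b h : ℕ) (X y U R : ℝ) (z : ℂ),
    (∀ n, ‖G n‖ ≤ 1) → (∀ n, n₀ ≤ n → G (n + q) = G n) → 1 ≤ A → A ≤ a → b ≤ 2 * A →
    1 ≤ h → h ≤ 2 * A → 0 < X → X ≤ |y| → |y| ≤ 8 * X → 0 < U → 1 ≤ R → √X ≤ R * U →
    A ≤ R * √X → 0 ≤ z.re →
    ∫ t in y - U..y + U, ‖∑ n ∈ Finset.Ico a b, G n * ((n * (n + h) : ℕ) : ℂ) ^ (-(1 / 2) - z) /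
        (Real.log (n + h) - Real.log n : ℝ) *
        exp (I * ((Real.log (n + h) - Real.log n) * t : ℝ))‖ ^ 2 ≤
      (1 / h) ^ 2 * (C * (1 + ‖z‖) ^ 2 * (R ^ 4 * U ^ 2)) := by
  obtain ⟨C, hC, H⟩ := nr_short hq n₀
  refine ⟨256 * (100 * C) ^ 2, by positivity,
    fun G A a b h X y U R z hG hp hA ha hb hh hh' hX y1 y2 hU hR r1 r2 hz => ?_⟩
  have A0 : (0 : ℝ) < A := by exact_mod_cast hA
  have h0 : (0 : ℝ) < h := by exact_mod_cast hh
  have h1 : (1 : ℝ) ≤ h := by exact_mod_cast hh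
  rcases le_or_gt b a with hab | hab
  · rw [Finset.Ico_eq_empty_of_le hab]
    simp only [Finset.sum_empty, norm_zero, ne_eq, OfNat.ofNat_ne_zero, not_false_eq_true, zero_pow,
      intervalIntegral.integral_zero]
    positivity
  have k := gal (Finset.Ico a b) (fun n => G n * ((n * (n + h) : ℕ) : ℂ) ^ (-(1 / 2) - z) /
    (Real.log (n + h) - Real.log n : ℝ)) (fun n => Real.log (n + h) - Real.log n) (α := 0)
    (β := h / A) (Z := 100 * C * (1 + ‖z‖) * (R * √(A / h)) / h) y hU (by positivity)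
    (fun n hn => by
      obtain ⟨n1, n2⟩ := Finset.mem_Ico.1 hn
      obtain ⟨t1, t2, -⟩ := nr_th hA (ha.trans n1) (by omega) hh hh'
      exact ⟨t1.le, t2⟩) fun x => by
      obtain ⟨c, d, c1, c2, c3, c4, c5⟩ := nr_int (θ := fun n => Real.log (n + h) - Real.log n)
        (μ := h / (8 * A ^ 2)) (δ := 1 / (2 * U)) hab.le (by positivity) (by positivity)
        (fun n n1 n2 => nr_gap hA (ha.trans n1) (by omega) hh hh') x
      rw [c5]
      have l1 : (d : ℝ) - c ≤ A := by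
        have : d ≤ c + A := by omega
        have : (d : ℝ) ≤ c + A := by exact_mod_cast this
        linarith
      have s0 : ∀ e, c ≤ e → e ≤ d → ‖∑ n ∈ Finset.Ico c e,
          G n * exp (I * (y * (Real.log (n + h) - Real.log n) : ℝ))‖ ≤ C * (R * √(A / h)) :=
        fun e e1 e2 => H G A c e h X y U R hG hp hA (by omega) e1 (by omega) hh hh' hX y1 y2 hU hR
          r1 r2 (by
            have : (e : ℝ) ≤ d := by exact_mod_cast e2
            have e3 : 1 / (2 * U) / (h / (8 * A ^ 2)) = 4 * A ^ 2 / (U * h) := by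
              field_simp
              norm_num
            linarith)
      have s1 : ∀ e, c ≤ e → e ≤ d → ‖∑ n ∈ Finset.Ico c e,
          ((n * (n + h) : ℕ) : ℂ) ^ (-(1 / 2) - z) *
            (G n * exp (I * (y * (Real.log (n + h) - Real.log n) : ℝ)))‖ ≤
          5 * (1 + ‖z‖) / A * (C * (R * √(A / h))) := fun e e1 e2 => by
        refine (abel (ω := fun n => ((n * (n + h) : ℕ) : ℂ) ^ (-(1 / 2) - z)) e1
          (fun f f1 f2 => s0 f f1 (f2.trans e2)) (fun n n1 _ => vwb_om0 hA (by omega) h hz)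
          fun n n1 _ => vwb_om1 hA (by omega) h hz).trans ?_
        have : (e : ℝ) ≤ d := by exact_mod_cast e2
        calc _ ≤ (1 / A + A * (4 * (1 + ‖z‖) / A ^ 2)) * (C * (R * √(A / h))) := by
              gcongr
              linarith
          _ = (1 + 4 * (1 + ‖z‖)) / A * (C * (R * √(A / h))) := by field_simp
          _ ≤ _ := by
              gcongr
              linarith [norm_nonneg z]
      have s2 := abel (ω := fun n : ℕ => ((1 / (Real.log (n + h) - Real.log n) : ℝ) : ℂ))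
        (ω₀ := 4 * A / h) (ω₁ := 16 / h) c2 s1 (fun n n1 n2 => by
          obtain ⟨t1, -, t2⟩ := nr_th (n := n) hA (by omega) (by omega) hh hh'
          rwa [norm_real, Real.norm_of_nonneg (by positivity)]) fun n n1 n2 => by
          rw [← ofReal_sub, norm_real, Real.norm_eq_abs]
          exact nr_u1 hA (by omega) (by omega) hh hh'
      refine le_trans (le_of_eq ?_) (s2.trans ?_)
      · congr 1
        refine Finset.sum_congr rfl fun n _ => ?_
        rw [mul_comm y, ofReal_div, ofReal_one]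
        ring
      · calc _ ≤ (4 * A / h + A * (16 / h)) * (5 * (1 + ‖z‖) / A * (C * (R * √(A / h)))) := by
              gcongr
          _ = _ := by field_simp; ring
  refine k.trans ?_
  have a1 : (A : ℝ) ≤ R ^ 2 * U := r2.trans (by nlinarith)
  have a2 : A / h * (h / A - 0 + 1 / (2 * U)) ≤ 2 * R ^ 2 := by
    have a3 : A / h * (1 / (2 * U)) ≤ R ^ 2 := by
      rw [div_mul_div_comm, mul_one, div_le_iff₀ (by positivity)]
      nlinarith [mul_le_mul_of_nonneg_left h1 (by positivity : 0 ≤ R ^ 2 * U)]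
    have a4 : (A : ℝ) / h * (h / A) = 1 := by field_simp
    nlinarith
  calc _ = 128 * (100 * C) ^ 2 * (1 + ‖z‖) ^ 2 * R ^ 2 * U ^ 2 / h ^ 2 *
        (√(A / h) ^ 2 * (h / A - 0 + 1 / (2 * U))) := by ring
    _ ≤ 128 * (100 * C) ^ 2 * (1 + ‖z‖) ^ 2 * R ^ 2 * U ^ 2 / h ^ 2 * (2 * R ^ 2) := by
        rw [Real.sq_sqrt (by positivity)]
        gcongr
    _ = _ := by ring

end Pool.Agent.Lib.MP_2a1a00_nt
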