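import Pool.Agent.Lib.MP_2a1a00_nt.D.Nr2

/-! The local mean square of the primitive of the off-diagonal terms, all pairs. -/

namespace Pool.Agent.Lib.MP_2a1a00_nt

open Complex MeasureTheory Set

theorem nr_near {q : ℕ} (hq : 0 < q) (n₀ : ℕ) : ∃ C : ℝ, 0 < C ∧
    ∀ (G : ℕ → ℕ → ℂ) (Y : ℕ) (X y U R : ℝ) (z : ℂ),
    (∀ h n, ‖G h n‖ ≤ 1) → (∀ h n, n₀ ≤ n → G h (n + q) = G h n) → 1 ≤ Y → 0 < X → X ≤ |y| →
    |y| ≤ 8 * X → 0 < U → 1 ≤ R → √X ≤ R * U → Y ≤ R ^ 2 * X → 0 ≤ z.re →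
    ∫ t in y - U..y + U, ‖∑ p ∈ (Pr Y).filter fun p => p.1 < p.2 ∧ p.2 < 2 * p.1,
        G (p.2 - p.1) p.1 * ((p.1 * p.2 : ℕ) : ℂ) ^ (-(1 / 2) - z) /
          (Real.log p.2 - Real.log p.1 : ℝ) *
          exp (I * ((Real.log p.2 - Real.log p.1) * t : ℝ))‖ ^ 2 ≤
      C * (1 + Real.log Y) ^ 4 * (1 + ‖z‖) ^ 2 * (R ^ 4 * U ^ 2) := by
  obtain ⟨C, hC, hb⟩ := nr_one hq n₀
  refine ⟨16 * C, by positivity, fun G Y X y U R z hG hp hY hX y1 y2 hU hR r1 r2 hz => ?_⟩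
  choose a b ha hb' hab using fun j h : ℕ => vwc_int (2 ^ j) h Y
  simp only [vwc_split Y a b hab, Nat.add_sub_cancel_left, Nat.cast_add _ (_ : ℕ) (R := ℝ)]
  have l0 : 0 ≤ Real.log Y := Real.log_natCast_nonneg Y
  obtain ⟨Z, hZ⟩ : ∃ Z, Z = C * (1 + ‖z‖) ^ 2 * (R ^ 4 * U ^ 2) := ⟨_, rfl⟩
  have Z0 : 0 ≤ Z := by rw [hZ]; positivity
  refine (loc_sum (w := fun _ => 1) (Z := (2 * (1 + Real.log Y)) ^ 2 * Z) _ (by linarith)
    (fun j _ => by fun_prop) (fun _ _ => one_pos) fun j _ => ?_).trans ?_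
  · rw [one_pow, one_mul]
    rcases le_or_gt ((2 ^ j) ^ 2) Y with hj | hj
    · have j1 : ((2 ^ j : ℕ) : ℝ) ^ 2 ≤ Y := by exact_mod_cast hj
      have j2 : (1 : ℝ) ≤ (2 ^ j : ℕ) := by exact_mod_cast Nat.one_le_two_pow
      refine (loc_sum (w := fun h : ℕ => 1 / (h : ℝ)) (Z := Z) _ (by linarith)
        (fun j _ => by fun_prop) (fun h hh => by
          have : (0 : ℝ) < h := by exact_mod_cast (Finset.mem_Icc.1 hh).1
          positivity) fun h hh => ?_).trans ?_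
      · rw [hZ]
        refine hb (G h) (2 ^ j) (a j h) (b j h) h X y U R z (hG h) (hp h) Nat.one_le_two_pow (ha j h)
          (hb' j h) (Finset.mem_Icc.1 hh).1 (Finset.mem_Icc.1 hh).2 hX y1 y2 hU hR r1 ?_ hz
        refine le_of_pow_le_pow_left₀ two_ne_zero (by positivity) ?_
        rw [mul_pow, Real.sq_sqrt hX.le]
        exact j1.trans r2
      · gcongr
        refine (harm_le _).trans ?_
        have j3 : Real.log (2 * 2 ^ j : ℕ) ≤ 1 + Real.log Y := by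
          rw [Nat.cast_mul, Real.log_mul (by norm_num) (by linarith), Nat.cast_ofNat]
          exact add_le_add (by linarith [Real.log_two_lt_d9])
            (Real.log_le_log (by linarith) (by nlinarith))
        linarith
    · have e : ∀ h, Finset.Ico (a j h) (b j h) = ∅ := fun h =>
        Finset.eq_empty_of_forall_notMem fun n hn => by
        obtain ⟨h1, -, -, h2⟩ := (hab j h n).1 hn
        have h3 := Nat.pow_le_pow_left h1 2
        have h4 : n ^ 2 ≤ n * (n + h) := by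
          rw [sq]
          exact Nat.mul_le_mul_left _ (Nat.le_add_right _ _)
        omega
      simp only [e, Finset.sum_empty, Finset.sum_const_zero, norm_zero, ne_eq, OfNat.ofNat_ne_zero,
        not_false_eq_true, zero_pow, intervalIntegral.integral_zero]
      positivity
  · rw [Finset.sum_const, Finset.card_range, nsmul_eq_mul, mul_one]
    calc _ ≤ (2 * (1 + Real.log Y)) ^ 2 * ((2 * (1 + Real.log Y)) ^ 2 * Z) := by
          gcongr
          exact vwc_log hY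
      _ = _ := by rw [hZ]; ring

theorem nr_prim {q : ℕ} (hq : 0 < q) (n₀ : ℕ) {ε : ℝ} (hε : 0 < ε) : ∃ C : ℝ, 0 < C ∧
    ∀ (g : ℕ → ℂ) (Y : ℕ) (z : ℂ), (∀ n, ‖g n‖ ≤ 1) → (∀ n, n₀ ≤ n → g (n + q) = g n) → 1 ≤ Y →
    0 ≤ z.re → ∃ (D : ℂ) (Φ : ℝ → ℂ), ‖D‖ ≤ C * (Y : ℝ) ^ ε ∧
      (∀ t, HasDerivAt Φ (PP (fun p => g p.1 * (starRingEnd ℂ) (g p.2) *
        ((p.1 * p.2 : ℕ) : ℂ) ^ (-(1 / 2) - z)) (Pr Y) t - D) t) ∧
      ∀ X y U R : ℝ, 0 < X → X ≤ |y| → |y| ≤ 8 * X → 1 ≤ U → 1 ≤ R → √X ≤ R * U → Y ≤ R ^ 2 * X →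
        ∫ t in y - U..y + U, ‖Φ t‖ ^ 2 ≤ C * (Y : ℝ) ^ ε * (1 + ‖z‖) ^ 2 * (R ^ 4 * U ^ 2) := by
  obtain ⟨C₁, hC₁, h₁⟩ := dg_le hε
  obtain ⟨C₂, hC₂, h₂⟩ := ps_far hε
  obtain ⟨C₃, hC₃, h₃⟩ := nr_near hq n₀
  obtain ⟨C₄, hC₄, h₄⟩ := log_le_rpow (ε := ε / 4) (by positivity)
  refine ⟨C₁ + 48 * C₂ + 6 * (C₃ * C₄ ^ 4), by positivity, fun g Y z hg hp hY hz => ?_⟩
  have hY' : (1 : ℝ) ≤ Y := by exact_mod_cast hY
  set c : ℕ × ℕ → ℂ := fun p => g p.1 * (starRingEnd ℂ) (g p.2) *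
    ((p.1 * p.2 : ℕ) : ℂ) ^ (-(1 / 2) - z) with hc
  have hcw : ∀ p ∈ Pr Y, ‖c p‖ ≤ w0 p := fun p hp => vwc_co hg hz hp
  have y0 : 0 ≤ (Y : ℝ) ^ ε := by positivity
  have e0 : PP (fun p => c p / (I * fr p)) (Pr Y) =
      PP (fun p => c p / (I * fr p)) ((Pr Y).filter fun p => p.1 ≠ p.2) := funext fun t => by
    refine (Finset.sum_subset (Finset.filter_subset _ _) fun p hp hp' => ?_).symm
    have : p.1 = p.2 := by simpa [hp] using hp'
    simp [fr, this]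
  refine ⟨dg c Y, PP (fun p => c p / (I * fr p)) (Pr Y), ?_, fun t => ?_,
    fun X y U R hX y1 y2 hU hR r1 r2 => ?_⟩
  · refine (h₁ Y c 1 hY zero_le_one fun p hp => by rw [one_mul]; exact hcw p hp).trans ?_
    rw [mul_one]
    gcongr
    have : 0 ≤ C₃ * C₄ ^ 4 := by positivity
    linarith
  · rw [e0]
    refine (hasDerivAt_PP c (fun p hp => fr_ne (Finset.mem_filter.1 hp).1
      (Finset.mem_filter.1 hp).2) t).congr_deriv ?_
    rw [eq_sub_iff_add_eq, PP, PP, dg, add_comm,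
      ← Finset.sum_filter_add_sum_filter_not (Pr Y) fun p => p.1 = p.2]
    congr 1
    refine Finset.sum_congr rfl fun p hp => ?_
    simp [osc, fr, (Finset.mem_filter.1 hp).2]
  have hn : ∀ (m n : ℕ) (u : ℂ), ‖u‖ = 1 → ‖g m * (starRingEnd ℂ) (g n) / u‖ ≤ 1 := fun m n u hu => by
    rw [norm_div, hu, div_one, norm_mul, RCLike.norm_conj]
    exact mul_le_one₀ (hg _) (norm_nonneg _) (hg _)
  have hp' : ∀ h n, n₀ ≤ n → g (n + q + h) = g (n + h) := fun h n hn => by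
    rw [add_right_comm, hp _ (by omega)]
  have U0 : 0 < U := by linarith
  have b2 := ps3_two (Q := fun _ => True) (w := w0)
    (fun S γ h1 _ h2 => h₂ Y S γ (y - U) (2 * U) hY h1 (by linarith) h2)
    ((Pr Y).filter fun p => 2 * p.1 ≤ p.2 ∨ 2 * p.2 ≤ p.1) (fun p => c p / (I * fr p))
    (Finset.filter_subset _ _) (fun _ _ => trivial) fun p hp => by
      obtain ⟨a1, a2⟩ := Finset.mem_filter.1 hp
      rw [ps3_norm]
      exact mul_le_mul (inv_fr_far (mem_Pr.1 a1).1 (mem_Pr.1 a1).2.1 a2.symm) (hcw p a1)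
        (norm_nonneg _) zero_le_two
  have b3 := h₃ (fun h n => g n * (starRingEnd ℂ) (g (n + h)) / I) Y X y U R z
    (fun h n => hn _ _ _ norm_I) (fun h n hn => by simp only [hp n hn, hp' h n hn]) hY hX y1 y2 U0
    hR r1 r2 hz
  have b4 := h₃ (fun h n => g (n + h) * (starRingEnd ℂ) (g n) / -I) Y X (-y) U R z
    (fun h n => hn _ _ _ (by rw [norm_neg, norm_I]))
    (fun h n hn => by simp only [hp n hn, hp' h n hn]) hY hX (by rwa [abs_neg]) (by rwa [abs_neg])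
    U0 hR r1 r2 hz
  rw [show -y - U = -(y + U) by ring, show -y + U = -(y - U) by ring,
    ← intervalIntegral.integral_comp_neg] at b4
  rw [show y - U + 2 * U = y + U by ring] at b2
  obtain ⟨f, hf⟩ : ∃ f : Fin 3 → ℝ → ℂ, f = ![PP (fun p => c p / (I * fr p))
      ((Pr Y).filter fun p => 2 * p.1 ≤ p.2 ∨ 2 * p.2 ≤ p.1),
      fun t => ∑ p ∈ (Pr Y).filter fun p => p.1 < p.2 ∧ p.2 < 2 * p.1, c p / (I * fr p) * osc p t,
      fun t => ∑ p ∈ (Pr Y).filter fun p => p.1 < p.2 ∧ p.2 < 2 * p.1,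
        c p.swap / (I * fr p.swap) * osc p.swap t] := ⟨_, rfl⟩
  have e1 : ∀ t, PP (fun p => c p / (I * fr p)) (Pr Y) t = ∑ k, f k t := fun t => by
    rw [PP, vwc_four Y fun p => c p / (I * fr p) * osc p t, Fin.sum_univ_three, hf, dg,
      Finset.sum_eq_zero fun p hp => by simp [fr, (Finset.mem_filter.1 hp).2], zero_add]
    rfl
  have a0 : 1 ≤ (1 + ‖z‖) ^ 2 := one_le_pow₀ (by linarith [norm_nonneg z])
  have a1 : 2 * U + Y ≤ 4 * (R ^ 4 * U ^ 2) := by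
    have a2 : X ≤ (R * U) ^ 2 := by
      rw [← Real.sq_sqrt hX.le]
      gcongr
    have a3 : (Y : ℝ) ≤ R ^ 4 * U ^ 2 := r2.trans ((mul_le_mul_of_nonneg_left a2 (sq_nonneg R)).trans
      (le_of_eq (by ring)))
    have a4 : 1 ≤ R ^ 4 := one_le_pow₀ hR
    nlinarith [mul_le_mul_of_nonneg_right a4 (sq_nonneg U)]
  have a5 : (1 + Real.log Y) ^ 4 ≤ C₄ ^ 4 * (Y : ℝ) ^ ε := by
    refine (pow_le_pow_left₀ (by linarith [Real.log_nonneg hY']) (h₄ Y hY') 4).trans (le_of_eq ?_)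
    rw [mul_pow, ← Real.rpow_natCast (_ ^ (ε / 4)), ← Real.rpow_mul (by linarith)]
    norm_num
  obtain ⟨W, hW⟩ : ∃ W, W = (Y : ℝ) ^ ε * (1 + ‖z‖) ^ 2 * (R ^ 4 * U ^ 2) := ⟨_, rfl⟩
  have W0 : 0 ≤ W := by rw [hW]; positivity
  have a6 : C₃ * (1 + Real.log Y) ^ 4 * (1 + ‖z‖) ^ 2 * (R ^ 4 * U ^ 2) ≤ C₃ * C₄ ^ 4 * W :=
    calc _ ≤ C₃ * (C₄ ^ 4 * (Y : ℝ) ^ ε) * (1 + ‖z‖) ^ 2 * (R ^ 4 * U ^ 2) := by gcongr
      _ = _ := by rw [hW]; ring
  have a7 : 4 * (C₂ * (Y : ℝ) ^ ε * (2 * U + Y)) ≤ 16 * C₂ * W :=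
    calc _ ≤ 4 * (C₂ * ((Y : ℝ) ^ ε * (1 + ‖z‖) ^ 2) * (4 * (R ^ 4 * U ^ 2))) := by
          gcongr
          exact le_mul_of_one_le_right y0 a0
      _ = _ := by rw [hW]; ring
  have co : ∀ p, Continuous (osc p) := fun p => by
    unfold osc
    fun_prop
  have cf : ∀ k, Continuous (f k) := fun k => by
    rw [hf]
    fin_cases k
    · exact continuous_PP _ _
    · exact continuous_finsetSum _ fun p _ => continuous_const.mul (co p)
    · exact continuous_finsetSum _ fun p _ => continuous_const.mul (co p.swap)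
  have k1 : ∫ t in y - U..y + U, ‖f 0 t‖ ^ 2 ≤ 16 * C₂ * W := by
    rw [hf]
    exact b2.trans a7
  have k2 : ∫ t in y - U..y + U, ‖f 1 t‖ ^ 2 ≤ C₃ * C₄ ^ 4 * W := by
    refine le_trans (le_of_eq ?_) (b3.trans a6)
    refine intervalIntegral.integral_congr fun t _ => congrArg (fun u : ℂ => ‖u‖ ^ 2) ?_
    rw [hf]
    refine Finset.sum_congr rfl fun p hp => ?_
    rw [Nat.add_sub_cancel' (Finset.mem_filter.1 hp).2.1.le, ← div_div, hc]
    simp only [osc, fr]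
    ring
  have k3 : ∫ t in y - U..y + U, ‖f 2 t‖ ^ 2 ≤ C₃ * C₄ ^ 4 * W := by
    refine le_trans (le_of_eq ?_) (b4.trans a6)
    refine intervalIntegral.integral_congr fun t _ => congrArg (fun u : ℂ => ‖u‖ ^ 2) ?_
    rw [hf]
    refine Finset.sum_congr rfl fun p hp => ?_
    rw [Nat.add_sub_cancel' (Finset.mem_filter.1 hp).2.1.le, hc]
    simp only [osc, fr, Prod.fst_swap, Prod.snd_swap, mul_comm p.2 p.1]
    rw [← neg_sub (Real.log p.2), ofReal_neg, mul_neg, ← neg_mul I, ← div_div, neg_mul_comm]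
    ring
  simp only [e1]
  calc _ ≤ ∫ t in y - U..y + U, 3 * (‖f 0 t‖ ^ 2 + ‖f 1 t‖ ^ 2 + ‖f 2 t‖ ^ 2) := by
        refine intervalIntegral.integral_mono_on (by linarith)
          (Continuous.intervalIntegrable (by fun_prop) _ _)
          (Continuous.intervalIntegrable (by fun_prop) _ _) fun t _ => ?_
        refine (pow_le_pow_left₀ (norm_nonneg _) (norm_sum_le _ _) 2).trans ?_
        rw [Fin.sum_univ_three]
        nlinarith [sq_nonneg (‖f 0 t‖ - ‖f 1 t‖), sq_nonneg (‖f 0 t‖ - ‖f 2 t‖),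
          sq_nonneg (‖f 1 t‖ - ‖f 2 t‖)]
    _ ≤ 3 * (16 * C₂ * W + C₃ * C₄ ^ 4 * W + C₃ * C₄ ^ 4 * W) := by
        rw [intervalIntegral.integral_const_mul, intervalIntegral.integral_add
          (Continuous.intervalIntegrable (by fun_prop) _ _)
          (Continuous.intervalIntegrable (by fun_prop) _ _), intervalIntegral.integral_add
          (Continuous.intervalIntegrable (by fun_prop) _ _)
          (Continuous.intervalIntegrable (by fun_prop) _ _)]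
        gcongr
    _ ≤ _ := by
        rw [mul_assoc _ ((Y : ℝ) ^ ε), mul_assoc _ (_ * _), ← hW]
        nlinarith [mul_nonneg hC₁.le W0]

end Pool.Agent.Lib.MP_2a1a00_nt
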