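import Pool.Agent.Lib.MP_2a1a00_nt.D.Ky2

/-! The reduction to the short sums. -/

namespace Pool.Agent.Lib.MP_2a1a00_nt

open Complex MeasureTheory Set

theorem red_one {a b : ℕ} (h1 : 1 ≤ b) (h3 : b ≤ 3) (hab : 3 * a + 5 * b ≤ 21) {M r s : ℝ}
    (hM : 1 ≤ M) (hr : 0 ≤ r) (s0 : 0 < s) (s1 : s ≤ 1) :
    M ^ a * r ^ b ≤ M ^ 2 * r ^ 3 / s ^ 2 + s * M ^ 7 := by
  have M0 : 0 < M := by linarith
  have s2 : s ^ 2 ≤ 1 := pow_le_one₀ s0.le s1
  obtain rfl | rfl | rfl : b = 1 ∨ b = 2 ∨ b = 3 := by omega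
  · refine (mul_le_mul_of_nonneg_right (pow_le_pow_right₀ hM (by omega : a ≤ 5))
      (by positivity)).trans ?_
    rcases le_total r (s * M ^ 2) with h | h
    · refine le_add_of_nonneg_of_le (by positivity) ?_
      calc M ^ 5 * r ^ 1 ≤ M ^ 5 * (s * M ^ 2) ^ 1 := by gcongr
        _ = _ := by ring
    · refine le_add_of_le_of_nonneg ?_ (by positivity)
      rw [le_div_iff₀ (by positivity)]
      calc _ = M ^ 2 * r * (s ^ 2 * M ^ 3) := by ring
        _ ≤ M ^ 2 * r * (s ^ 2 * M ^ 4) := by gcongr; norm_num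
        _ = M ^ 2 * r * (s * M ^ 2) ^ 2 := by ring
        _ ≤ M ^ 2 * r * r ^ 2 := by gcongr
        _ = _ := by ring
  · refine (mul_le_mul_of_nonneg_right (pow_le_pow_right₀ hM (by omega : a ≤ 3))
      (by positivity)).trans ?_
    rcases le_total r (s ^ 2 * M) with h | h
    · refine le_add_of_nonneg_of_le (by positivity) ?_
      calc M ^ 3 * r ^ 2 ≤ M ^ 3 * (s ^ 2 * M) ^ 2 := by gcongr
        _ = s ^ 4 * M ^ 5 := by ring
        _ ≤ s ^ 1 * M ^ 7 := mul_le_mul (pow_le_pow_of_le_one s0.le s1 (by norm_num))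
            (pow_le_pow_right₀ hM (by norm_num)) (by positivity) (by positivity)
        _ = _ := by ring
    · refine le_add_of_le_of_nonneg ?_ (by positivity)
      rw [le_div_iff₀ (by positivity)]
      calc _ = M ^ 2 * r ^ 2 * (s ^ 2 * M) := by ring
        _ ≤ M ^ 2 * r ^ 2 * r := by gcongr
        _ = _ := by ring
  · refine le_add_of_le_of_nonneg ((mul_le_mul_of_nonneg_right
      (pow_le_pow_right₀ hM (by omega : a ≤ 2)) (by positivity)).trans ?_) (by positivity)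
    exact le_div_self (by positivity) (by positivity) s2

theorem red_hom {a b : ℕ} (h1 : 1 ≤ b) (h3 : b ≤ 3) (hab : 3 * a + 5 * b ≤ 21) {e r s X Y : ℝ}
    (he : 0 ≤ e) (hr : 0 ≤ r) (s0 : 0 < s) (s1 : s ≤ 1) (hX : 0 < X) (hY : 0 < Y) :
    e ^ a * r ^ b ≤ X ^ a * Y ^ b *
      (r ^ 3 * (X ^ 2 + e ^ 2) / (X ^ 2 * Y ^ 3 * s ^ 2) + s * (1 + e ^ 7 / X ^ 7)) := by
  obtain ⟨u, u0, rfl⟩ : ∃ u, 0 ≤ u ∧ e = X * u := ⟨e / X, by positivity, by field_simp⟩
  obtain ⟨v, v0, rfl⟩ : ∃ v, 0 ≤ v ∧ r = Y * v := ⟨r / Y, by positivity, by field_simp⟩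
  have k := red_one h1 h3 hab (le_max_left 1 u) v0 s0 s1
  have m : ∀ n : ℕ, max 1 u ^ n ≤ 1 + u ^ n := fun n => by
    rcases le_total 1 u with h | h
    · rw [max_eq_right h]
      linarith
    · rw [max_eq_left h, one_pow]
      linarith [pow_nonneg u0 n]
  have k2 : u ^ a * v ^ b ≤ (1 + u ^ 2) * v ^ 3 / s ^ 2 + s * (1 + u ^ 7) :=
    (mul_le_mul_of_nonneg_right (pow_le_pow_left₀ u0 (le_max_right 1 u) a) (by positivity)).trans
      (k.trans (by gcongr <;> exact m _))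
  calc _ = X ^ a * Y ^ b * (u ^ a * v ^ b) := by ring
    _ ≤ X ^ a * Y ^ b * ((1 + u ^ 2) * v ^ 3 / s ^ 2 + s * (1 + u ^ 7)) := by gcongr
    _ = _ := by field_simp

theorem red_pow {b : ℕ} (h1 : 1 ≤ b) (h3 : b ≤ 3) (e h : ℂ) {t : ℝ} (t0 : 0 < t) (t1 : t ≤ 1) :
    ‖e ^ b - h ^ b‖ ≤ 7 * (‖e - h‖ ^ b / t ^ 2) + 7 * (‖h‖ ^ b * t) := by
  have t2 : t ^ 2 ≤ 1 := pow_le_one₀ t0.le t1
  have a0 : 0 ≤ ‖h‖ ^ b * t := by positivity
  have a1 : ‖e - h‖ ^ b ≤ ‖e - h‖ ^ b / t ^ 2 := le_div_self (by positivity) (by positivity) t2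
  have a2 : 0 ≤ ‖e - h‖ ^ b := by positivity
  obtain rfl | rfl | rfl : b = 1 ∨ b = 2 ∨ b = 3 := by omega
  · simp only [pow_one] at *
    linarith
  · have a3 := fna_two h e t0 t1
    have a4 : ‖e - h‖ ^ 2 / t ≤ ‖e - h‖ ^ 2 / t ^ 2 :=
      div_le_div_of_nonneg_left a2 (by positivity) (by nlinarith)
    rw [norm_sub_rev (h ^ 2), norm_sub_rev h] at a3
    linarith
  · linarith [vky_pt e h t0 t1]

theorem red_sub {e h : ℂ} {M : ℝ} (he : ‖e‖ ≤ M) (hh : ‖h‖ ≤ M) (n : ℕ) :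
    ‖e ^ (n + 1) - h ^ (n + 1)‖ ≤ (n + 1) * (‖e - h‖ * M ^ n) := by
  have M0 := (norm_nonneg _).trans he
  induction n with
  | zero => simp
  | succ n ih =>
    rw [show e ^ (n + 1 + 1) - h ^ (n + 1 + 1) =
      e * (e ^ (n + 1) - h ^ (n + 1)) + (e - h) * h ^ (n + 1) by ring]
    refine (norm_add_le _ _).trans ?_
    rw [norm_mul, norm_mul, norm_pow]
    calc _ ≤ M * ((n + 1) * (‖e - h‖ * M ^ n)) + ‖e - h‖ * M ^ (n + 1) := by gcongr
      _ = _ := by push_cast; ring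

theorem red_dif {a : ℕ} (ha : a ≤ 5) (e h : ℂ) {u X : ℝ} (u0 : 0 < u) (hX : 0 < X) :
    ‖e ^ a - h ^ a‖ ≤ 5 * X ^ a *
      (‖e - h‖ ^ 2 / (X ^ 2 * u ^ 3) + 2 * u ^ 2 * (1 + (‖e‖ ^ 7 + ‖h‖ ^ 7) / X ^ 7)) := by
  have X' : (X : ℂ) ≠ 0 := ofReal_ne_zero.2 hX.ne'
  obtain ⟨f, rfl⟩ : ∃ f, e = X * f := ⟨e / X, by field_simp⟩
  obtain ⟨g, rfl⟩ : ∃ g, h = X * g := ⟨h / X, by field_simp⟩
  obtain ⟨M, hM⟩ : ∃ M, M = max 1 (max ‖f‖ ‖g‖) := ⟨_, rfl⟩
  have m1 : 1 ≤ M := hM ▸ le_max_left _ _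
  have m2 : ‖f‖ ≤ M := hM ▸ le_max_of_le_right (le_max_left _ _)
  have m3 : ‖g‖ ≤ M := hM ▸ le_max_of_le_right (le_max_right _ _)
  have f7 := pow_nonneg (norm_nonneg f) 7
  have g7 := pow_nonneg (norm_nonneg g) 7
  have m4 : M ^ 7 ≤ 1 + (‖f‖ ^ 7 + ‖g‖ ^ 7) := by
    rcases max_cases 1 (max ‖f‖ ‖g‖) with h | h
    · rw [hM, h.1, one_pow]
      linarith
    · rcases max_cases ‖f‖ ‖g‖ with h' | h' <;> rw [hM, h.1, h'.1] <;> linarith
  have r0 := norm_nonneg (f - g)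
  have r1 : ‖f - g‖ ≤ 2 * M := (norm_sub_le _ _).trans (by linarith)
  have M0 : 0 < M := by linarith
  have k1 : ‖f ^ a - g ^ a‖ ≤ 5 * (‖f - g‖ * M ^ 4) := by
    rcases a with _ | n
    · rw [pow_zero, pow_zero, sub_self, norm_zero]
      positivity
    · have n4 : n ≤ 4 := by omega
      have n5 : (n : ℝ) ≤ 4 := by exact_mod_cast n4
      refine (red_sub m2 m3 n).trans ?_
      gcongr
      linarith
  rw [mul_pow, mul_pow, ← mul_sub, ← mul_sub, norm_mul, norm_mul, norm_mul, norm_mul, norm_pow,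
    norm_real, Real.norm_of_nonneg hX.le]
  generalize ‖f - g‖ = r at r0 r1 k1 ⊢
  have k2 : r * M ^ 4 ≤ r ^ 2 / u ^ 3 + 2 * u ^ 2 * M ^ 7 := by
    rcases le_total (u ^ 3 * M ^ 4) r with h | h
    · refine le_add_of_le_of_nonneg ?_ (by positivity)
      rw [le_div_iff₀ (by positivity)]
      calc _ = r * (u ^ 3 * M ^ 4) := by ring
        _ ≤ r * r := by gcongr
        _ = _ := by ring
    · refine le_add_of_nonneg_of_le (by positivity) ?_
      have k3 : r ≤ 2 * u ^ 2 * M ^ 3 := by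
        refine le_of_pow_le_pow_left₀ three_ne_zero (by positivity) ?_
        calc r ^ 3 = r ^ 2 * r := by ring
          _ ≤ (u ^ 3 * M ^ 4) ^ 2 * (8 * M) := by gcongr; linarith
          _ = _ := by ring
      calc r * M ^ 4 ≤ 2 * u ^ 2 * M ^ 3 * M ^ 4 := by gcongr
        _ = _ := by ring
  calc _ ≤ X ^ a * (5 * (r ^ 2 / u ^ 3 + 2 * u ^ 2 * (1 + (‖f‖ ^ 7 + ‖g‖ ^ 7)))) := by
        refine mul_le_mul_of_nonneg_left (k1.trans ?_) (by positivity)
        exact mul_le_mul_of_nonneg_left (k2.trans (by gcongr)) (by norm_num)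
    _ = _ := by field_simp

theorem diff_bd {e h : ℝ → ℝ → ℂ} {w : ℝ → ℝ} {a : ℕ} (ha : a ≤ 5)
    (he : ∀ T, 1 ≤ T → Bm (e T) T) (hh : ∀ T, 1 ≤ T → Bm (h T) T) (hw : Continuous w)
    (w0 : ∀ x, 0 ≤ w x) (m0 : Bd (fun T => ∫ x in T..2 * T, w x) 1)
    (m1 : Bd (fun T => mo 7 (e T) w T) (11 / 4)) (m2 : Bd (fun T => mo 7 (h T) w T) (11 / 4))
    (m3 : Bd (fun T => mo 2 (fun x => e T x - h T x) w T) (3 / 2 - 1 / 200)) :
    Bd (fun T => mo 1 (fun x => e T x ^ a - h T x ^ a) w T) (1 + a / 4 - 1 / 500) := by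
  have t1 := (m3.div_rpow (1 / 2 - 3 / 1000)).mono (d := 1 - 1 / 500) (by norm_num)
  have t2 := (((m0.add (((m1.add m2).div_rpow (7 / 4)).mono (by norm_num))).mul_rpow
    (-(1 / 500))).const_mul zero_le_two).mono (d := 1 - 1 / 500) (by norm_num)
  refine ((((t1.add t2).mul_rpow (a / 4)).const_mul (K := 5) (by norm_num)).mono
    (by linarith)).of_le fun T hT => ?_
  have T0 : 0 < T := by linarith
  have cw := hw.continuousOn (s := Icc T (2 * T))
  have i0 := hw.intervalIntegrable (μ := volume) T (2 * T)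
  have i1 := (he T hT).int_pow T0.le 7 cw
  have i2 := (hh T hT).int_pow T0.le 7 cw
  have i3 := (((he T hT).sub (hh T hT)).int_pow T0.le 2 cw).div_const (T ^ (1 / 2 - 3 / 1000 : ℝ))
  have i4 := (i1.add i2).div_const (T ^ (7 / 4 : ℝ))
  have i5 := ((i0.add i4).mul_const (T ^ (-(1 / 500) : ℝ))).const_mul 2
  simp only [mo]
  rw [← intervalIntegral.integral_add i1 i2, ← intervalIntegral.integral_div,
    ← intervalIntegral.integral_div, ← intervalIntegral.integral_add i0 i4,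
    ← intervalIntegral.integral_mul_const, ← intervalIntegral.integral_const_mul,
    ← intervalIntegral.integral_add i3 i5, ← intervalIntegral.integral_mul_const,
    ← intervalIntegral.integral_const_mul]
  refine intervalIntegral.integral_mono_on (by linarith)
    ((((he T hT).pow a).sub ((hh T hT).pow a)).int_pow T0.le 1 cw)
    (((i3.add i5).mul_const _).const_mul 5) fun x _ => ?_
  have k := red_dif ha (e T x) (h T x) (Real.rpow_pos_of_pos T0 (-(1 / 1000)))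
    (Real.rpow_pos_of_pos T0 (1 / 4))
  simp only [rpow_pow hT, ← Real.rpow_add T0] at k
  rw [show ((2 : ℕ) : ℝ) * (1 / 4) + (3 : ℕ) * -(1 / 1000) = 1 / 2 - 3 / 1000 by norm_num,
    show ((2 : ℕ) : ℝ) * -(1 / 1000) = -(1 / 500) by norm_num,
    show ((7 : ℕ) : ℝ) * (1 / 4) = 7 / 4 by norm_num, mul_one_div] at k
  rw [pow_one]
  refine (mul_le_mul_of_nonneg_right k (w0 x)).trans (le_of_eq ?_)
  ring

variable {F L : Sel} {P : Vo} {a b : ℕ}

theorem red_mom (h : F.deg = 2) (hP : F.Vor P) (hL : L.deg ≤ 1) (hq : L.QP) (h1 : 1 ≤ b)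
    (h3 : b ≤ 3) (hab : 3 * a + 5 * b ≤ 21) {r : ℝ → ℝ → ℂ} {κ : ℝ} (hκ : 0 ≤ κ)
    (hr : ∀ T, 1 ≤ T → Bm (r T) T)
    (m : Bd (fun T => mo 3 (r T) (fun x => vw F T x * L.w x) T) (5 / 2 - 3 * κ)) :
    Bd (fun T => mo 1 (fun x => F.E x ^ a * r T x ^ b) L.w T) (1 + a / 4 + b / 3 - κ) := by
  obtain ⟨K, k1, k2⟩ := F.bd_near zero_le_one le_rfl
  have K0 : ∀ T, 1 ≤ T → 0 ≤ K T := fun T hT =>
    (norm_nonneg _).trans (k2 T hT T ⟨le_rfl, by linarith⟩)
  have k3 : Bd (fun T => 4 + 2 * K T ^ 2) 0 :=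
    (bd_const 4).add (((k1.pow K0 2).const_mul (K := 2) (by norm_num)).mono (by norm_num))
  have t1 := ((m.mul k3 fun T _ => by positivity).div_rpow (3 / 2 - 2 * κ)).mono (d := 1 - κ)
    (by linarith)
  have t2 := (((L.bd_mass hL).add (((Sel.p2_E7 hL hq h hP).div_rpow (7 / 4)).mono
    (by norm_num))).mul_rpow (-κ)).mono (d := 1 - κ) (by linarith)
  refine (((t1.add t2).mul_rpow (a / 4 + b / 3)).mono (by linarith)).of_le fun T hT => ?_
  have T0 : 0 < T := by linarith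
  have cw := L.continuous_w.continuousOn (s := Icc T (2 * T))
  have i0 := L.continuous_w.intervalIntegrable (μ := volume) T (2 * T)
  have i1 := ((F.bm_E hT).int_pow T0.le 7 cw).div_const (T ^ (7 / 4 : ℝ))
  have i2 : IntervalIntegrable (fun x => ‖r T x‖ ^ 3 * (vw F T x * L.w x)) volume T (2 * T) :=
    (hr T hT).int_pow T0.le 3 ((vw_cont F T0).continuousOn.mul cw)
  have i3 := (i2.mul_const (4 + 2 * K T ^ 2)).div_const (T ^ (3 / 2 - 2 * κ))
  have i4 := (i0.add i1).mul_const (T ^ (-κ))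
  simp only [mo]
  rw [← intervalIntegral.integral_div, ← intervalIntegral.integral_add i0 i1,
    ← intervalIntegral.integral_mul_const, ← intervalIntegral.integral_mul_const,
    ← intervalIntegral.integral_div, ← intervalIntegral.integral_add i3 i4,
    ← intervalIntegral.integral_mul_const]
  refine intervalIntegral.integral_mono_on (by linarith)
    ((((F.bm_E hT).pow a).mul ((hr T hT).pow b)).int_pow T0.le 1 cw)
    ((i3.add i4).mul_const _) fun x hx => ?_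
  have k := red_hom h1 h3 hab (norm_nonneg (F.E x)) (norm_nonneg (r T x))
    (Real.rpow_pos_of_pos T0 (-κ)) (Real.rpow_le_one_of_one_le_of_nonpos hT (by linarith))
    (Real.rpow_pos_of_pos T0 (1 / 4)) (Real.rpow_pos_of_pos T0 (1 / 3))
  simp only [rpow_pow hT, ← Real.rpow_add T0] at k
  rw [show ((2 : ℕ) : ℝ) * (1 / 4) + (3 : ℕ) * (1 / 3) + (2 : ℕ) * -κ = 3 / 2 - 2 * κ by
      push_cast; ring, show ((2 : ℕ) : ℝ) * (1 / 4) = 1 / 2 by norm_num,
    show ((7 : ℕ) : ℝ) * (1 / 4) = 7 / 4 by norm_num, mul_one_div, mul_one_div,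
    ← Real.sqrt_eq_rpow] at k
  have k4 := vky_a le_rfl hT (k2 T hT x hx)
  rw [show ((2 : ℕ) : ℝ) / 4 - 1 / 2 = 0 by norm_num, Real.rpow_zero, mul_one, ← vw_eq hx] at k4
  have k5 : √T + ‖F.E x‖ ^ 2 ≤ vw F T x * (4 + 2 * K T ^ 2) := by
    have : √T ≤ vw F T x := by
      rw [vw_eq hx]
      exact le_add_of_nonneg_right (by positivity)
    linarith
  rw [pow_one, norm_mul, norm_pow, norm_pow]
  refine (mul_le_mul_of_nonneg_right (k.trans (mul_le_mul_of_nonneg_left (add_le_add_left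
    (div_le_div_of_nonneg_right (mul_le_mul_of_nonneg_left k5 (by positivity)) (by positivity)) _)
    (by positivity))) (L.w_nonneg x)).trans (le_of_eq ?_)
  ring

theorem red_a (h : F.deg = 2) (hP : F.Vor P) (hL : L.deg ≤ 1) (hq : L.QP) (h1 : 1 ≤ b)
    (h3 : b ≤ 3) (hab : 3 * a + 5 * b ≤ 21) :
    Bd (fun T => ‖∫ x in T..2 * T, F.E x ^ a *
      ((zs 3).E x ^ b - (zs 3).Hs P3 (1 / 1000) T x ^ b) * L.w x‖)
      (1 + a / 4 + b / 3 - 1 / 900000) := by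
  have b1 := fun (T : ℝ) (hT : 1 ≤ T) => (zs 3).bm_E hT
  have b2 := fun (T : ℝ) (hT : 1 ≤ T) => (zs 3).bm_Hs P3 (1 / 1000) hT
  have t1 := red_mom h hP hL hq h1 h3 hab (κ := 1 / 300000) (by norm_num)
    (fun T hT => (b1 T hT).sub (b2 T hT)) ((key2 h hP hL hq).mono (by norm_num))
  have t2 := red_mom h hP hL hq h1 h3 hab (κ := 0) le_rfl b2
    ((key2_H h hP hL hq).mono (by norm_num))
  refine ((((t1.div_rpow (2 * -(1 / 900000))).const_mul (K := 7) (by norm_num)).mono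
    (by linarith)).add (((t2.mul_rpow (-(1 / 900000))).const_mul (K := 7) (by norm_num)).mono
    (by linarith))).of_le fun T hT => ?_
  have T0 : 0 < T := by linarith
  have cw := L.continuous_w.continuousOn (s := Icc T (2 * T))
  have i1 := (((((F.bm_E hT).pow a).mul (((b1 T hT).sub (b2 T hT)).pow b)).int_pow T0.le 1
    cw).div_const (T ^ (2 * -(1 / 900000) : ℝ))).const_mul 7
  have i2 := (((((F.bm_E hT).pow a).mul ((b2 T hT).pow b)).int_pow T0.le 1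
    cw).mul_const (T ^ (-(1 / 900000) : ℝ))).const_mul 7
  simp only [mo]
  rw [← intervalIntegral.integral_div, ← intervalIntegral.integral_mul_const,
    ← intervalIntegral.integral_const_mul, ← intervalIntegral.integral_const_mul,
    ← intervalIntegral.integral_add i1 i2]
  refine intervalIntegral.norm_integral_le_of_norm_le (by linarith)
    (Filter.Eventually.of_forall fun x _ => ?_) (i1.add i2)
  have k := red_pow h1 h3 ((zs 3).E x) ((zs 3).Hs P3 (1 / 1000) T x)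
    (Real.rpow_pos_of_pos T0 (-(1 / 900000)))
    (Real.rpow_le_one_of_one_le_of_nonpos hT (by norm_num))
  rw [rpow_pow hT, Nat.cast_ofNat] at k
  simp only [norm_mul, norm_pow, pow_one, norm_real, Real.norm_of_nonneg (L.w_nonneg x)]
  refine (mul_le_mul_of_nonneg_right (mul_le_mul_of_nonneg_left k (by positivity))
    (L.w_nonneg x)).trans (le_of_eq ?_)
  ring

theorem red_b (h : F.deg = 2) (hP : F.Vor P) (hL : L.deg ≤ 1) (hq : L.QP) (h3 : b ≤ 3)
    (ha : a ≤ 5) :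
    Bd (fun T => ‖∫ x in T..2 * T, (F.E x ^ a - F.Hs P (1 / 100) T x ^ a) *
      (zs 3).Hs P3 (1 / 1000) T x ^ b * L.w x‖) (1 + a / 4 + b / 3 - 1 / 1000) := by
  obtain ⟨K, k1, k2⟩ := fna_sup
  have k0 : ∀ T, 1 ≤ T → 0 ≤ K T := fun T hT =>
    (norm_nonneg _).trans (k2 T hT T ⟨le_rfl, by linarith⟩)
  have b3 : (b : ℝ) ≤ 3 := by exact_mod_cast h3
  have d := diff_bd (e := fun _ => F.E) (h := fun T => F.Hs P (1 / 100) T) ha
    (fun T hT => F.bm_E hT) (fun T hT => F.bm_Hs P _ hT) L.continuous_w L.w_nonneg (L.bd_mass hL)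
    ((Sel.p2_E7 hL hq h hP).mono (by norm_num))
    ((Sel.p2_H hL h hP (by norm_num) le_rfl (Or.inr rfl)).mono (by norm_num))
    ((Sel.p2_tw hL h hP le_rfl).mono (by norm_num))
  refine ((d.mul (k1.pow k0 b) fun T hT => pow_nonneg (k0 T hT) b).mono
    (by linarith)).of_le fun T hT => ?_
  have hT2 : T ≤ 2 * T := by linarith
  rw [mo, ← intervalIntegral.integral_mul_const]
  refine intervalIntegral.norm_integral_le_of_norm_le hT2
    (Filter.Eventually.of_forall fun x hx => ?_)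
    (((fna_bm F P a hT).int_pow (by linarith) 1 L.continuous_w.continuousOn).mul_const _)
  rw [norm_mul, norm_mul, norm_pow, pow_one, norm_real, Real.norm_of_nonneg (L.w_nonneg x),
    mul_right_comm]
  exact mul_le_mul_of_nonneg_left (pow_le_pow_left₀ (norm_nonneg _)
    (k2 T hT x (Ioc_subset_Icc_self hx)) b) (mul_nonneg (norm_nonneg _) (L.w_nonneg x))

theorem red (h : F.deg = 2) (hP : F.Vor P) (hL : L.deg ≤ 1) (hq : L.QP) (h1 : 1 ≤ b)
    (h3 : b ≤ 3) (hab : 3 * a + 5 * b ≤ 21) {g : ℝ → ℂ} (hg : ContinuousOn g (Ioi 0)) {c : ℝ}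
    (hc : 1 + a / 4 + b / 3 - 1 / 900000 ≤ c)
    (m : Bd (fun T => ‖∫ x in T..2 * T, (F.Hs P (1 / 100) T x ^ a *
      (zs 3).Hs P3 (1 / 1000) T x ^ b - g x) * L.w x‖) c) :
    Bd (fun T => ‖∫ x in T..2 * T, (F.E x ^ a * (zs 3).E x ^ b - g x) * L.w x‖) c := by
  have b1 := fun (T : ℝ) (hT : 1 ≤ T) => (F.bm_E hT).pow a
  have b2 := fun (T : ℝ) (hT : 1 ≤ T) => (F.bm_Hs P (1 / 100) hT).pow a
  have b3 := fun (T : ℝ) (hT : 1 ≤ T) => ((zs 3).bm_Hs P3 (1 / 1000) hT).pow b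
  have b4 := fun (T : ℝ) (hT : 1 ≤ T) =>
    (((b1 T hT).sub (b2 T hT)).mul (b3 T hT)).mul (L.bm_w T)
  have b5 := fun (T : ℝ) (hT : 1 ≤ T) =>
    (((b2 T hT).mul (b3 T hT)).sub (bm_of hT hg)).mul (L.bm_w T)
  have s3 := bd_split b4 b5 ((red_b h hP hL hq h3 (by omega)).mono (by linarith)) m fun _ _ => rfl
  exact bd_split (fun T hT => ((b1 T hT).mul ((((zs 3).bm_E hT).pow b).sub (b3 T hT))).mul
    (L.bm_w T)) (fun T hT => (b4 T hT).add (b5 T hT)) ((red_a h hP hL hq h1 h3 hab).mono hc) s3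
    fun T x => by ring

end Pool.Agent.Lib.MP_2a1a00_nt
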