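import Pool.Agent.Lib.MP_2a1a00_nt.C.Lv

/-! The middle frequencies for a weight that is a product. -/

namespace Pool.Agent.Lib.MP_2a1a00_nt

open Complex MeasureTheory Set

variable {v : ℝ → ℝ} {T W lam V₁ V₄ V' : ℝ}

/-- The inequality of Young for the averaged third moments. -/
def F4 (v : ℝ → ℝ) (T W V₄ : ℝ) : Prop :=
  0 ≤ V₄ ∧ ∀ (f : ℝ → ℂ) (t : ℝ), ContinuousOn f (Ioi 0) → 0 < t →
    Jv W v (fun y => ‖f y‖ ^ 3) T ≤ 2 * t * wd 4 f T + V₄ / t ^ 3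

theorem F4.mono (h : F4 v T W V₄) (h' : V₄ ≤ V') : F4 v T W V' :=
  ⟨h.1.trans h', fun f t hf ht => (h.2 f t hf ht).trans (by gcongr)⟩

theorem f4_mul {u w : ℝ → ℝ} {V : ℝ} (hT : 0 < T) (hW : 0 < W) (hl : 0 < lam)
    (h : Wg w T W lam V₁ V') (cu : Continuous u) (u0 : ∀ x, 0 ≤ u x)
    (hV : ∫ x in T..2 * T, u x ^ 4 * w x ≤ V) : F4 (fun x => u x * w x) T W (V * lam ^ 3) := by
  have V0 : 0 ≤ V := (intervalIntegral.integral_nonneg (by linarith) fun x _ =>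
    mul_nonneg (pow_nonneg (u0 x) 4) (h.pos x)).trans hV
  refine ⟨by positivity, fun f t hf ht => ?_⟩
  obtain ⟨r, hr⟩ : ∃ r, r = t / lam := ⟨_, rfl⟩
  have r0 : 0 < r := by rw [hr]; positivity
  have i1 := (wta_int (W := W) hT h.cont (hf.norm.pow 4)).const_mul r
  have i2 : IntervalIntegrable (fun x => u x ^ 4 * w x / r ^ 3) volume T (2 * T) :=
    (((cu.pow 4).mul h.cont).intervalIntegrable T (2 * T)).div_const (r ^ 3)
  refine (intervalIntegral.integral_mono_on (by linarith)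
    (wta_int hT (cu.mul h.cont) (hf.norm.pow 3)) (i1.add i2) fun x hx => ?_).trans ?_
  · have hx0 := hT.trans_le hx.1
    have j1 := ((wta_c1 (W := W) (hf.norm.pow 4) hx0).intervalIntegrable (μ := volume)
      (-1 / 5) (1 / 5)).const_mul r
    have j2 := ((continuous_ph W).intervalIntegrable (μ := volume) (-1 / 5) (1 / 5)).mul_const
      (u x ^ 4 / r ^ 3)
    have h1 := intervalIntegral.integral_mono_on (by norm_num)
      (((wta_c1 (hf.norm.pow 3) hx0).intervalIntegrable _ _).mul_const (u x)) (j1.add j2)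
      fun s _ => (mul_assoc _ _ _).trans_le ((mul_le_mul_of_nonneg_left
        (wta_young (norm_nonneg (f (x * Real.exp s))) (u0 x) r0) (ph_pos hW s).le).trans_eq
          ((mul_add _ _ _).trans (congrArg (· + _) (mul_left_comm _ _ _))))
    rw [intervalIntegral.integral_add j1 j2, intervalIntegral.integral_const_mul,
      intervalIntegral.integral_mul_const, intervalIntegral.integral_mul_const] at h1
    have h2 := h1.trans (add_le_add le_rfl (mul_le_of_le_one_left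
      (div_nonneg (pow_nonneg (u0 x) 4) (pow_pos r0 3).le) (av_mass hW)))
    refine le_trans (le_of_eq (mul_assoc _ _ _).symm)
      ((mul_le_mul_of_nonneg_right h2 (h.pos x)).trans (le_of_eq ?_))
    ring
  · rw [intervalIntegral.integral_add i1 i2, intervalIntegral.integral_const_mul,
      intervalIntegral.integral_div]
    have h1 := wt_loc hT hW h (hf.norm.pow 4) fun _ => pow_nonneg (norm_nonneg _) 4
    refine (add_le_add (mul_le_mul_of_nonneg_left h1 r0.le)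
      (div_le_div_of_nonneg_right hV (pow_pos r0 3).le)).trans (le_of_eq ?_)
    rw [hr, wd]
    simp only [Pi.pow_apply]
    field_simp

theorem wt2_one {f : ℝ → ℂ} {S Z L₂ L₄ : ℝ} (hT : 0 < T) (hW : 0 < W) (h : Wg v T W lam V₁ V')
    (g : F4 v T W V₄)
    (hf : ContinuousOn f (Ioi 0)) (hS : 0 ≤ S) (hZ : 0 < Z) (h2 : wd 2 f T ≤ L₂)
    (h4 : wd 4 f T ≤ L₄) (ho : Ok lam S V₄ Z L₂ L₄) :
    Jv W v (fun y => min ‖f y‖ S ^ 3) T ≤ 4 * Z := by
  have hT2 : T ≤ 2 * T := by linarith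
  have l0 : 0 ≤ lam := nonneg_of_mul_nonneg_left ((intervalIntegral.integral_nonneg hT2 fun x _ =>
    mul_nonneg (ph_pos hW _).le (h.pos x)).trans (h.loc T ⟨by linarith, by linarith⟩)) hT
  have v0 : 0 ≤ V₄ := g.1
  have p4 : 0 ≤ L₄ := (wd_nonneg 4 f hT.le).trans h4
  have cn (p : ℕ) : ContinuousOn (fun y => ‖f y‖ ^ p) (Ioi 0) := hf.norm.pow p
  have cm : ContinuousOn (fun y => min ‖f y‖ S ^ 3) (Ioi 0) :=
    (continuous_min.comp_continuousOn (hf.norm.prodMk continuousOn_const)).pow 3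
  have m0 (y : ℝ) : 0 ≤ min ‖f y‖ S := le_min (norm_nonneg _) hS
  have m3 (y : ℝ) : min ‖f y‖ S ^ 3 ≤ ‖f y‖ ^ 3 := pow_le_pow_left₀ (m0 y) (min_le_left _ _) 3
  have k (p : ℕ) {L : ℝ} (hL : wd p f T ≤ L) : Jv W v (fun y => ‖f y‖ ^ p) T ≤ 2 * lam * L :=
    (wt_loc hT hW h (cn p) fun y => by positivity).trans
      (mul_le_mul_of_nonneg_left hL (by positivity))
  have c1 : V₄ * L₄ ^ 3 ≤ Z ^ 4 → Jv W v (fun y => min ‖f y‖ S ^ 3) T ≤ 4 * Z := fun ho => by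
    have a := wt_mono (a := 1) (b := 0) hT hW h.cont h.pos cm (cn 3) (cn 3) fun y _ => by
      linarith [m3 y]
    have b (t : ℝ) (ht : 0 < t) : Jv W v (fun y => min ‖f y‖ S ^ 3) T ≤ 2 * t * L₄ + V₄ / t ^ 3 := by
      linarith [g.2 f t hf ht, mul_le_mul_of_nonneg_left h4 (by positivity : 0 ≤ 2 * t)]
    rcases p4.eq_or_lt with rfl | p
    · have q : 0 ≤ V₄ / Z := div_nonneg v0 hZ.le
      have t1 : 1 ≤ 1 + V₄ / Z := by linarith
      refine (b _ (one_pos.trans_le t1)).trans ?_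
      rw [mul_zero, zero_add, div_le_iff₀ (by positivity)]
      have e : Z * (1 + V₄ / Z) = Z + V₄ := by field_simp
      linarith [mul_le_mul_of_nonneg_left (le_self_pow₀ t1 three_ne_zero) hZ.le]
    · refine (b (Z / L₄) (div_pos hZ p)).trans ?_
      have e1 : 2 * (Z / L₄) * L₄ = 2 * Z := by field_simp
      have e2 : V₄ / (Z / L₄) ^ 3 ≤ Z := by
        rw [div_pow, div_div_eq_mul_div, div_le_iff₀ (by positivity)]
        linarith
      linarith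
  rcases ho with ho | ho | ho
  · exact c1 ho
  · have a := wt_mono (a := S) (b := 0) hT hW h.cont h.pos cm (cn 2) (cn 2) fun y _ => by
      have := mul_le_mul (min_le_right ‖f y‖ S) (pow_le_pow_left₀ (m0 y) (min_le_left _ _) 2)
        (pow_nonneg (m0 y) 2) hS
      linarith
    linarith [mul_le_mul_of_nonneg_left (k 2 h2) hS]
  · rcases p4.eq_or_lt with rfl | p
    · exact c1 (by simpa using pow_nonneg hZ.le 4)
    rcases l0.eq_or_lt with rfl | l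
    · linarith [wt_loc hT hW h cm fun y => pow_nonneg (m0 y) 3]
    have b0 : 0 < lam * L₄ / Z := by positivity
    obtain ⟨β, hβ⟩ : ∃ β, β = lam * L₄ / Z := ⟨_, rfl⟩
    rw [← hβ] at b0
    have a := wt_mono (a := β) (b := β⁻¹) hT hW h.cont h.pos cm (cn 2) (cn 4) fun y _ => by
      refine (m3 y).trans (le_of_mul_le_mul_left ?_ b0)
      rw [mul_add, mul_inv_cancel_left₀ b0.ne']
      nlinarith [mul_nonneg (sq_nonneg ‖f y‖) (sq_nonneg (β - ‖f y‖)),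
        mul_nonneg b0.le (pow_nonneg (norm_nonneg (f y)) 3)]
    have e1 : β * (2 * lam * L₂) ≤ 2 * Z := by
      rw [hβ, div_mul_eq_mul_div, div_le_iff₀ hZ]
      linarith
    have e2 : β⁻¹ * (2 * lam * L₄) = 2 * Z := by
      rw [hβ]
      field_simp
    linarith [mul_le_mul_of_nonneg_left (k 2 h2) b0.le,
      mul_le_mul_of_nonneg_left (k 4 h4) (inv_pos.2 b0).le]

theorem wt2_main {ι : Type} (s : Finset ι) {h : ℝ → ℂ} {f : ι → ℝ → ℂ} {S ρ Z : ℝ} (hT : 0 < T)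
    (hW : 0 < W) (hv : Wg v T W lam V₁ V') (g : F4 v T W V₄)
    (hh : ContinuousOn h (Ioi 0))
    (hf : ∀ i ∈ s, ContinuousOn (f i) (Ioi 0)) (hZ : 0 < Z)
    (hb : ∀ y ∈ Icc (T / 2) (4 * T), ‖h y‖ ≤ S ∧ ‖h y - ∑ i ∈ s, f i y‖ ≤ ρ)
    (ho : ∀ i ∈ s, ∃ L₂ L₄ : ℝ, wd 2 (f i) T ≤ L₂ ∧ wd 4 (f i) T ≤ L₄ ∧ Ok lam S V₄ Z L₂ L₄) :
    mo 3 (av W h) v T ≤ 4 * (ρ ^ 3 * V₁) + 16 * (s.card : ℝ) ^ 3 * Z := by
  obtain ⟨b1, b2⟩ := hb T ⟨by linarith, by linarith⟩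
  have hS := (norm_nonneg _).trans b1
  have hρ := (norm_nonneg _).trans b2
  have cm : ∀ i ∈ s, ContinuousOn (fun y => min ‖f i y‖ S ^ 3) (Ioi 0) := fun i hi =>
    (continuous_min.comp_continuousOn ((hf i hi).norm.prodMk continuousOn_const)).pow 3
  have k1 := wtb_sum s hT hW hv.cont hv.pos cm fun i hi =>
    let ⟨_, _, h2, h4, h⟩ := ho i hi
    wt2_one hT hW hv g (hf i hi) hS hZ h2 h4 h
  have k2 : Jv W v (fun _ => 1) T ≤ V₁ := by
    refine le_trans ?_ hv.one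
    simp only [Jv, mul_one, intervalIntegral.integral_const_mul]
    exact mul_le_of_le_one_left
      (intervalIntegral.integral_nonneg (by linarith) fun x _ => hv.pos x) (av_mass hW)
  have k3 := wt_mono (a := 4 * ρ ^ 3) (b := 4 * (s.card : ℝ) ^ 2) (G := fun y => ‖h y‖ ^ 3)
    (G₁ := fun _ => 1) hT hW hv.cont hv.pos (hh.norm.pow 3) continuousOn_const
    (continuousOn_finsetSum _ cm) fun y hy => by
      have m0 : ∀ i ∈ s, 0 ≤ min ‖f i y‖ S := fun i _ => le_min (norm_nonneg _) hS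
      have a1 : ‖h y‖ ≤ ρ + ∑ i ∈ s, min ‖f i y‖ S := by
        by_cases e : ∀ i ∈ s, ‖f i y‖ ≤ S
        · rw [Finset.sum_congr rfl fun i hi => min_eq_left (e i hi)]
          linarith [norm_sub_norm_le (h y) (∑ i ∈ s, f i y), (hb y hy).2,
            norm_sum_le s fun i => f i y]
        · simp only [not_forall, not_le] at e
          obtain ⟨i, hi, e⟩ := e
          have := Finset.single_le_sum m0 hi
          simp only [min_eq_right e.le] at this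
          linarith [(hb y hy).1]
      have a2 := pow_sum_le_card_mul_sum_pow m0 2
      have a3 := add_pow_le hρ (Finset.sum_nonneg m0) 3
      have a4 := pow_le_pow_left₀ (norm_nonneg _) a1 3
      norm_num at a2 a3 ⊢
      linarith
  linarith [wt_jen hT hW hv.cont hv.pos hh,
    mul_le_mul_of_nonneg_left k1 (by positivity : 0 ≤ 4 * (s.card : ℝ) ^ 2),
    mul_le_mul_of_nonneg_left k2 (by positivity : 0 ≤ 4 * ρ ^ 3)]

theorem lp2_log {t w l a p r e m u l₂ l₄ z : ℝ} (ht : 0 ≤ t) (hl : 0 ≤ l)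
    (w0 : (1 / 2 + 1 / 12000) * t ≤ w) (w1 : w ≤ 63 / 100 * t) (h1 : r + 2 * a ≤ l + w)
    (h2 : r + 4 * p ≤ l + w) (hm : m ≤ l + (2 * w - 2 / 3 * t)) (hu : u ≤ l + w)
    (h4 : 2 * (e + 2 * a) ≤ 3 * l + max (r + m) ((e + u) / 2) + max (e + m) ((e + 4 * r + u) / 2))
    (e2 : l₂ = l + 2 * t + (r + 2 * (a + p - w))) (e4 : l₄ = l + 3 * t + (e + 4 * (a + p - w)))
    (ez : z = 10 * l + (5 / 2 - 1 / 40000) * t) :
    l + 37 / 12 * t + 3 * l₄ ≤ 4 * z ∨ l + w + (l + (t - w)) + l₂ ≤ z ∨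
      2 * (l + w) + (l₂ + l₄) ≤ 2 * z := by
  by_contra hc
  push Not at hc
  obtain ⟨c1, c2, c3⟩ := hc
  rcases le_total (r + m) ((e + u) / 2) with h | h <;>
    rcases le_total (e + m) ((e + 4 * r + u) / 2) with h' | h' <;>
    simp only [max_eq_left, max_eq_right, h, h'] at h4 <;> linarith

theorem lp2 {T W Λ a p R E M U : ℝ} (hT : 1 ≤ T) (hΛ : 4 ≤ Λ) (w0 : T ^ (1 / 2 + 1 / 12000 : ℝ) ≤ W)
    (w1 : W ≤ T ^ (63 / 100 : ℝ)) (ha : 0 < a) (hp : 0 < p) (hR : 0 < R) (hE : 0 < E) (hM : 0 < M)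
    (hU : 0 < U) (h1 : R * a ^ 2 ≤ Λ * W) (h2 : R * p ^ 4 ≤ Λ * W)
    (hm : M ≤ Λ * (W ^ 2 / T ^ (2 / 3 : ℝ))) (hu : U ≤ Λ * W) (h4 : E * a ^ 2 ≤ Λ * eb R E M U) :
    Ok (Λ * W) (Λ * (T / W)) (Λ * T ^ (37 / 12 : ℝ)) (Λ ^ 10 * T ^ (5 / 2 - 1 / 40000 : ℝ))
      (Λ * T ^ 2 * (R * (a * p / W) ^ 2)) (Λ * T ^ 3 * (E * (a * p / W) ^ 4)) := by
  have hT0 : 0 < T := by linarith
  have hΛ0 : 0 < Λ := by linarith
  have hW : 0 < W := (Real.rpow_pos_of_pos hT0 _).trans_le w0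
  have h5 : (E * a ^ 2) ^ 2 ≤
      Λ ^ 3 * max (R * M) √(E * U) * max (E * M) √(E * R ^ 4 * U) := by
    have a1 : R * M + √(E * U) ≤ 2 * max (R * M) √(E * U) := by
      linarith [le_max_left (R * M) √(E * U), le_max_right (R * M) √(E * U)]
    have a2 : E * M + √(E * R ^ 4 * U) ≤ 2 * max (E * M) √(E * R ^ 4 * U) := by
      linarith [le_max_left (E * M) √(E * R ^ 4 * U), le_max_right (E * M) √(E * R ^ 4 * U)]
    have a3 : 0 < max (R * M) √(E * U) := lt_max_of_lt_left (by positivity)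
    have a4 : 0 < max (E * M) √(E * R ^ 4 * U) := lt_max_of_lt_left (by positivity)
    calc _ ≤ (Λ * eb R E M U) ^ 2 := by gcongr
      _ = Λ ^ 2 * ((R * M + √(E * U)) * (E * M + √(E * R ^ 4 * U))) := by
          rw [eb, mul_pow Λ, mul_pow √(R * M + √(E * U)), Real.sq_sqrt (by positivity),
            Real.sq_sqrt (by positivity)]
      _ ≤ Λ ^ 2 * (2 * max (R * M) √(E * U) * (2 * max (E * M) √(E * R ^ 4 * U))) := by gcongr
      _ = 4 * (Λ ^ 2 * max (R * M) √(E * U) * max (E * M) √(E * R ^ 4 * U)) := by ring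
      _ ≤ Λ * (Λ ^ 2 * max (R * M) √(E * U) * max (E * M) √(E * R ^ 4 * U)) := by gcongr
      _ = _ := by ring
  have a3 : 0 < max (R * M) √(E * U) := lt_max_of_lt_left (by positivity)
  have a4 : 0 < max (E * M) √(E * R ^ 4 * U) := lt_max_of_lt_left (by positivity)
  have l0 := Real.log_le_log (by positivity) w0
  have l1 := Real.log_le_log hW w1
  have l2 := Real.log_le_log (by positivity) h1
  have l3 := Real.log_le_log (by positivity) h2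
  have l4 := Real.log_le_log hM hm
  have l5 := Real.log_le_log hU hu
  have l6 := Real.log_le_log (by positivity) h5
  rw [Real.log_mul (by positivity) a4.ne', Real.log_mul (by positivity) a3.ne',
    vlp_max (by positivity) (by positivity), vlp_max (by positivity) (by positivity)] at l6
  simp (disch := positivity) only [Real.log_mul, Real.log_div, Real.log_pow, Real.log_rpow,
    Nat.cast_ofNat] at l0 l1 l2 l3 l4 l5 l6
  have k := lp2_log (Real.log_nonneg hT) (Real.log_nonneg (by linarith : 1 ≤ Λ)) l0 l1 l2 l3 l4 l5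
    l6 rfl rfl rfl
  refine k.imp (fun h => ?_) (Or.imp (fun h => ?_) fun h => ?_) <;>
    rw [← Real.log_le_log_iff (by positivity) (by positivity)] <;>
    simp (disch := positivity) only [Real.log_mul, Real.log_div, Real.log_pow, Real.log_rpow,
      Nat.cast_ofNat] <;> linarith

theorem lv2_cls : ∃ C : ℝ, 0 < C ∧ ∀ (ψ : ℝ → ℂ) (α π : ℤ → ℝ) (M U n : ℕ) (T W Λ Λ₁ D : ℝ), 1 ≤ T →
    4 ≤ Λ → T ^ (1 / 2 + 1 / 12000 : ℝ) ≤ W → W ≤ T ^ (63 / 100 : ℝ) → Continuous ψ → 1 ≤ M →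
    1 ≤ U → Mj α M U Λ₁ → ∑ k ∈ Finset.Ico (-(U : ℤ)) U, π k ≤ Λ₁ * (U + M) →
    (∀ k, 1 ≤ α k ∧ 1 ≤ π k) → 1 ≤ D →
    (∀ k : ℤ, ∫ t in (k : ℝ)..k + 1, ‖ψ t‖ ^ 4 ≤ (D / W) ^ 4 * (α k ^ 2 * π k)) →
    Λ₁ * (U + M) ≤ Λ * W → Λ₁ * (U + M) < 2 ^ n → Λ₁ ≤ Λ → M ≤ Λ * (W ^ 2 / T ^ (2 / 3 : ℝ)) →
    U ≤ Λ * W → C * D ^ 4 ≤ Λ → ∃ Wf : ℕ × ℕ → Finset ℤ,
      (∀ y, pc ψ (Finset.Ico (-(U : ℤ)) U) y =
        ∑ q ∈ Finset.range n ×ˢ Finset.range n, pc ψ (Wf q) y) ∧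
      ∀ q, ∃ L₂ L₄ : ℝ, wd 2 (pc ψ (Wf q)) T ≤ L₂ ∧ wd 4 (pc ψ (Wf q)) T ≤ L₄ ∧
        Ok (Λ * W) (Λ * (T / W)) (Λ * T ^ (37 / 12 : ℝ)) (Λ ^ 10 * T ^ (5 / 2 - 1 / 40000 : ℝ)) L₂ L₄ := by
  obtain ⟨C, hC, hf⟩ := fo_x
  refine ⟨16 * C, by positivity,
    fun ψ α π M U n T W Λ Λ₁ D hT hΛ w0 w1 hψ hM hU hα hπ h1 hD hk b1 b2 b3 b4 b5 b6 => ?_⟩
  have hT0 : 0 < T := by linarith
  have hW : 0 < W := (Real.rpow_pos_of_pos hT0 _).trans_le w0
  have α0 : ∀ k, 0 ≤ α k := hα.pos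
  have π0 : ∀ k, 0 ≤ π k := fun k => zero_le_one.trans (h1 k).2
  refine ⟨fun q => (Finset.Ico (-(U : ℤ)) U).filter fun k =>
    (Nat.log 2 ⌊α k⌋₊, Nat.log 2 ⌊π k⌋₊) = q, fun y => ?_, fun q => ?_⟩
  · simp only [pc, fw]
    rw [← Finset.mul_sum, Finset.sum_fiberwise_of_maps_to]
    intro k hk
    rw [Finset.mem_product, Finset.mem_range, Finset.mem_range]
    exact ⟨vlv_lt (h1 k).1 (((Finset.single_le_sum (fun i _ => α0 i) hk).trans hα.one).trans_lt b2),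
      vlv_lt (h1 k).2 (((Finset.single_le_sum (fun i _ => π0 i) hk).trans hπ).trans_lt b2)⟩
  obtain ⟨S, hS⟩ : ∃ S, S = (Finset.Ico (-(U : ℤ)) U).filter fun k =>
    (Nat.log 2 ⌊α k⌋₊, Nat.log 2 ⌊π k⌋₊) = q := ⟨_, rfl⟩
  beta_reduce
  rw [← hS]
  have sub : S ⊆ Finset.Ico (-(U : ℤ)) U := hS ▸ Finset.filter_subset _ _
  obtain ⟨a, ha, ea⟩ : ∃ a : ℝ, 0 < a ∧ a ^ 2 = 2 ^ q.1 :=
    ⟨√(2 ^ q.1), by positivity, Real.sq_sqrt (by positivity)⟩
  obtain ⟨p, hp, ep⟩ : ∃ p : ℝ, 0 < p ∧ p ^ 4 = 2 ^ q.2 :=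
    ⟨√√(2 ^ q.2), by positivity, by
      rw [show 4 = 2 * 2 by norm_num, pow_mul, Real.sq_sqrt (by positivity),
        Real.sq_sqrt (by positivity)]⟩
  have hc : ∀ k ∈ S, (a ^ 2 ≤ α k ∧ α k ≤ 2 * a ^ 2) ∧ p ^ 4 ≤ π k ∧ π k ≤ 2 * p ^ 4 := by
    intro k hk
    rw [hS, Finset.mem_filter] at hk
    rw [ea, ep, ← hk.2]
    exact ⟨vlv_log (h1 k).1, vlv_log (h1 k).2⟩
  obtain ⟨f2, f4⟩ := hf ψ S (2 * D * (a * p / W)) T hT0 hψ (by positivity) fun k hk' => by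
    obtain ⟨⟨-, c1⟩, -, c2⟩ := hc k hk'
    have := α0 k
    have := π0 k
    calc _ ≤ (D / W) ^ 4 * (α k ^ 2 * π k) := hk k
      _ ≤ (D / W) ^ 4 * ((2 * a ^ 2) ^ 2 * (2 * p ^ 4)) := by gcongr
      _ = 8 * (D * (a * p / W)) ^ 4 := by ring
      _ ≤ 16 * (D * (a * p / W)) ^ 4 := by gcongr; norm_num
      _ = _ := by ring
  have E0 := Eg_nonneg S
  have d2 : 4 * C * D ^ 2 ≤ Λ := by
    have : D ^ 2 ≤ D ^ 4 := pow_le_pow_right₀ hD (by norm_num)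
    have : 0 ≤ D ^ 2 := by positivity
    nlinarith
  refine ⟨Λ * T ^ 2 * (S.card * (a * p / W) ^ 2), Λ * T ^ 3 * (Eg S * (a * p / W) ^ 4),
    f2.trans ?_, f4.trans ?_, ?_⟩
  · calc _ = 4 * C * D ^ 2 * T ^ 2 * (S.card * (a * p / W) ^ 2) := by ring
      _ ≤ _ := by gcongr
  · calc _ = 16 * C * D ^ 4 * T ^ 3 * (Eg S * (a * p / W) ^ 4) := by ring
      _ ≤ _ := by gcongr
  rcases S.eq_empty_or_nonempty with h0 | h0
  · refine Or.inr (Or.inl ?_)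
    rw [h0, Finset.card_empty, Nat.cast_zero, zero_mul, mul_zero, mul_zero]
    have : 0 < Λ := by linarith
    positivity
  have cs : ∀ (β : ℤ → ℝ) (b : ℝ), (∀ k, 0 ≤ β k) → (∀ k ∈ S, b ≤ β k) →
      S.card * b ≤ ∑ k ∈ Finset.Ico (-(U : ℤ)) U, β k := fun β b β0 hb => by
    rw [← nsmul_eq_mul]
    exact (Finset.card_nsmul_le_sum S β b hb).trans
      (Finset.sum_le_sum_of_subset_of_nonneg sub fun k _ _ => β0 k)
  exact lp2 hT hΛ w0 w1 ha hp (by exact_mod_cast h0.card_pos) (Eg_pos h0) (by exact_mod_cast hM)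
    (by exact_mod_cast hU) (((cs α _ α0 fun k hk => (hc k hk).1.1).trans hα.one).trans b1)
    (((cs π _ π0 fun k hk => (hc k hk).2.1).trans hπ).trans b1) b4 b5
    (((en_low α0 fun k hk => (hc k hk).1.1).trans (hα.three S sub)).trans
      (mul_le_mul_of_nonneg_right b3 (eb_nonneg _ _ _ _)))

theorem lv2 : ∃ C : ℝ, 0 < C ∧ ∀ (v : ℝ → ℝ) (T W V Λ V' : ℝ), 1 ≤ T → 1 ≤ Λ →
    T ^ (1 / 2 + 1 / 12000 : ℝ) ≤ W → W ≤ T ^ (63 / 100 : ℝ) → W ≤ V → V ≤ 2 * W →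
    Wg v T (4 * W) (Λ * W) (Λ * T ^ (3 / 2 : ℝ)) V' →
    F4 v T (4 * W) (Λ * T ^ (37 / 12 : ℝ)) →
    mo 3 (fun x => (zs 3).B V x - (zs 3).B W x) v T ≤
      C * Λ ^ 10 * T ^ (5 / 2 - 1 / 50000 : ℝ) := by
  obtain ⟨κ, hκ⟩ : ∃ κ : ℝ, κ = 1 / 10000000 := ⟨_, rfl⟩
  have κ0 : 0 < κ := by rw [hκ]; norm_num
  obtain ⟨C₁, hC₁, H₁⟩ := lv2_cls
  obtain ⟨C₂, hC₂, H₂⟩ := pt_main κ0
  obtain ⟨C₃, hC₃, H₃⟩ := maj_two (ε := κ / 4) (by positivity)
  obtain ⟨C₄, hC₄, H₄⟩ := maj_four (ε := κ / 4) (by positivity)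
  obtain ⟨C₅, hC₅, H₅⟩ := sg_av (zs 3)
  obtain ⟨C₆, hC₆, H₆⟩ := sg_sup (zs 3) κ0
  obtain ⟨C₇, hC₇, H₇⟩ := vlv_n (K := 48 * (C₃ + C₄) + 1) κ0 (by linarith)
  obtain ⟨K, hK⟩ : ∃ K, K = 4 + 48 * (C₃ + C₄) + C₁ * (C₂ + 1) ^ 4 + C₆ := ⟨_, rfl⟩
  have k0 : 0 < C₁ * (C₂ + 1) ^ 4 := by positivity
  have K4 : 4 ≤ K := by linarith
  refine ⟨4 * (2 * C₅) ^ 3 + 16 * C₂ ^ 3 + 64 * C₇ * K ^ 10, by positivity,
    fun v T W V Λ V' hT hΛ w0 w1 hV hV' hv gv => ?_⟩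
  have hT0 : 0 < T := by linarith
  have w2 : √T ≤ W := by
    rw [Real.sqrt_eq_rpow]
    exact (Real.rpow_le_rpow_of_exponent_le hT (by norm_num)).trans w0
  have w3 : W ≤ T ^ (2 / 3 : ℝ) := w1.trans (Real.rpow_le_rpow_of_exponent_le hT (by norm_num))
  have w4 : W ≤ T := w3.trans (by
    simpa using Real.rpow_le_rpow_of_exponent_le hT (show (2 / 3 : ℝ) ≤ 1 by norm_num))
  have hW : 1 ≤ W := (Real.one_le_sqrt.2 hT).trans w2
  have hW0 : 0 < W := by linarith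
  obtain ⟨Y, U, hY, hU, p1, p2, p3, p4, p5, p6, p7⟩ :=
    vlv_par hT κ0 (by rw [hκ]; norm_num) w2 w3
  obtain ⟨n, n1, n2⟩ := H₇ T hT
  obtain ⟨G, hG⟩ : ∃ G, G = T ^ κ := ⟨_, rfl⟩
  have g1 : 1 ≤ G := hG ▸ Real.one_le_rpow hT κ0.le
  have g2 : G ≤ T := by
    simpa [hG] using Real.rpow_le_rpow_of_exponent_le hT (show κ ≤ 1 by rw [hκ]; norm_num)
  have u1 := (up_mem hW0 hV hV').1
  have u2 := (up_mem hW0 le_rfl (by linarith)).1
  obtain ⟨ψ, hψ, q1, q2⟩ := H₂ T W _ _ Y U hT hW w4 u1 u2 p1 p2 p3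
  have hM : 1 ≤ Y ^ 2 := Nat.one_le_pow _ _ hY
  have sc3 : ∀ n, ‖sc Y n‖ ≤ 3 * dv n := fun n => (sc_le Y n).trans (by linarith [dv_nonneg n])
  obtain ⟨α, hα, a1⟩ := H₃ (xc Y) (sc Y) (Y ^ 2) U hM hU (xc_le Y) sc3
  have hπ := H₄ (sc Y) (dp (fun _ => 1) Y) (Y ^ 2) U hM hU sc3 (dp_cont _ _) (pt_sq Y)
  rw [← hG] at p4 p5 p6 p7 n2
  obtain ⟨L, hL⟩ : ∃ L, L = K * Λ * G ^ 2 := ⟨_, rfl⟩
  have l0 : 1 ≤ G ^ 2 := one_le_pow₀ g1
  have l1 : K * G ^ 2 ≤ L := by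
    rw [hL]
    gcongr
    exact le_mul_of_one_le_right (by linarith) hΛ
  have l2 : K * G ≤ L := le_trans (by gcongr; nlinarith) l1
  have l3 : K ≤ L := le_trans (le_mul_of_one_le_right (by linarith) g1) l2
  have l4 : Λ ≤ L := by
    rw [hL]
    calc Λ = 1 * Λ * 1 := by ring
      _ ≤ _ := by gcongr; linarith
  have m1 : 8 * (C₃ + C₄) * G * (U + (Y ^ 2 : ℕ)) ≤ 48 * (C₃ + C₄) * G ^ 2 * W :=
    calc _ ≤ 8 * (C₃ + C₄) * G * (2 * G * W + 4 * G * W) := by gcongr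
      _ = _ := by ring
  have cq : Continuous fun t => (zt t + ‖dp (fun _ => 1) Y t‖) ^ 4 :=
    (zt_cont.add (dp_cont _ _).norm).pow 4
  obtain ⟨Wf, e1, e2⟩ := H₁ ψ α
    (fun k => 1 + ∫ t in (k : ℝ)..k + 1, (zt t + ‖dp (fun _ => 1) Y t‖) ^ 4) (Y ^ 2) U n T W L
    (8 * (C₃ + C₄) * G) (C₂ + 1) hT (K4.trans l3) w0 w1 hψ hM hU
    (hα.mono (by nlinarith))
    (hπ.trans (mul_le_mul_of_nonneg_right (by nlinarith) (by positivity)))
    (fun k => ⟨(a1 k).1, le_add_of_nonneg_right (intervalIntegral.integral_nonneg (by linarith)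
      fun t _ => by have := zt_nonneg t; positivity)⟩) (by linarith)
    (fun k => by
      have := hα.pos k
      calc _ ≤ ∫ t in (k : ℝ)..k + 1,
            (C₂ / W) ^ 4 * α k ^ 2 * (zt t + ‖dp (fun _ => 1) Y t‖) ^ 4 := by
            refine intervalIntegral.integral_mono_on (by linarith)
              ((hψ.norm.pow 4).intervalIntegrable _ _)
              ((continuous_const.mul cq).intervalIntegrable _ _) fun t ht => ?_
            refine (pow_le_pow_left₀ (norm_nonneg _) (q1 t) 4).trans ?_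
            rw [mul_pow, mul_pow, ← mul_assoc, show 4 = 2 * 2 by norm_num, pow_mul (_ + ‖dp (sc Y) _ _‖)]
            have := zt_nonneg t
            gcongr
            exact (a1 k).2 t ht
        _ = (C₂ / W) ^ 4 *
            (α k ^ 2 * ∫ t in (k : ℝ)..k + 1, (zt t + ‖dp (fun _ => 1) Y t‖) ^ 4) := by
            rw [intervalIntegral.integral_const_mul, mul_assoc]
        _ ≤ _ := by
            have : 0 ≤ ∫ t in (k : ℝ)..k + 1, (zt t + ‖dp (fun _ => 1) Y t‖) ^ 4 :=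
              intervalIntegral.integral_nonneg (by linarith)
                fun t _ => by have := zt_nonneg t; positivity
            gcongr <;> linarith)
    (m1.trans (by gcongr; exact le_trans (by gcongr; linarith) l1))
    ((m1.trans (by
      calc _ ≤ (48 * (C₃ + C₄) + 1) * T ^ 2 * T := by gcongr; linarith
        _ = _ := by ring)).trans_lt n1)
    (le_trans (by gcongr; linarith) l2) (p5.trans (by gcongr; exact le_trans (by gcongr) l2))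
    (p4.trans (by gcongr; exact le_trans (by gcongr; linarith) l2)) (le_trans (by linarith) l3)
  have c1 := (zs 3).B_cont (hW0.trans_le u1.1)
  have c2 := (zs 3).B_cont (hW0.trans_le u2.1)
  have hv' := hv.mono hT0.le (mul_le_mul_of_nonneg_right l4 hW0.le) le_rfl le_rfl
  have gv' := gv.mono (mul_le_mul_of_nonneg_right l4 (by positivity))
  have r1 := wt2_main (Finset.range n ×ˢ Finset.range n) (S := L * (T / W)) (ρ := C₂)
    (Z := L ^ 10 * T ^ (5 / 2 - 1 / 40000 : ℝ)) hT0 (by linarith) hv' gv' (c1.sub c2)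
    (fun q _ => pc_cont hψ (Wf q)) (by have : 0 < L := by linarith
                                       positivity)
    (fun y hy => ⟨(H₆ T W _ _ hT hW w3 u1 u2 y hy).trans (by
      rw [← hG]
      gcongr
      exact le_trans (by gcongr; linarith) l2), by rw [← e1]; exact q2 y hy⟩) fun q _ => e2 q
  have bm : ∀ {h : ℝ → ℂ}, ContinuousOn h (Ioi 0) → Bm h T := fun hh => bm_pos hT0 hh
  have d1 := (zs 3).B_cont (hW0.trans_le hV)
  have d2 := (zs 3).B_cont hW0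
  have d3 := av_cont (W := 4 * W) (c1.sub c2)
  have r2 := mo3_tri hT0.le hv.cont hv.pos (bm d1) (bm (d2.add d3)) (bm d2)
  have r3 := mo3_sup (ρ := 2 * C₅) hT0.le hv (bm (d1.sub (d2.add d3))) (by positivity)
    fun x hx => by
      have x0 := hT0.trans_le hx.1
      have e := av_add (W := 4 * W) (c1.sub c2) c2 x0
      simp only [Pi.sub_apply, sub_add_cancel] at e
      have i1 := H₅ T W V hT w2 hV hV' x hx
      have i2 := H₅ T W W hT w2 le_rfl (by linarith) x hx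
      refine le_trans (le_of_eq ?_) ((norm_sub_le _ _).trans (by linarith :
        ‖(zs 3).B V x - av (4 * W) ((zs 3).B (up W V)) x‖ +
          ‖(zs 3).B W x - av (4 * W) ((zs 3).B (up W W)) x‖ ≤ 2 * C₅))
      congr 1
      rw [show av (4 * W) ((zs 3).B (up W V)) x = _ from e]
      simp only [Pi.sub_apply, Pi.add_apply]
      ring
  simp only [Pi.add_apply, add_sub_cancel_left] at r2
  have t1 : Λ * T ^ (3 / 2 : ℝ) ≤ Λ ^ 10 * T ^ (5 / 2 - 1 / 50000 : ℝ) := by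
    gcongr
    · exact le_self_pow₀ hΛ (by norm_num)
    · norm_num
  have t2 : ((Finset.range n ×ˢ Finset.range n).card : ℝ) ^ 3 *
      (L ^ 10 * T ^ (5 / 2 - 1 / 40000 : ℝ)) ≤
      C₇ * K ^ 10 * (Λ ^ 10 * T ^ (5 / 2 - 1 / 50000 : ℝ)) := by
    have e : G ^ 21 * T ^ (5 / 2 - 1 / 40000 : ℝ) ≤ T ^ (5 / 2 - 1 / 50000 : ℝ) := by
      rw [hG, ← Real.rpow_natCast, ← Real.rpow_mul hT0.le, ← Real.rpow_add hT0, hκ]
      exact Real.rpow_le_rpow_of_exponent_le hT (by norm_num)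
    rw [Finset.card_product, Finset.card_range, Nat.cast_mul]
    calc _ = (n : ℝ) ^ 6 * (L ^ 10 * T ^ (5 / 2 - 1 / 40000 : ℝ)) := by ring
      _ ≤ C₇ * G * (L ^ 10 * T ^ (5 / 2 - 1 / 40000 : ℝ)) := by gcongr
      _ = C₇ * K ^ 10 * (Λ ^ 10 * (G ^ 21 * T ^ (5 / 2 - 1 / 40000 : ℝ))) := by rw [hL]; ring
      _ ≤ _ := by gcongr
  have t3 := mul_le_mul_of_nonneg_left t1 (show 0 ≤ (2 * C₅) ^ 3 by positivity)
  have t4 := mul_le_mul_of_nonneg_left t1 (show 0 ≤ C₂ ^ 3 by positivity)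
  refine (r2.trans (add_le_add (mul_le_mul_of_nonneg_left r3 (by norm_num))
    (mul_le_mul_of_nonneg_left r1 (by norm_num)))).trans ?_
  linarith

end Pool.Agent.Lib.MP_2a1a00_nt
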